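import Pool.Agent.H.MP_4eb066_an.Shell

/-! Smallness of the velocity generated by a radial function with zero shell masses. -/

open MeasureTheory Set Metric Filter Topology
open scoped ENNReal NNReal

noncomputable section

namespace Pool.Agent.H.MP_4eb066_an

variable {E : Type*} [NormedAddCommGroup E] [InnerProductSpace ℝ E]
  [MeasurableSpace E] [BorelSpace E] [FiniteDimensional ℝ E] [Nontrivial E]
variable {F : Type*} [NormedAddCommGroup F] [NormedSpace ℝ F]

omit [MeasurableSpace E] [BorelSpace E] [FiniteDimensional ℝ E] [Nontrivial E]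
  [InnerProductSpace ℝ E] in
theorem shell_union {a m c : ℝ} (h1 : a ≤ m) (h2 : m ≤ c) :
    shell E a c = shell E a m ∪ shell E m c := by
  ext y
  simp only [shell, mem_setOf_eq, mem_union, mem_Ico]
  constructor
  · rintro ⟨h3, h4⟩
    rcases lt_or_ge ‖y‖ m with h | h
    · exact Or.inl ⟨h3, h⟩
    · exact Or.inr ⟨h, h4⟩
  · rintro (⟨h3, h4⟩ | ⟨h3, h4⟩)
    · exact ⟨h3, by linarith⟩
    · exact ⟨by linarith, h4⟩

omit [MeasurableSpace E] [BorelSpace E] [FiniteDimensional ℝ E] [Nontrivial E]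
  [InnerProductSpace ℝ E] in
theorem shell_disjoint (a m c : ℝ) : Disjoint (shell E a m) (shell E m c) := by
  rw [Set.disjoint_left]
  rintro y ⟨_, h1⟩ ⟨h2, _⟩
  linarith

/-- Sum of the shell estimate over a monotone subdivision. -/
theorem shells_bound {t : ℕ → ℝ} (ht : Monotone t) (ht0 : 0 < t 0) {n : ℕ} (htn : t n ≤ 1)
    {h : ℝ} (hstep : ∀ j < n, t (j+1) - t j ≤ h) {d : ℝ → ℝ}
    (hd : IntegrableOn (fun y : E => d ‖y‖) (shell E (t 0) (t n)))
    (h0 : ∀ j < n, ∫ y in shell E (t j) (t (j+1)), d ‖y‖ = 0) {Ψ : E → F} (hΨ : Continuous Ψ)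
    {L : ℝ}
    (hL : ∀ y ∈ closedBall (0 : E) 1, ∀ y' ∈ closedBall (0 : E) 1, ‖Ψ y - Ψ y'‖ ≤ L * ‖y - y'‖)
    (hL0 : 0 ≤ L) :
    ‖∫ y in shell E (t 0) (t n), d ‖y‖ • Ψ y‖ ≤ L * h * ∫ y in shell E (t 0) (t n), |d ‖y‖| := by
  induction n with
  | zero =>
    have : shell E (t 0) (t 0) = ∅ := by
      simp [shell]
    simp [this]
  | succ n ih =>
    have hmono1 : t 0 ≤ t n := ht (Nat.zero_le _)
    have hmono2 : t n ≤ t (n+1) := ht (Nat.le_succ _)
    have htn' : t n ≤ 1 := hmono2.trans htn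
    rw [shell_union (E := E) hmono1 hmono2] at hd ⊢
    have hd1 := hd.mono_set (subset_union_left (s := shell E (t 0) (t n)) (t := shell E (t n) (t (n+1))))
    have hd2 := hd.mono_set (subset_union_right (s := shell E (t 0) (t n)) (t := shell E (t n) (t (n+1))))
    have ih' := ih htn' (fun j hj => hstep j (by omega)) hd1 (fun j hj => h0 j (by omega))
    have hs := shell_bound (E := E) (lt_of_lt_of_le ht0 hmono1) hmono2 htn hd2
      (h0 n (by omega)) hΨ hL hL0
    obtain ⟨K, hK⟩ := (isCompact_closedBall (0 : E) 1).exists_bound_of_continuousOn hΨ.continuousOn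
    have hint : ∀ S ⊆ closedBall (0:E) 1, MeasurableSet S → IntegrableOn (fun y : E => d ‖y‖) S →
        IntegrableOn (fun y : E => d ‖y‖ • Ψ y) S := by
      intro S hS hSm hSd
      have h1 : Integrable (fun y : E => d ‖y‖ * K) (volume.restrict S) := hSd.mul_const K
      refine h1.mono (hSd.aestronglyMeasurable.smul hΨ.aestronglyMeasurable) ?_
      filter_upwards [ae_restrict_mem hSm] with y hy
      rw [norm_smul, norm_mul]
      gcongr
      exact (hK _ (hS hy)).trans (le_abs_self K)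
    have hsub : ∀ j, t j ≤ 1 → ∀ a, shell E a (t j) ⊆ closedBall (0:E) 1 := by
      intro j hj a y hy
      have : ‖y‖ < t j := hy.2
      simp; linarith
    have hI1 := hint _ (hsub n htn' (t 0)) (measurableSet_shell _ _) hd1
    have hI2 := hint _ (hsub (n+1) htn (t n)) (measurableSet_shell _ _) hd2
    have hd1' : IntegrableOn (fun y : E => |d ‖y‖|) (shell E (t 0) (t n)) := hd1.abs
    have hd2' : IntegrableOn (fun y : E => |d ‖y‖|) (shell E (t n) (t (n+1))) := hd2.abs
    rw [setIntegral_union (shell_disjoint _ _ _) (measurableSet_shell _ _) hI1 hI2,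
      setIntegral_union (shell_disjoint _ _ _) (measurableSet_shell _ _) hd1' hd2']
    have hstep' := hstep n (by omega)
    have hnn : 0 ≤ ∫ y in shell E (t n) (t (n+1)), |d ‖y‖| := integral_nonneg fun _ => abs_nonneg _
    calc _ ≤ _ := norm_add_le _ _
      _ ≤ L * h * (∫ y in shell E (t 0) (t n), |d ‖y‖|) +
          L * (t (n+1) - t n) * ∫ y in shell E (t n) (t (n+1)), |d ‖y‖| := add_le_add ih' hs
      _ ≤ L * h * (∫ y in shell E (t 0) (t n), |d ‖y‖|) +
          L * h * ∫ y in shell E (t n) (t (n+1)), |d ‖y‖| := by gcongr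
      _ = _ := by ring

/-- Velocity generated by the radial function with profile `d` on the set `A`. -/
def Vint (b : ℝ) (A : Set E) (d : ℝ → ℝ) (x : E) : E := ∫ y in A, d ‖y‖ • kerG b (x - y)

theorem integral_odd_radial {ψ : E → F} (hψ : ∀ z, ψ (-z) = -ψ z) (d : ℝ → ℝ) (a c : ℝ) :
    ∫ y in shell E a c, d ‖y‖ • ψ (-y) = 0 := by
  rw [integral_shell (E := E) a c d (fun y => ψ (-y))]
  have h := integral_neg_eq_self (fun y : E => (Ico a c).indicator d ‖y‖ • ψ (-y)) volume
  simp only [norm_neg, hψ, smul_neg, neg_neg, integral_neg] at h ⊢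
  have h2 : (2:ℝ) • ∫ y : E, (Ico a c).indicator d ‖y‖ • ψ y = 0 := by
    rw [two_smul]
    nth_rewrite 1 [h]
    simp
  rw [neg_eq_zero]
  exact (smul_eq_zero.1 h2).resolve_left (by norm_num)

/-- The kernel has small integral on small balls. -/
theorem exists_small_ball {b : ℝ} (hb0 : b ≠ 0) (hb : b < Module.finrank ℝ E) {δ : ℝ} (hδ : 0 < δ)
    {r : ℝ} (hr : 0 < r) :
    ∃ ε, 0 < ε ∧ ε ≤ r ∧ ∫ z in ball (0 : E) ε, ‖kerG b z‖ ≤ δ := by
  have h1 : Integrable (fun z : E => ‖kerG b z‖) (volume.restrict (ball 0 1)) :=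
    (integrableOn_kerG (E := E) hb0 hb 1).norm
  have h2 : Tendsto (fun n : ℕ => (1:ℝ) / (n + 1)) atTop (𝓝 0) :=
    tendsto_one_div_add_atTop_nhds_zero_nat
  have hd : 0 < Module.finrank ℝ E := Module.finrank_pos
  have h3 : Tendsto (fun n : ℕ => (volume.restrict (ball (0:E) 1)) (ball (0:E) ((1:ℝ) / (n + 1))))
      atTop (𝓝 0) := by
    have h4 : Tendsto (fun n : ℕ => (volume : Measure E) (ball (0:E) ((1:ℝ) / (n + 1))))
      atTop (𝓝 0) := by
      have h5 : ∀ n : ℕ, (volume : Measure E) (ball (0:E) ((1:ℝ) / (n + 1))) =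
          ENNReal.ofReal (((1:ℝ) / (n + 1)) ^ Module.finrank ℝ E) * volume (ball (0:E) 1) := by
        intro n
        exact Measure.addHaar_ball_of_pos _ _ (by positivity)
      simp_rw [h5]
      have h6 : Tendsto (fun n : ℕ => ENNReal.ofReal (((1:ℝ) / (n + 1)) ^ Module.finrank ℝ E))
          atTop (𝓝 0) := by
        have := (ENNReal.tendsto_ofReal (h2.pow (Module.finrank ℝ E)))
        simpa [hd.ne'] using this
      have := ENNReal.Tendsto.mul_const (b := volume (ball (0:E) 1)) h6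
        (Or.inr measure_ball_lt_top.ne)
      simpa using this
    refine tendsto_of_tendsto_of_tendsto_of_le_of_le tendsto_const_nhds h4
      (fun _ => zero_le) (fun n => Measure.restrict_apply_le _ _)
  have h4 := h1.tendsto_setIntegral_nhds_zero h3
  have h5 : ∀ᶠ n : ℕ in atTop, ∫ z in ball (0:E) ((1:ℝ) / (n + 1)), ‖kerG b z‖
      ∂(volume.restrict (ball 0 1)) < δ := (h4.eventually (Iio_mem_nhds hδ))
  have h6 : ∀ᶠ n : ℕ in atTop, (1:ℝ) / (n + 1) < min r 1 :=
    h2.eventually (Iio_mem_nhds (by positivity))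
  obtain ⟨n, hn1, hn2⟩ := (h5.and h6).exists
  refine ⟨(1:ℝ) / (n + 1), by positivity, (hn2.le.trans (min_le_left _ _)), ?_⟩
  rw [Measure.restrict_restrict measurableSet_ball] at hn1
  have : ball (0:E) ((1:ℝ) / (n + 1)) ∩ ball 0 1 = ball (0:E) ((1:ℝ) / (n + 1)) := by
    apply inter_eq_left.2
    exact ball_subset_ball (hn2.le.trans (min_le_right _ _))
  rw [this] at hn1
  exact hn1.le

theorem integrableOn_kerG_sub {b : ℝ} (hb0 : b ≠ 0) (hb : b < Module.finrank ℝ E) (x : E)
    {S : Set E} (hS : S ⊆ ball (0:E) 1) : IntegrableOn (fun y => kerG b (x - y)) S := by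
  have h1 : Integrable ((ball (0:E) (‖x‖ + 1)).indicator (kerG b)) :=
    (integrable_indicator_iff measurableSet_ball).2 (integrableOn_kerG hb0 hb _)
  have h2 := h1.comp_sub_left x
  have h3 : IntegrableOn (fun y => kerG b (x - y)) (ball (0:E) 1) := by
    refine (h2.integrableOn (s := ball (0:E) 1)).congr_fun ?_ measurableSet_ball
    intro y hy
    have hy1 : ‖y‖ < 1 := by simpa using hy
    have hmem : x - y ∈ ball (0:E) (‖x‖ + 1) := by
      rw [mem_ball_zero_iff]
      calc ‖x - y‖ ≤ ‖x‖ + ‖y‖ := norm_sub_le _ _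
        _ < ‖x‖ + 1 := by linarith
    exact indicator_of_mem hmem _
  exact h3.mono_set hS

theorem integrableOn_Vint {b : ℝ} (hb0 : b ≠ 0) (hb : b < Module.finrank ℝ E)
    {S : Set E} (hS : S ⊆ ball (0:E) 1) {d : ℝ → ℝ} (hd : Measurable d) {C : ℝ}
    (hC : ∀ᵐ y ∂(volume.restrict (ball (0:E) 1)), |d ‖y‖| ≤ C) (x : E) :
    IntegrableOn (fun y => d ‖y‖ • kerG b (x - y)) S := by
  have h3 := integrableOn_kerG_sub (E := E) hb0 hb x (Subset.refl _)
  have h4 : IntegrableOn (fun y => d ‖y‖ • kerG b (x - y)) (ball (0:E) 1) := by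
    have h5 : Integrable (fun y => C * ‖kerG b (x - y)‖) (volume.restrict (ball (0:E) 1)) :=
      h3.norm.const_mul C
    refine h5.mono' ?_ ?_
    · exact ((hd.comp measurable_norm).aestronglyMeasurable).smul h3.aestronglyMeasurable
    · filter_upwards [hC] with y hy
      rw [norm_smul]
      exact mul_le_mul_of_nonneg_right hy (norm_nonneg _)
  exact h4.mono_set hS

end Pool.Agent.H.MP_4eb066_an
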