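import Pool.Agent.H.MP_4eb066_an.Annulus

open MeasureTheory Set Metric Filter Topology
open scoped ENNReal NNReal

noncomputable section

namespace Pool.Agent.H.MP_4eb066_an

variable {E : Type*} [NormedAddCommGroup E] [InnerProductSpace ℝ E]
  [MeasurableSpace E] [BorelSpace E] [FiniteDimensional ℝ E] [Nontrivial E]

/-- The part of the kernel removed by the truncation. -/
def kerN (b ε : ℝ) (z : E) : E := kerG b z - kerC b ε z

theorem measurable_kerN (b : ℝ) {ε : ℝ} (hε : 0 < ε) : Measurable (kerN b ε : E → E) :=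
  (measurable_kerG b).sub (continuous_kerC b hε).measurable

theorem norm_kerN_le (b : ℝ) {ε : ℝ} (hε : 0 < ε) (z : E) :
    ‖kerN b ε z‖ ≤ (ball (0 : E) ε).indicator (fun z => ‖kerG b z‖) z :=
  norm_kerG_sub_kerC_le b hε z

theorem kerN_eq_zero (b : ℝ) {ε : ℝ} (hε : 0 < ε) {z : E} (hz : ε ≤ ‖z‖) : kerN b ε z = 0 := by
  have := norm_kerN_le b hε z
  rw [indicator_of_notMem (by simpa using hz)] at this
  exact norm_le_zero_iff.1 this

theorem integrable_kerN {b : ℝ} (hb0 : b ≠ 0) (hb : b < Module.finrank ℝ E) {ε : ℝ} (hε : 0 < ε) :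
    Integrable (kerN b ε : E → E) := by
  have h1 : Integrable ((ball (0:E) ε).indicator (fun z => ‖kerG b z‖)) :=
    (integrable_indicator_iff measurableSet_ball).2 (integrableOn_kerG hb0 hb _).norm
  exact h1.mono' (measurable_kerN b hε).aestronglyMeasurable
    (Eventually.of_forall fun z => norm_kerN_le b hε z)

theorem integral_norm_kerN_le {b : ℝ} (hb0 : b ≠ 0) (hb : b < Module.finrank ℝ E) {ε : ℝ}
    (hε : 0 < ε) : ∫ z : E, ‖kerN b ε z‖ ≤ ∫ z in ball (0 : E) ε, ‖kerG b z‖ := by
  rw [← integral_indicator measurableSet_ball]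
  apply integral_mono_ae (integrable_kerN hb0 hb hε).norm
  · exact (integrable_indicator_iff measurableSet_ball).2 (integrableOn_kerG hb0 hb _).norm
  · exact Eventually.of_forall fun z => norm_kerN_le b hε z

theorem shell_subset_ball {a c : ℝ} (hc : c ≤ 1) : shell E a c ⊆ ball (0:E) 1 := by
  intro y hy
  have : ‖y‖ < c := hy.2
  rw [mem_ball_zero_iff]; linarith

/-- Main estimate on an annulus at positive distance from the origin. -/
theorem annulus_estimate {b : ℝ} (hb0 : 0 < b) (hb : b < Module.finrank ℝ E) {a c : ℝ}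
    (ha : 0 < a) (hac : a ≤ c) (hc : c ≤ 1) {η : ℝ} (hη : 0 < η) :
    ∃ n : ℕ, 0 < n ∧ ∀ d : ℝ → ℝ, Measurable d → ∀ C : ℝ,
      (∀ᵐ y ∂(volume.restrict (ball (0:E) 1)), |d ‖y‖| ≤ C) →
      (∀ j < n, ∫ y in shell E (a + (c - a) * (j / n)) (a + (c - a) * ((j + 1 : ℕ) / n)),
        d ‖y‖ = 0) →
      (∀ x ∈ closedBall (0:E) 1, ‖Vint b (shell E a c) d x‖ ≤ η * C * ‖x‖) ∧
      (∫⁻ x in ball (0:E) 1, ‖x‖ₑ⁻¹ * ‖Vint b (shell E a c) d x‖ₑ ≤
        ENNReal.ofReal η * ∫⁻ y in shell E a c, ‖d ‖y‖‖ₑ) := by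
  obtain ⟨ε, hε, hεa, hεδ⟩ := exists_small_ball (E := E) hb0.ne' hb
    (δ := η * a / 4) (by positivity) (r := a / 2) (by positivity)
  obtain ⟨M, hM0, hM⟩ := exists_double_diff (E := E) b hε
  -- choose the number of shells
  set B : ℝ := (volume : Measure E).real (ball (0:E) 1) with hB
  have hB0 : 0 ≤ B := measureReal_nonneg
  obtain ⟨n, hn⟩ := exists_nat_gt (2 * M * (c - a) * B / η)
  have hn0 : 0 < n + 1 := Nat.succ_pos n
  refine ⟨n + 1, hn0, ?_⟩
  intro d hd C hC hmass
  have hC0 : 0 ≤ C := by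
    have hne : (volume.restrict (ball (0:E) 1)) ≠ 0 := by
      rw [Ne, Measure.restrict_eq_zero]
      exact (measure_ball_pos _ _ one_pos).ne'
    have : (ae (volume.restrict (ball (0:E) 1))).NeBot := ae_neBot.2 hne
    obtain ⟨y, hy⟩ := hC.exists
    exact (abs_nonneg _).trans hy
  set h : ℝ := (c - a) / (n + 1 : ℕ) with hh
  have hh0 : 0 ≤ h := by
    apply div_nonneg (by linarith); positivity
  have hMB : M * h * B ≤ η / 2 := by
    rw [hh]
    have h1 : 2 * M * (c - a) * B / η < (n + 1 : ℕ) := by push_cast; linarith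
    rw [div_lt_iff₀ hη] at h1
    have h2 : M * ((c - a) / (n + 1 : ℕ)) * B = (M * (c - a) * B) / (n + 1 : ℕ) := by ring
    rw [h2, div_le_iff₀ (by positivity)]
    linarith
  set A := shell E a c with hA
  have hAm : MeasurableSet A := measurableSet_shell a c
  have hA1 : A ⊆ ball (0:E) 1 := shell_subset_ball hc
  have hdm : Measurable (fun y : E => d ‖y‖) := hd.comp measurable_norm
  have hdI : IntegrableOn (fun y : E => d ‖y‖) (ball (0:E) 1) := by
    have : IsFiniteMeasure (volume.restrict (ball (0:E) 1)) := ⟨by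
      rw [Measure.restrict_apply_univ]; exact measure_ball_lt_top⟩
    exact Integrable.of_bound hdm.aestronglyMeasurable C hC
  have hdA : IntegrableOn (fun y : E => d ‖y‖) A := hdI.mono_set hA1
  have hCA : ∀ᵐ y ∂(volume.restrict A), |d ‖y‖| ≤ C := ae_restrict_of_ae_restrict_of_subset hA1 hC
  have hdAC : ∫ y in A, |d ‖y‖| ≤ C * B := by
    calc ∫ y in A, |d ‖y‖| ≤ ∫ y in ball (0:E) 1, |d ‖y‖| :=
          setIntegral_mono_set hdI.abs (Eventually.of_forall fun _ => abs_nonneg _)
            (HasSubset.Subset.eventuallyLE hA1)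
      _ ≤ ∫ y in ball (0:E) 1, C := by
          apply integral_mono_ae hdI.abs
          · exact integrableOn_const measure_ball_lt_top.ne
          · exact hC
      _ = C * B := by rw [setIntegral_const, smul_eq_mul, mul_comm]
  -- the two parts
  set T1 : E → E := fun x => ∫ y in A, d ‖y‖ • kerN b ε (x - y) with hT1
  set T2 : E → E := fun x => ∫ y in A, d ‖y‖ • kerC b ε (x - y) with hT2
  have hIG : ∀ x : E, IntegrableOn (fun y => d ‖y‖ • kerG b (x - y)) A := fun x =>
    integrableOn_Vint hb0.ne' hb hA1 hd hC x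
  have hIN : ∀ x : E, IntegrableOn (fun y => d ‖y‖ • kerN b ε (x - y)) A := by
    intro x
    have h1 : Integrable (fun y => kerN b ε (x - y)) := (integrable_kerN hb0.ne' hb hε).comp_sub_left x
    have h2 : Integrable (fun y => C * ‖kerN b ε (x - y)‖) (volume.restrict A) :=
      (h1.norm.const_mul C).integrableOn
    refine h2.mono' (hdm.aestronglyMeasurable.smul h1.aestronglyMeasurable.restrict) ?_
    filter_upwards [hCA] with y hy
    rw [norm_smul]
    exact mul_le_mul_of_nonneg_right hy (norm_nonneg _)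
  have hsum : ∀ x, Vint b A d x = T1 x + T2 x := by
    intro x
    have h2 : T2 x = ∫ y in A, (d ‖y‖ • kerG b (x - y) - d ‖y‖ • kerN b ε (x - y)) := by
      simp only [hT2, kerN, ← smul_sub, sub_sub_cancel]
    rw [h2, integral_sub (hIG x) (hIN x)]
    simp only [hT1, Vint]
    abel
  -- bound for T2
  have hT2b : ∀ x ∈ closedBall (0:E) 1, ‖T2 x‖ ≤ M * ‖x‖ * h * ∫ y in A, |d ‖y‖| := by
    intro x hx
    have e : T2 x = ∫ y in A, d ‖y‖ • (kerC b ε (x - y) - kerC b ε (-y)) := by
      have h0 := integral_odd_radial (E := E) (kerC_neg (E := E) b ε) d a c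
      have hbd : ∀ z : E, IntegrableOn (fun y => d ‖y‖ • kerC b ε (z - y)) A := by
        intro z
        have : (fun y => d ‖y‖ • kerC b ε (z - y)) =
            fun y => d ‖y‖ • kerG b (z - y) - d ‖y‖ • kerN b ε (z - y) := by
          ext y; simp only [kerN, ← smul_sub, sub_sub_cancel]
        rw [this]
        exact (hIG z).sub (hIN z)
      have h1 := hbd x
      have h2 := hbd 0
      simp only [zero_sub] at h2
      simp only [smul_sub]
      rw [integral_sub h1 h2, h0, sub_zero]
    rw [e]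
    set t : ℕ → ℝ := fun j => a + (c - a) * (j / (n + 1 : ℕ)) with ht
    have ht0 : t 0 = a := by simp [ht]
    have htn : t (n + 1) = c := by
      simp only [ht]
      rw [div_self (by positivity)]; ring
    have htmono : Monotone t := by
      intro i j hij
      simp only [ht]
      have : (i:ℝ) / (n + 1 : ℕ) ≤ (j:ℝ) / (n + 1 : ℕ) := by gcongr
      have := mul_le_mul_of_nonneg_left this (sub_nonneg.2 hac)
      linarith
    have hstep : ∀ j < n + 1, t (j+1) - t j ≤ h := by
      intro j _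
      simp only [ht, hh]
      apply le_of_eq
      push_cast
      ring
    have key := shells_bound (E := E) (F := E) htmono (by rw [ht0]; exact ha) (n := n + 1)
      (by rw [htn]; exact hc) hstep (d := d) (by rw [ht0, htn]; exact hdA) (by
        intro j hj
        exact hmass j hj) (Ψ := fun y => kerC b ε (x - y) - kerC b ε (-y)) (by
        have := continuous_kerC (E := E) b hε
        fun_prop) (L := M * ‖x‖) (fun y hy y' hy' => hM x hx y hy y' hy') (by positivity)
    rw [ht0, htn] at key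
    exact key
  constructor
  · intro x hx
    rw [hsum]
    have h2 : ‖T2 x‖ ≤ η / 2 * C * ‖x‖ := by
      calc ‖T2 x‖ ≤ M * ‖x‖ * h * ∫ y in A, |d ‖y‖| := hT2b x hx
        _ ≤ M * ‖x‖ * h * (C * B) := by gcongr
        _ = (M * h * B) * C * ‖x‖ := by ring
        _ ≤ η / 2 * C * ‖x‖ := by gcongr
    have h1 : ‖T1 x‖ ≤ η / 2 * C * ‖x‖ := by
      rcases lt_or_ge ‖x‖ (a / 2) with hx2 | hx2
      · have : T1 x = 0 := by
          simp only [hT1]
          have : ∀ y ∈ A, d ‖y‖ • kerN b ε (x - y) = 0 := by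
            intro y hy
            have hy1 : a ≤ ‖y‖ := hy.1
            have : ε ≤ ‖x - y‖ := by
              have := norm_sub_norm_le y x
              rw [norm_sub_rev] at this
              linarith
            rw [kerN_eq_zero b hε this, smul_zero]
          rw [setIntegral_congr_fun hAm this]
          simp
        rw [this]
        simp; positivity
      · have h3 : ‖T1 x‖ ≤ C * (η * a / 4) := by
          calc ‖T1 x‖ ≤ ∫ y in A, ‖d ‖y‖ • kerN b ε (x - y)‖ := norm_integral_le_integral_norm _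
            _ ≤ ∫ y in A, C * ‖kerN b ε (x - y)‖ := by
                apply integral_mono_ae (hIN x).norm
                · exact ((((integrable_kerN hb0.ne' hb hε).comp_sub_left x)).norm.const_mul
                    C).integrableOn
                · filter_upwards [hCA] with y hy
                  rw [norm_smul]
                  exact mul_le_mul_of_nonneg_right hy (norm_nonneg _)
            _ = C * ∫ y in A, ‖kerN b ε (x - y)‖ := by rw [integral_const_mul]
            _ ≤ C * ∫ y, ‖kerN b ε (x - y)‖ := by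
                apply mul_le_mul_of_nonneg_left _ hC0
                apply setIntegral_le_integral
                · exact (((integrable_kerN hb0.ne' hb hε).comp_sub_left x)).norm
                · exact Eventually.of_forall fun _ => norm_nonneg _
            _ = C * ∫ y : E, ‖kerN b ε y‖ := by
                rw [integral_sub_left_eq_self (fun y : E => ‖kerN b ε y‖)]
            _ ≤ C * (η * a / 4) := by
                gcongr
                exact (integral_norm_kerN_le hb0.ne' hb hε).trans hεδ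
        calc ‖T1 x‖ ≤ C * (η * a / 4) := h3
          _ = η / 2 * C * (a / 2) := by ring
          _ ≤ η / 2 * C * ‖x‖ := by gcongr
    calc ‖T1 x + T2 x‖ ≤ ‖T1 x‖ + ‖T2 x‖ := norm_add_le _ _
      _ ≤ η / 2 * C * ‖x‖ + η / 2 * C * ‖x‖ := add_le_add h1 h2
      _ = η * C * ‖x‖ := by ring
  · -- second estimate
    set I : ℝ≥0∞ := ∫⁻ y in A, ‖d ‖y‖‖ₑ with hI
    have hIfin : I ≠ ∞ := hdA.2.ne
    have hdI' : ENNReal.ofReal (∫ y in A, |d ‖y‖|) = I := by
      have := ofReal_integral_norm_eq_lintegral_enorm hdA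
      simpa only [Real.norm_eq_abs] using this
    have e2 : ∀ x ∈ ball (0:E) 1, ‖x‖ₑ⁻¹ * ‖T2 x‖ₑ ≤ ENNReal.ofReal (M * h) * I := by
      intro x hx
      have h1 := hT2b x (ball_subset_closedBall hx)
      rcases eq_or_ne x 0 with rfl | hx0
      · have : T2 0 = 0 := by
          have : ‖T2 0‖ ≤ 0 := by simpa using h1
          exact norm_le_zero_iff.1 this
        simp [this]
      have h2 : ‖T2 x‖ₑ ≤ ‖x‖ₑ * (ENNReal.ofReal (M * h) * I) := by
        rw [← ofReal_norm, ← ofReal_norm, ← hdI', ← ENNReal.ofReal_mul (by positivity),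
          ← ENNReal.ofReal_mul (norm_nonneg _)]
        apply ENNReal.ofReal_le_ofReal
        calc ‖T2 x‖ ≤ _ := h1
          _ = _ := by ring
      have hx1 : ‖x‖ₑ ≠ 0 := by simpa using hx0
      have hx2 : ‖x‖ₑ ≠ ∞ := enorm_ne_top
      calc ‖x‖ₑ⁻¹ * ‖T2 x‖ₑ ≤ ‖x‖ₑ⁻¹ * (‖x‖ₑ * (ENNReal.ofReal (M * h) * I)) := by gcongr
        _ = ENNReal.ofReal (M * h) * I := by
          rw [← mul_assoc, ENNReal.inv_mul_cancel hx1 hx2, one_mul]
    have hN : Measurable (fun p : E × E => ‖kerN b ε (p.1 - p.2)‖ₑ) :=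
      ((measurable_kerN b hε).comp (measurable_fst.sub measurable_snd)).enorm
    have e1 : ∀ x ∈ ball (0:E) 1, ‖x‖ₑ⁻¹ * ‖T1 x‖ₑ ≤
        ENNReal.ofReal (2 / a) * ∫⁻ y in A, ‖d ‖y‖‖ₑ * ‖kerN b ε (x - y)‖ₑ := by
      intro x _
      have hle : ‖T1 x‖ₑ ≤ ∫⁻ y in A, ‖d ‖y‖‖ₑ * ‖kerN b ε (x - y)‖ₑ := by
        refine (enorm_integral_le_lintegral_enorm _).trans (le_of_eq ?_)
        simp only [enorm_smul]
      rcases lt_or_ge ‖x‖ (a / 2) with hx2 | hx2
      · have : T1 x = 0 := by
          simp only [hT1]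
          have : ∀ y ∈ A, d ‖y‖ • kerN b ε (x - y) = 0 := by
            intro y hy
            have hy1 : a ≤ ‖y‖ := hy.1
            have : ε ≤ ‖x - y‖ := by
              have := norm_sub_norm_le y x
              rw [norm_sub_rev] at this
              linarith
            rw [kerN_eq_zero b hε this, smul_zero]
          rw [setIntegral_congr_fun hAm this]
          simp
        simp [this]
      · have hinv : ‖x‖ₑ⁻¹ ≤ ENNReal.ofReal (2 / a) := by
          rw [← ofReal_norm, ← ENNReal.ofReal_inv_of_pos (by linarith [ha])]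
          apply ENNReal.ofReal_le_ofReal
          rw [inv_le_comm₀ (by linarith) (by positivity), inv_div]
          exact hx2
        gcongr
    have e3 : ∫⁻ x in ball (0:E) 1, ENNReal.ofReal (2 / a) *
        ∫⁻ y in A, ‖d ‖y‖‖ₑ * ‖kerN b ε (x - y)‖ₑ ≤ ENNReal.ofReal (η / 2) * I := by
      have hprod : Measurable (fun p : E × E => ‖d ‖p.2‖‖ₑ * ‖kerN b ε (p.1 - p.2)‖ₑ) :=
        (hdm.enorm.comp measurable_snd).mul hN
      have hinner : Measurable (fun x : E => ∫⁻ y in A, ‖d ‖y‖‖ₑ * ‖kerN b ε (x - y)‖ₑ) :=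
        hprod.lintegral_prod_right'
      rw [lintegral_const_mul _ hinner]
      have hswap : ∫⁻ x in ball (0:E) 1, ∫⁻ y in A, ‖d ‖y‖‖ₑ * ‖kerN b ε (x - y)‖ₑ ≤
          I * ENNReal.ofReal (η * a / 4) := by
        calc ∫⁻ x in ball (0:E) 1, ∫⁻ y in A, ‖d ‖y‖‖ₑ * ‖kerN b ε (x - y)‖ₑ
            ≤ ∫⁻ x, ∫⁻ y in A, ‖d ‖y‖‖ₑ * ‖kerN b ε (x - y)‖ₑ := setLIntegral_le_lintegral _ _
          _ = ∫⁻ y in A, ∫⁻ x, ‖d ‖y‖‖ₑ * ‖kerN b ε (x - y)‖ₑ :=
              lintegral_lintegral_swap hprod.aemeasurable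
          _ = ∫⁻ y in A, ‖d ‖y‖‖ₑ * ∫⁻ x, ‖kerN b ε (x - y)‖ₑ := by
              congr 1; ext y
              rw [lintegral_const_mul]
              exact ((measurable_kerN b hε).comp (measurable_id.sub measurable_const)).enorm
          _ = ∫⁻ y in A, ‖d ‖y‖‖ₑ * ∫⁻ x : E, ‖kerN b ε x‖ₑ := by
              congr 1; ext y
              rw [lintegral_sub_right_eq_self (fun x : E => ‖kerN b ε x‖ₑ) y]
          _ = I * ∫⁻ x : E, ‖kerN b ε x‖ₑ := by
              rw [lintegral_mul_const _ hdm.enorm]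
          _ ≤ I * ENNReal.ofReal (η * a / 4) := by
              gcongr
              rw [← ofReal_integral_norm_eq_lintegral_enorm (integrable_kerN hb0.ne' hb hε)]
              apply ENNReal.ofReal_le_ofReal
              exact (integral_norm_kerN_le hb0.ne' hb hε).trans hεδ
      calc _ ≤ ENNReal.ofReal (2 / a) * (I * ENNReal.ofReal (η * a / 4)) := by gcongr
        _ = (ENNReal.ofReal (2 / a) * ENNReal.ofReal (η * a / 4)) * I := by ring
        _ = ENNReal.ofReal (η / 2) * I := by
          rw [← ENNReal.ofReal_mul (by positivity)]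
          congr 2
          field_simp
          norm_num
    have e4 : ∫⁻ _x in ball (0:E) 1, ENNReal.ofReal (M * h) * I ≤ ENNReal.ofReal (η / 2) * I := by
      rw [setLIntegral_const, mul_assoc, mul_comm I, ← mul_assoc]
      gcongr
      have : (volume : Measure E) (ball (0:E) 1) = ENNReal.ofReal B := by
        rw [hB, ofReal_measureReal measure_ball_lt_top.ne]
      rw [this, ← ENNReal.ofReal_mul (by positivity)]
      exact ENNReal.ofReal_le_ofReal hMB
    have hT1m : Measurable (fun x : E => ENNReal.ofReal (2 / a) *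
        ∫⁻ y in A, ‖d ‖y‖‖ₑ * ‖kerN b ε (x - y)‖ₑ) := by
      apply Measurable.const_mul
      exact ((hdm.enorm.comp measurable_snd).mul hN).lintegral_prod_right'
    calc ∫⁻ x in ball (0:E) 1, ‖x‖ₑ⁻¹ * ‖Vint b A d x‖ₑ
        ≤ ∫⁻ x in ball (0:E) 1, (ENNReal.ofReal (2 / a) *
            (∫⁻ y in A, ‖d ‖y‖‖ₑ * ‖kerN b ε (x - y)‖ₑ) + ENNReal.ofReal (M * h) * I) := by
          apply setLIntegral_mono' measurableSet_ball
          intro x hx
          rw [hsum x]
          calc ‖x‖ₑ⁻¹ * ‖T1 x + T2 x‖ₑ ≤ ‖x‖ₑ⁻¹ * (‖T1 x‖ₑ + ‖T2 x‖ₑ) := by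
                gcongr; exact enorm_add_le _ _
            _ = ‖x‖ₑ⁻¹ * ‖T1 x‖ₑ + ‖x‖ₑ⁻¹ * ‖T2 x‖ₑ := by rw [mul_add]
            _ ≤ _ := add_le_add (e1 x hx) (e2 x hx)
      _ = (∫⁻ x in ball (0:E) 1, ENNReal.ofReal (2 / a) *
            (∫⁻ y in A, ‖d ‖y‖‖ₑ * ‖kerN b ε (x - y)‖ₑ)) +
            ∫⁻ _x in ball (0:E) 1, ENNReal.ofReal (M * h) * I := lintegral_add_left hT1m _
      _ ≤ ENNReal.ofReal (η / 2) * I + ENNReal.ofReal (η / 2) * I := add_le_add e3 e4
      _ = ENNReal.ofReal η * I := by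
          rw [← add_mul, ← ENNReal.ofReal_add (by positivity) (by positivity)]
          congr 2; ring

end Pool.Agent.H.MP_4eb066_an
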