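import Pool.Agent.H.MP_4eb066_an.Radial

open MeasureTheory Set Metric Filter Topology
open scoped ENNReal NNReal RealInnerProductSpace

noncomputable section

namespace Pool.Agent.H.MP_4eb066_an

variable {E : Type*} [NormedAddCommGroup E] [InnerProductSpace ℝ E]
  [MeasurableSpace E] [BorelSpace E] [FiniteDimensional ℝ E] [Nontrivial E]

/-- The tent profile. -/
def phi (r : ℝ) : ℝ := max (1 - r) 0

theorem phi_nonneg (r : ℝ) : 0 ≤ phi r := le_max_right _ _

theorem phi_le_one {r : ℝ} (hr : 0 ≤ r) : phi r ≤ 1 := by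
  unfold phi; apply max_le <;> linarith

theorem continuous_phi : Continuous phi := by unfold phi; fun_prop

theorem phi_antitone : Antitone phi := by
  intro r s h; unfold phi; exact max_le_max (by linarith) le_rfl

theorem phi_eq_zero {r : ℝ} (hr : 1 ≤ r) : phi r = 0 := by
  unfold phi; exact max_eq_right (by linarith)

theorem phi_lip (r s : ℝ) : |phi r - phi s| ≤ |r - s| := by
  unfold phi
  have h := abs_max_sub_max_le_abs (1 - r) (1 - s) 0
  calc _ ≤ |1 - r - (1 - s)| := h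
    _ = |r - s| := by rw [show 1 - r - (1 - s) = -(r - s) by ring, abs_neg]

/-- difference of the two reflected tents -/
def dlt (x z : E) : ℝ := phi ‖x - z‖ - phi ‖x + z‖

omit [MeasurableSpace E] [BorelSpace E] [FiniteDimensional ℝ E] [Nontrivial E] in
theorem abs_dlt_le (x z : E) : |dlt x z| ≤ 2 * ‖x‖ := by
  have h1 : ‖x - z‖ - ‖x + z‖ ≤ 2 * ‖x‖ := by
    have : ‖x - z‖ ≤ ‖x + z‖ + ‖2 • x‖ := by
      have e : x - z = -(x + z) + 2 • x := by rw [two_smul]; abel
      calc ‖x - z‖ = ‖-(x + z) + 2 • x‖ := by rw [← e]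
        _ ≤ ‖-(x + z)‖ + ‖2 • x‖ := norm_add_le _ _
        _ = ‖x + z‖ + ‖2 • x‖ := by rw [norm_neg]
    have h2 : ‖(2:ℕ) • x‖ ≤ 2 * ‖x‖ := by simpa using norm_nsmul_le (n := 2) (a := x)
    linarith
  have h2 : ‖x + z‖ - ‖x - z‖ ≤ 2 * ‖x‖ := by
    have : ‖x + z‖ ≤ ‖x - z‖ + ‖2 • x‖ := by
      have e : x + z = -(x - z) + 2 • x := by rw [two_smul]; abel
      calc ‖x + z‖ = ‖-(x - z) + 2 • x‖ := by rw [← e]
        _ ≤ ‖-(x - z)‖ + ‖2 • x‖ := norm_add_le _ _
        _ = ‖x - z‖ + ‖2 • x‖ := by rw [norm_neg]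
    have h2 : ‖(2:ℕ) • x‖ ≤ 2 * ‖x‖ := by simpa using norm_nsmul_le (n := 2) (a := x)
    linarith
  exact (phi_lip _ _).trans (abs_le.2 ⟨by linarith, h1⟩)

omit [MeasurableSpace E] [BorelSpace E] [FiniteDimensional ℝ E] [Nontrivial E] in
theorem dlt_eq_zero {x z : E} (hx : ‖x‖ ≤ 1) (hz : 2 ≤ ‖z‖) : dlt x z = 0 := by
  have h1 : 1 ≤ ‖x - z‖ := by
    have := norm_sub_norm_le z x
    rw [norm_sub_rev] at this; linarith
  have h2 : 1 ≤ ‖x + z‖ := by
    have := norm_sub_norm_le z (-x)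
    rw [sub_neg_eq_add, norm_neg, add_comm z x] at this; linarith
  rw [dlt, phi_eq_zero h1, phi_eq_zero h2, sub_zero]

omit [MeasurableSpace E] [BorelSpace E] [FiniteDimensional ℝ E] [Nontrivial E] in
theorem dlt_mul_inner_nonneg (x z : E) : 0 ≤ dlt x z * ⟪z, x⟫ := by
  have e1 : ‖x - z‖ ^ 2 = ‖x‖^2 - 2 * ⟪x, z⟫ + ‖z‖^2 := norm_sub_sq_real x z
  have e2 : ‖x + z‖ ^ 2 = ‖x‖^2 + 2 * ⟪x, z⟫ + ‖z‖^2 := norm_add_sq_real x z
  rw [real_inner_comm] at e1 e2
  rcases le_total 0 ⟪z, x⟫ with h | h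
  · apply mul_nonneg _ h
    have : ‖x - z‖ ≤ ‖x + z‖ := by
      apply le_of_sq_le_sq _ (norm_nonneg _)
      linarith
    exact sub_nonneg.2 (phi_antitone this)
  · apply mul_nonneg_of_nonpos_of_nonpos _ h
    have : ‖x + z‖ ≤ ‖x - z‖ := by
      apply le_of_sq_le_sq _ (norm_nonneg _)
      linarith
    exact sub_nonpos.2 (phi_antitone this)

theorem integrable_phi_smul {ψ : E → E} (hψ : ∀ r, IntegrableOn ψ (ball (0:E) r)) (x : E) :
    Integrable (fun z => phi ‖x - z‖ • ψ z) := by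
  have h1 : IntegrableOn (fun z => phi ‖x - z‖ • ψ z) (ball (0:E) (‖x‖ + 1)) := by
    refine (hψ (‖x‖ + 1)).norm.mono' ?_ ?_
    · apply AEStronglyMeasurable.smul _ (hψ (‖x‖ + 1)).aestronglyMeasurable
      exact (continuous_phi.comp (by fun_prop)).aestronglyMeasurable
    · refine Eventually.of_forall fun z => ?_
      rw [norm_smul, Real.norm_of_nonneg (phi_nonneg _)]
      exact mul_le_of_le_one_left (norm_nonneg _) (phi_le_one (norm_nonneg _))
  refine (integrableOn_iff_integrable_of_support_subset ?_).1 h1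
  intro z hz
  rw [mem_ball_zero_iff]
  by_contra hcon
  push Not at hcon
  apply hz
  have : 1 ≤ ‖x - z‖ := by
    have := norm_sub_norm_le z x
    rw [norm_sub_rev] at this; linarith
  simp only [phi_eq_zero this, zero_smul]

theorem integrable_dlt_smul {ψ : E → E} (hψ : ∀ r, IntegrableOn ψ (ball (0:E) r)) (x : E) :
    Integrable (fun z => dlt x z • ψ z) := by
  have h1 := integrable_phi_smul hψ x
  have h2 := integrable_phi_smul hψ (-x)
  have h3 := h1.sub h2
  refine h3.congr (Eventually.of_forall fun z => ?_)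
  simp only [dlt, Pi.sub_apply]
  rw [← sub_smul]
  congr 3
  rw [← norm_neg]; congr 1; abel

/-- odd kernels: symmetrised convolution with the tent -/
theorem conv_phi_eq {ψ : E → E} (hψ : ∀ r, IntegrableOn ψ (ball (0:E) r))
    (hodd : ∀ z, ψ (-z) = -ψ z) (x : E) :
    (2:ℝ) • ∫ y in ball (0:E) 1, phi ‖y‖ • ψ (x - y) = ∫ z, dlt x z • ψ z := by
  have e0 : ∫ y in ball (0:E) 1, phi ‖y‖ • ψ (x - y) = ∫ y, phi ‖y‖ • ψ (x - y) := by
    apply setIntegral_eq_integral_of_forall_compl_eq_zero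
    intro y hy
    have : 1 ≤ ‖y‖ := by simpa using hy
    rw [phi_eq_zero this, zero_smul]
  have e1 : ∫ y, phi ‖y‖ • ψ (x - y) = ∫ z, phi ‖x - z‖ • ψ z := by
    have := integral_sub_left_eq_self (fun z : E => phi ‖x - z‖ • ψ z) volume x
    rw [← this]
    simp
  have e2 : ∫ z, phi ‖x - z‖ • ψ z = - ∫ z, phi ‖x + z‖ • ψ z := by
    rw [← integral_neg_eq_self, ← integral_neg]
    congr 1; ext z
    rw [hodd, sub_neg_eq_add, smul_neg]
  have h1 := integrable_phi_smul hψ x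
  have h2 : Integrable (fun z => phi ‖x + z‖ • ψ z) := by
    have h2 := integrable_phi_smul hψ (-x)
    refine h2.congr (Eventually.of_forall fun z => ?_)
    simp only
    congr 2
    rw [← norm_neg]; congr 1; abel
  rw [e0, e1, two_smul]
  nth_rewrite 2 [e2]
  rw [← sub_eq_add_neg, ← integral_sub h1 h2]
  congr 1; ext z
  rw [dlt, sub_smul]

end Pool.Agent.H.MP_4eb066_an
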