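import Pool.Agent.H.MP_4eb066_an.Base

open MeasureTheory Set Metric Filter Topology
open scoped ENNReal NNReal RealInnerProductSpace

noncomputable section

namespace Pool.Agent.H.MP_4eb066_an

variable {E : Type*} [NormedAddCommGroup E] [InnerProductSpace ℝ E]
  [MeasurableSpace E] [BorelSpace E] [FiniteDimensional ℝ E] [Nontrivial E]

theorem Vint_phi_upper {b : ℝ} (hb0 : 0 < b) (hb : b < Module.finrank ℝ E) :
    ∃ C : ℝ, 0 ≤ C ∧ ∀ x ∈ closedBall (0:E) 1, ‖Vint b (ball (0:E) 1) phi x‖ ≤ C * ‖x‖ := by
  refine ⟨∫ z in ball (0:E) 2, ‖kerG b z‖, integral_nonneg fun _ => norm_nonneg _, ?_⟩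
  intro x hx
  have hx1 : ‖x‖ ≤ 1 := by simpa using hx
  have h1 := conv_phi_eq (E := E) (ψ := kerG b) (fun r => integrableOn_kerG hb0.ne' hb r)
    (kerG_neg b) x
  have hI := integrable_dlt_smul (E := E) (ψ := kerG b) (fun r => integrableOn_kerG hb0.ne' hb r) x
  have h2 : ‖∫ z, dlt x z • kerG b z‖ ≤ 2 * ‖x‖ * ∫ z in ball (0:E) 2, ‖kerG b z‖ := by
    calc ‖∫ z, dlt x z • kerG b z‖ ≤ ∫ z, ‖dlt x z • kerG b z‖ := norm_integral_le_integral_norm _
      _ = ∫ z in ball (0:E) 2, ‖dlt x z • kerG b z‖ := by
          symm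
          apply setIntegral_eq_integral_of_forall_compl_eq_zero
          intro z hz
          have : 2 ≤ ‖z‖ := by simpa using hz
          rw [dlt_eq_zero hx1 this]; simp
      _ ≤ ∫ z in ball (0:E) 2, 2 * ‖x‖ * ‖kerG b z‖ := by
          apply setIntegral_mono hI.norm.integrableOn
          · exact (integrableOn_kerG hb0.ne' hb 2).norm.const_mul _
          · intro z
            simp only [norm_smul, Real.norm_eq_abs]
            exact mul_le_mul_of_nonneg_right (abs_dlt_le x z) (norm_nonneg _)
      _ = _ := integral_const_mul _ _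
  rw [← h1, norm_smul, Real.norm_of_nonneg (by norm_num)] at h2
  have : Vint b (ball (0:E) 1) phi x = ∫ y in ball (0:E) 1, phi ‖y‖ • kerG b (x - y) := rfl
  rw [this]
  linarith

theorem integral_phi_pos : 0 < ∫ y in ball (0:E) 1, phi ‖y‖ := by
  have hfin : IsFiniteMeasure (volume.restrict (ball (0:E) 1)) := ⟨by
    rw [Measure.restrict_apply_univ]; exact measure_ball_lt_top⟩
  have hint : IntegrableOn (fun y : E => phi ‖y‖) (ball (0:E) 1) := by
    apply Integrable.of_bound (C := 1)
    · exact (continuous_phi.comp continuous_norm).aestronglyMeasurable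
    · refine Eventually.of_forall fun y => ?_
      rw [Real.norm_of_nonneg (phi_nonneg _)]
      exact phi_le_one (norm_nonneg _)
  rw [setIntegral_pos_iff_support_of_nonneg_ae (Eventually.of_forall fun y => phi_nonneg _) hint]
  have : Function.support (fun y : E => phi ‖y‖) ∩ ball (0:E) 1 = ball (0:E) 1 := by
    apply inter_eq_right.2
    intro y hy
    have hy1 : ‖y‖ < 1 := by simpa using hy
    simp only [Function.mem_support, phi]
    rw [max_eq_left (by linarith)]
    linarith
  rw [this]
  exact measure_ball_pos _ _ one_pos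

theorem Vint_phi_lower {b : ℝ} (hb0 : 0 < b) (hb : b < Module.finrank ℝ E) :
    ∃ c : ℝ, 0 < c ∧ ∀ x ∈ closedBall (0:E) 1,
      c * ‖x‖ ^ 2 ≤ ⟪Vint b (ball (0:E) 1) phi x, x⟫ := by
  set P : ℝ := ∫ y in ball (0:E) 1, phi ‖y‖ with hP
  have hPpos : 0 < P := integral_phi_pos
  set k : ℝ := (2:ℝ) ^ (-(b+1)) with hk
  have hkpos : 0 < k := Real.rpow_pos_of_pos (by norm_num) _
  refine ⟨k * P, by positivity, ?_⟩
  intro x hx
  have hx1 : ‖x‖ ≤ 1 := by simpa using hx
  have hIG := integrable_dlt_smul (E := E) (ψ := kerG b)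
    (fun r => integrableOn_kerG hb0.ne' hb r) x
  have hidI : ∀ r, IntegrableOn (fun z : E => z) (ball (0:E) r) := by
    intro r
    have hc : Continuous (fun z : E => z) := continuous_id
    exact (hc.continuousOn.integrableOn_compact (isCompact_closedBall (0:E) r)).mono_set
      ball_subset_closedBall
  have hIid := integrable_dlt_smul (E := E) (ψ := fun z => z) hidI x
  have hG := conv_phi_eq (E := E) (ψ := kerG b) (fun r => integrableOn_kerG hb0.ne' hb r)
    (kerG_neg b) x
  have hid := conv_phi_eq (E := E) (ψ := fun z => z) hidI (fun z => rfl) x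
  -- the linear kernel
  have hlin : ∫ y in ball (0:E) 1, phi ‖y‖ • (x - y) = P • x := by
    have hfin : IsFiniteMeasure (volume.restrict (ball (0:E) 1)) := ⟨by
      rw [Measure.restrict_apply_univ]; exact measure_ball_lt_top⟩
    have hint : IntegrableOn (fun y : E => phi ‖y‖) (ball (0:E) 1) := by
      apply Integrable.of_bound (C := 1)
      · exact (continuous_phi.comp continuous_norm).aestronglyMeasurable
      · refine Eventually.of_forall fun y => ?_
        rw [Real.norm_of_nonneg (phi_nonneg _)]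
        exact phi_le_one (norm_nonneg _)
    have i1 : IntegrableOn (fun y : E => phi ‖y‖ • x) (ball (0:E) 1) := hint.smul_const x
    have i2 : IntegrableOn (fun y : E => phi ‖y‖ • y) (ball (0:E) 1) := by
      have hc : Continuous (fun y : E => phi ‖y‖ • y) :=
        (continuous_phi.comp continuous_norm).smul continuous_id
      exact (hc.continuousOn.integrableOn_compact (isCompact_closedBall (0:E) 1)).mono_set
        ball_subset_closedBall
    simp only [smul_sub]
    rw [integral_sub i1 i2, integral_smul_const]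
    have hz : ∫ y in ball (0:E) 1, phi ‖y‖ • y = 0 := by
      have e0 : ∫ y in ball (0:E) 1, phi ‖y‖ • y = ∫ y : E, phi ‖y‖ • y := by
        apply setIntegral_eq_integral_of_forall_compl_eq_zero
        intro y hy
        have : 1 ≤ ‖y‖ := by simpa using hy
        rw [phi_eq_zero this, zero_smul]
      rw [e0]
      have h := integral_neg_eq_self (fun y : E => phi ‖y‖ • y) volume
      simp only [norm_neg, smul_neg, integral_neg] at h
      have h2 : (2:ℝ) • ∫ y : E, phi ‖y‖ • y = 0 := by
        rw [two_smul]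
        nth_rewrite 1 [← h]
        simp
      exact (smul_eq_zero.1 h2).resolve_left (by norm_num)
    rw [hz, sub_zero]
  rw [hlin] at hid
  have hpoint : ∀ z : E, 0 ≤ ⟪x, dlt x z • kerG b z⟫ - k * ⟪x, dlt x z • z⟫ := by
    intro z
    rcases eq_or_ne z 0 with rfl | hz
    · simp [kerG_zero]
    rcases le_or_gt 2 ‖z‖ with h2 | h2
    · rw [dlt_eq_zero hx1 h2]; simp
    · have hz0 : 0 < ‖z‖ := norm_pos_iff.2 hz
      have e : ⟪x, dlt x z • kerG b z⟫ - k * ⟪x, dlt x z • z⟫ =
          (‖z‖ ^ (-(b+1)) - k) * (dlt x z * ⟪z, x⟫) := by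
        simp only [kerG, inner_smul_right]
        rw [real_inner_comm x z]
        ring
      rw [e]
      apply mul_nonneg _ (dlt_mul_inner_nonneg x z)
      rw [sub_nonneg, hk]
      exact Real.rpow_le_rpow_of_nonpos hz0 h2.le (by linarith)
  have hint1 : Integrable (fun z => ⟪x, dlt x z • kerG b z⟫) := hIG.const_inner x
  have hint2 : Integrable (fun z => k * ⟪x, dlt x z • z⟫) := (hIid.const_inner x).const_mul k
  have hnn : 0 ≤ ∫ z, (⟪x, dlt x z • kerG b z⟫ - k * ⟪x, dlt x z • z⟫) :=
    integral_nonneg hpoint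
  rw [integral_sub hint1 hint2, integral_const_mul, integral_inner hIG, integral_inner hIid,
    ← hG, ← hid] at hnn
  simp only [inner_smul_right, real_inner_self_eq_norm_sq] at hnn
  have : Vint b (ball (0:E) 1) phi x = ∫ y in ball (0:E) 1, phi ‖y‖ • kerG b (x - y) := rfl
  rw [this, real_inner_comm]
  linarith

end Pool.Agent.H.MP_4eb066_an
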