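import Pool.Agent.H.MP_4eb066_an.WeakGrad

open MeasureTheory Set Metric Filter Topology
open scoped ENNReal NNReal RealInnerProductSpace ContDiff

noncomputable section

set_option linter.unusedSectionVars false

namespace Pool.Agent.H.MP_4eb066_an

variable {E : Type*} [NormedAddCommGroup E] [InnerProductSpace ℝ E]
  [MeasurableSpace E] [BorelSpace E] [FiniteDimensional ℝ E] [Nontrivial E]
variable {F : Type*} [NormedAddCommGroup F] [NormedSpace ℝ F]

theorem integrable_of_bdd_supp {U : E → ℝ} (hU : Measurable U) {C R : ℝ} (hUb : ∀ y, |U y| ≤ C)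
    (hUs : ∀ y, R ≤ ‖y‖ → U y = 0) : Integrable U := by
  have h1 : IntegrableOn U (ball (0:E) R) := by
    have : IsFiniteMeasure (volume.restrict (ball (0:E) R)) := ⟨by
      rw [Measure.restrict_apply_univ]; exact measure_ball_lt_top⟩
    exact Integrable.of_bound hU.aestronglyMeasurable C (Eventually.of_forall hUb)
  refine (integrableOn_iff_integrable_of_support_subset ?_).1 h1
  intro y hy
  rw [mem_ball_zero_iff]
  by_contra h
  exact hy (hUs y (not_lt.1 h))

theorem integrable_prod_kernel {k : E → F} (hk : ∀ r, IntegrableOn k (ball (0:E) r)) {U : E → ℝ}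
    (hU : Measurable U) {C R : ℝ} (hUb : ∀ y, |U y| ≤ C) (hUs : ∀ y, R ≤ ‖y‖ → U y = 0)
    {φ : E → ℝ} (hφ : Measurable φ) {C' R' : ℝ} (hφb : ∀ y, |φ y| ≤ C')
    (hφs : ∀ y, R' ≤ ‖y‖ → φ y = 0) :
    Integrable (fun p : E × E => (U p.2 * φ p.1) • k (p.1 - p.2))
      ((volume : Measure E).prod volume) := by
  have hk' : Integrable ((ball (0:E) (R + R')).indicator k) :=
    (integrable_indicator_iff measurableSet_ball).2 (hk _)
  have hUI := integrable_of_bdd_supp hU hUb hUs
  have h1 := hUI.convolution_integrand (ContinuousLinearMap.lsmul ℝ ℝ) hk'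
  have h2 := h1.bdd_smul (φ := fun p : E × E => φ p.1) C'
    (hφ.comp measurable_fst).aestronglyMeasurable (Eventually.of_forall fun p => hφb _)
  refine h2.congr (Eventually.of_forall fun p => ?_)
  simp only [Pi.smul_apply', ContinuousLinearMap.lsmul_apply]
  rw [smul_smul, mul_comm]
  by_cases h : U p.2 * φ p.1 = 0
  · rw [h, zero_smul, zero_smul]
  · congr 1
    apply indicator_of_mem
    have h3 : U p.2 ≠ 0 := left_ne_zero_of_mul h
    have h4 : φ p.1 ≠ 0 := right_ne_zero_of_mul h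
    have h5 : ‖p.2‖ < R := by
      by_contra hc; exact h3 (hUs _ (not_lt.1 hc))
    have h6 : ‖p.1‖ < R' := by
      by_contra hc; exact h4 (hφs _ (not_lt.1 hc))
    rw [mem_ball_zero_iff]
    calc ‖p.1 - p.2‖ ≤ ‖p.1‖ + ‖p.2‖ := norm_sub_le _ _
      _ < R + R' := by linarith

/-- convolution with a locally integrable kernel is locally integrable -/
theorem locallyIntegrable_conv {k : E → F} (hk : ∀ r, IntegrableOn k (ball (0:E) r)) {U : E → ℝ}
    (hU : Measurable U) {C R : ℝ} (hUb : ∀ y, |U y| ≤ C) (hUs : ∀ y, R ≤ ‖y‖ → U y = 0) :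
    LocallyIntegrable (fun x => ∫ y, U y • k (x - y)) := by
  have hball : ∀ r : ℝ, IntegrableOn (fun x => ∫ y, U y • k (x - y)) (ball (0:E) r) := by
    intro r
    set φ : E → ℝ := (ball (0:E) r).indicator (fun _ => 1) with hφ
    have hφm : Measurable φ := measurable_const.indicator measurableSet_ball
    have h1 := integrable_prod_kernel hk hU hUb hUs (φ := φ) hφm (C' := 1) (R' := r) (by
      intro y; by_cases hy : y ∈ ball (0:E) r <;> simp [hφ, hy]) (by
      intro y hy
      apply indicator_of_notMem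
      simpa using hy)
    have h2 := h1.integral_prod_left
    refine (h2.integrableOn (s := ball (0:E) r)).congr_fun ?_ measurableSet_ball
    intro x hx
    simp only
    have : φ x = 1 := indicator_of_mem hx _
    rw [this]; simp
  rw [locallyIntegrable_iff]
  intro K hK
  obtain ⟨r, hr⟩ := hK.isBounded.subset_ball (0:E)
  exact (hball r).mono_set hr

theorem translated_kernel_weak {a : ℝ} (ha : 0 < a) (ha1 : a + 1 < Module.finrank ℝ E) {ψ : E → ℝ}
    (hψ : ContDiff ℝ ∞ ψ) (hc : HasCompactSupport ψ) (v : E) (y : E) :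
    ∫ x : E, ‖x - y‖ ^ (-a) * fderiv ℝ ψ x v = a * ∫ x : E, ⟪kerG (a + 1) (x - y), v⟫ * ψ x := by
  have h := kernel_weak ha ha1 (ψ := fun z => ψ (z + y)) (by fun_prop) (by
    have := hc.comp_homeomorph (Homeomorph.addRight y)
    exact this) v
  have e1 : ∀ z, fderiv ℝ (fun z => ψ (z + y)) z v = fderiv ℝ ψ (z + y) v := by
    intro z
    rw [fderiv_comp_add_right]
  simp_rw [e1] at h
  have e2 : ∫ x : E, ‖x - y‖ ^ (-a) * fderiv ℝ ψ x v =
      ∫ z : E, ‖z‖ ^ (-a) * fderiv ℝ ψ (z + y) v := by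
    have := integral_add_right_eq_self (μ := (volume : Measure E))
      (fun x : E => ‖x - y‖ ^ (-a) * fderiv ℝ ψ x v) y
    rw [← this]; simp
  have e3 : ∫ x : E, ⟪kerG (a + 1) (x - y), v⟫ * ψ x =
      ∫ z : E, ⟪kerG (a + 1) z, v⟫ * ψ (z + y) := by
    have := integral_add_right_eq_self (μ := (volume : Measure E))
      (fun x : E => ⟪kerG (a + 1) (x - y), v⟫ * ψ x) y
    rw [← this]; simp
  rw [e2, e3, h]

/-- distributional gradient of the potential of a bounded compactly supported function -/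
theorem conv_weak {a : ℝ} (ha : 0 < a) (ha1 : a + 1 < Module.finrank ℝ E) {U : E → ℝ}
    (hU : Measurable U) {C R : ℝ} (hUb : ∀ y, |U y| ≤ C) (hUs : ∀ y, R ≤ ‖y‖ → U y = 0)
    {ψ : E → ℝ} (hψ : ContDiff ℝ ∞ ψ) (hc : HasCompactSupport ψ) (v : E) :
    ∫ x : E, (∫ y, ‖x - y‖ ^ (-a) * U y) * fderiv ℝ ψ x v =
      a * ∫ x : E, ⟪∫ y, U y • kerG (a + 1) (x - y), v⟫ * ψ x := by
  have hfψc : Continuous (fun z => fderiv ℝ ψ z v) :=
    (hψ.continuous_fderiv (by simp)).clm_apply continuous_const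
  have hcf : HasCompactSupport (fun z => fderiv ℝ ψ z v) := hc.fderiv_apply (𝕜 := ℝ) v
  obtain ⟨M1, hM1⟩ := hfψc.bounded_above_of_compact_support hcf
  obtain ⟨M2, hM2⟩ := hψ.continuous.bounded_above_of_compact_support hc
  have hs : ∀ {g : E → ℝ}, HasCompactSupport g → ∃ r : ℝ, ∀ z : E, r ≤ ‖z‖ → g z = 0 := by
    intro g hg
    obtain ⟨R1, hR1⟩ := hg.isBounded.exists_norm_le
    refine ⟨R1 + 1, fun z hz => image_eq_zero_of_notMem_tsupport fun h => ?_⟩
    have := hR1 z h; linarith
  obtain ⟨r1, hr1⟩ := hs hcf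
  obtain ⟨r2, hr2⟩ := hs hc
  have hk1 : ∀ r, IntegrableOn (fun z : E => ‖z‖ ^ (-a)) (ball (0:E) r) := fun r =>
    integrableOn_norm_rpow_ball (by linarith) r
  have hk2 : ∀ r, IntegrableOn (kerG (a + 1) : E → E) (ball (0:E) r) := fun r =>
    integrableOn_kerG (by linarith) ha1 r
  have I1 := integrable_prod_kernel hk1 hU hUb hUs hfψc.measurable hM1 hr1
  have I2 := integrable_prod_kernel hk2 hU hUb hUs hψ.continuous.measurable hM2 hr2
  have I2' : Integrable (fun p : E × E => ⟪(U p.2 * ψ p.1) • kerG (a + 1) (p.1 - p.2), v⟫)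
      ((volume : Measure E).prod volume) := I2.inner_const v
  -- left side
  have L1 : ∫ x : E, (∫ y, ‖x - y‖ ^ (-a) * U y) * fderiv ℝ ψ x v =
      ∫ x : E, ∫ y, (U y * fderiv ℝ ψ x v) • ‖x - y‖ ^ (-a) := by
    congr 1; ext x
    rw [← integral_mul_const]
    congr 1; ext y
    rw [smul_eq_mul]; ring
  have L2 : ∫ x : E, ∫ y, (U y * fderiv ℝ ψ x v) • ‖x - y‖ ^ (-a) =
      ∫ y : E, ∫ x : E, (U y * fderiv ℝ ψ x v) • ‖x - y‖ ^ (-a) := integral_integral_swap I1
  have L3 : ∀ y : E, ∫ x : E, (U y * fderiv ℝ ψ x v) • ‖x - y‖ ^ (-a) =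
      a * ∫ x : E, ⟪(U y * ψ x) • kerG (a + 1) (x - y), v⟫ := by
    intro y
    have h := translated_kernel_weak ha ha1 hψ hc v y
    calc ∫ x : E, (U y * fderiv ℝ ψ x v) • ‖x - y‖ ^ (-a)
        = U y * ∫ x : E, ‖x - y‖ ^ (-a) * fderiv ℝ ψ x v := by
          rw [← integral_const_mul]; congr 1; ext x; rw [smul_eq_mul]; ring
      _ = U y * (a * ∫ x : E, ⟪kerG (a + 1) (x - y), v⟫ * ψ x) := by rw [h]
      _ = a * (U y * ∫ x : E, ⟪kerG (a + 1) (x - y), v⟫ * ψ x) := by ring
      _ = _ := by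
          rw [← integral_const_mul]; congr 2; ext x
          rw [inner_smul_left]; simp; ring
  rw [L1, L2]
  simp_rw [L3]
  rw [integral_const_mul, ← integral_integral_swap I2']
  congr 2; ext x
  have hx : Integrable (fun y => U y • kerG (a + 1) (x - y)) := by
    have hUI := integrable_of_bdd_supp hU hUb hUs
    have h1 : IntegrableOn (fun y => U y • kerG (a + 1) (x - y)) (ball (0:E) R) := by
      have h2 : Integrable ((ball (0:E) (‖x‖ + R)).indicator (kerG (a + 1))) :=
        (integrable_indicator_iff measurableSet_ball).2 (hk2 _)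
      have h3 := h2.comp_sub_left x
      have h4 : IntegrableOn (fun y => kerG (a + 1) (x - y)) (ball (0:E) R) := by
        refine (h3.integrableOn (s := ball (0:E) R)).congr_fun ?_ measurableSet_ball
        intro y hy
        have hy1 : ‖y‖ < R := by simpa using hy
        have hmem : x - y ∈ ball (0:E) (‖x‖ + R) := by
          rw [mem_ball_zero_iff]
          calc ‖x - y‖ ≤ ‖x‖ + ‖y‖ := norm_sub_le _ _
            _ < ‖x‖ + R := by linarith
        exact indicator_of_mem hmem _
      exact Integrable.bdd_smul h4 C hU.aestronglyMeasurable (Eventually.of_forall hUb)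
    refine (integrableOn_iff_integrable_of_support_subset ?_).1 h1
    intro y hy
    rw [mem_ball_zero_iff]
    by_contra h
    apply hy
    simp only [hUs y (not_lt.1 h), zero_smul]
  have e : ⟪∫ y, U y • kerG (a + 1) (x - y), v⟫ = ∫ y, ⟪U y • kerG (a + 1) (x - y), v⟫ := by
    rw [real_inner_comm, ← integral_inner hx]
    congr 1; ext y
    rw [real_inner_comm]
  rw [e, ← integral_mul_const]
  congr 1; ext y
  rw [inner_smul_left, inner_smul_left]
  simp; ring

end Pool.Agent.H.MP_4eb066_an
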