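import Pool.Agent.H.MP_4eb066_an.Kernel

/-! A smooth truncation of the kernel and the double-difference estimate. -/

open MeasureTheory Set Metric Filter Topology
open scoped ENNReal NNReal ContDiff

noncomputable section

namespace Pool.Agent.H.MP_4eb066_an

/-- Smooth radial profile: `0` for `t ≤ δ/4` and `t^{-(b+1)/2}` for `t ≥ δ`. -/
def cutRho (b δ : ℝ) (t : ℝ) : ℝ :=
  Real.smoothTransition ((t - δ / 4) / (3 * δ / 4)) * t ^ (-(b + 1) / 2)

theorem cutRho_contDiff (b : ℝ) {δ : ℝ} (hδ : 0 < δ) : ContDiff ℝ ∞ (cutRho b δ) := by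
  rw [contDiff_iff_contDiffAt]
  intro t
  rcases lt_or_ge t (δ / 4) with ht | ht
  · have h : cutRho b δ =ᶠ[𝓝 t] fun _ => 0 := by
      filter_upwards [Iio_mem_nhds ht] with x hx
      have : (x - δ / 4) / (3 * δ / 4) ≤ 0 := by
        apply div_nonpos_of_nonpos_of_nonneg
        · linarith [mem_Iio.1 hx]
        · positivity
      simp [cutRho, Real.smoothTransition.zero_of_nonpos this]
    exact contDiffAt_const.congr_of_eventuallyEq h
  · have ht0 : t ≠ 0 := by
      have : 0 < t := lt_of_lt_of_le (by positivity) ht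
      exact this.ne'
    unfold cutRho
    apply ContDiffAt.mul
    · exact Real.smoothTransition.contDiffAt.comp t (by fun_prop)
    · exact Real.contDiffAt_rpow_const_of_ne ht0

variable {E : Type*} [NormedAddCommGroup E] [InnerProductSpace ℝ E]

/-- The truncated kernel. -/
def kerC (b ε : ℝ) (z : E) : E := cutRho b (ε ^ 2) (‖z‖ ^ 2) • z

theorem kerC_contDiff (b : ℝ) {ε : ℝ} (hε : 0 < ε) : ContDiff ℝ ∞ (kerC b ε : E → E) := by
  unfold kerC
  exact ((cutRho_contDiff b (by positivity)).comp (contDiff_norm_sq ℝ)).smul contDiff_id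

theorem kerC_neg (b ε : ℝ) (z : E) : kerC b ε (-z) = -kerC b ε z := by
  simp [kerC]

theorem kerC_eq (b ε : ℝ) (z : E) :
    kerC b ε z = Real.smoothTransition ((‖z‖^2 - ε^2 / 4) / (3 * ε^2 / 4)) • kerG b z := by
  have h : (‖z‖^2) ^ (-(b + 1) / 2) = ‖z‖ ^ (-(b+1)) := by
    rw [← Real.rpow_natCast, ← Real.rpow_mul (norm_nonneg _)]
    congr 1; push_cast; ring
  simp only [kerC, cutRho, kerG, h, smul_smul]

theorem norm_kerG_sub_kerC_le (b : ℝ) {ε : ℝ} (hε : 0 < ε) (z : E) :
    ‖kerG b z - kerC b ε z‖ ≤ (ball (0 : E) ε).indicator (fun z => ‖kerG b z‖) z := by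
  rw [kerC_eq]
  set θ := Real.smoothTransition ((‖z‖^2 - ε^2 / 4) / (3 * ε^2 / 4)) with hθ
  have e : kerG b z - θ • kerG b z = (1 - θ) • kerG b z := by rw [sub_smul, one_smul]
  rw [e, norm_smul]
  have h0 : 0 ≤ θ := Real.smoothTransition.nonneg _
  have h1 : θ ≤ 1 := Real.smoothTransition.le_one _
  rcases lt_or_ge ‖z‖ ε with hz | hz
  · rw [indicator_of_mem (by simpa using hz)]
    rw [Real.norm_of_nonneg (by linarith)]
    exact mul_le_of_le_one_left (norm_nonneg _) (by linarith)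
  · have : θ = 1 := by
      apply Real.smoothTransition.one_of_one_le
      rw [le_div_iff₀ (by positivity)]
      have : ε ^ 2 ≤ ‖z‖ ^ 2 := by gcongr
      linarith
    rw [this]
    rw [indicator_of_notMem (by simpa using hz)]
    simp

theorem continuous_kerC (b : ℝ) {ε : ℝ} (hε : 0 < ε) : Continuous (kerC b ε : E → E) :=
  (kerC_contDiff b hε).continuous

/-- Lipschitz bound on the derivative of the truncated kernel on a ball. -/
theorem exists_lip_fderiv_kerC [FiniteDimensional ℝ E] (b : ℝ) {ε : ℝ} (hε : 0 < ε) :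
    ∃ M : ℝ, 0 ≤ M ∧ ∀ z ∈ closedBall (0 : E) 3, ∀ z' ∈ closedBall (0 : E) 3,
      ‖fderiv ℝ (kerC b ε : E → E) z - fderiv ℝ (kerC b ε) z'‖ ≤ M * ‖z - z'‖ := by
  have h1 : ContDiff ℝ 1 (fderiv ℝ (kerC b ε : E → E)) :=
    (kerC_contDiff b hε).fderiv_right (m := 1) (by norm_cast)
  obtain ⟨K, hK⟩ := LocallyLipschitzOn.exists_lipschitzOnWith_of_compact
    (isCompact_closedBall (0 : E) 3) h1.locallyLipschitz.locallyLipschitzOn
  refine ⟨K, K.2, ?_⟩
  intro z hz z' hz'
  have := hK.dist_le_mul z hz z' hz'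
  rwa [dist_eq_norm, dist_eq_norm] at this

/-- Double difference estimate for the truncated kernel. -/
theorem exists_double_diff [FiniteDimensional ℝ E] (b : ℝ) {ε : ℝ} (hε : 0 < ε) :
    ∃ M : ℝ, 0 ≤ M ∧ ∀ x ∈ closedBall (0 : E) 1, ∀ y ∈ closedBall (0 : E) 1,
      ∀ y' ∈ closedBall (0 : E) 1,
      ‖(kerC b ε (x - y) - kerC b ε (-y)) - (kerC b ε (x - y') - kerC b ε (-y'))‖
        ≤ M * ‖x‖ * ‖y - y'‖ := by
  obtain ⟨M, hM0, hM⟩ := exists_lip_fderiv_kerC (E := E) b hε
  refine ⟨M, hM0, ?_⟩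
  intro x hx y hy y' hy'
  have hdiff : Differentiable ℝ (kerC b ε : E → E) :=
    (kerC_contDiff b hε).differentiable (by simp)
  have hconv : Convex ℝ (closedBall (0 : E) 1) := convex_closedBall _ _
  have key := hconv.norm_image_sub_le_of_norm_hasFDerivWithin_le (𝕜 := ℝ)
    (f := fun y : E => kerC b ε (x - y) - kerC b ε (-y))
    (f' := fun y : E => (fderiv ℝ (kerC b ε) (x - y)).comp (-(ContinuousLinearMap.id ℝ E))
      - (fderiv ℝ (kerC b ε) (-y)).comp (-(ContinuousLinearMap.id ℝ E)))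
    (C := M * ‖x‖) (x := y') (y := y) ?_ ?_ hy' hy
  · exact key
  · intro w _
    apply HasFDerivAt.hasFDerivWithinAt
    apply HasFDerivAt.sub
    · have h1 : HasFDerivAt (fun y : E => x - y) (-(ContinuousLinearMap.id ℝ E)) w := by
        simpa using (hasFDerivAt_id w).const_sub x
      exact (hdiff (x - w)).hasFDerivAt.comp w h1
    · have h1 : HasFDerivAt (fun y : E => - y) (-(ContinuousLinearMap.id ℝ E)) w :=
        (hasFDerivAt_id w).neg
      exact (hdiff (-w)).hasFDerivAt.comp w h1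
  · intro w hw
    have e : (fderiv ℝ (kerC b ε) (x - w)).comp (-(ContinuousLinearMap.id ℝ E))
      - (fderiv ℝ (kerC b ε) (-w)).comp (-(ContinuousLinearMap.id ℝ E)) =
      -(fderiv ℝ (kerC b ε) (x - w) - fderiv ℝ (kerC b ε) (-w)) := by
      ext v; simp; abel
    rw [e, norm_neg]
    have hx1 : ‖x‖ ≤ 1 := by simpa using hx
    have hw1 : ‖w‖ ≤ 1 := by simpa using hw
    have h3 := hM (x - w) (by
      simp only [mem_closedBall, dist_zero_right]
      calc ‖x - w‖ ≤ ‖x‖ + ‖w‖ := norm_sub_le _ _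
        _ ≤ 3 := by linarith) (-w) (by
      simp only [mem_closedBall, dist_zero_right, norm_neg]; linarith)
    simpa using h3

end Pool.Agent.H.MP_4eb066_an
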