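import Mathlib

/-! Definitions for the porous medium equation with nonlocal pressure
`u_t = ∇·(u^{m-1} ∇p)`, `p = K_s[u]`, on `ℝ^N`. -/

open MeasureTheory Set
open scoped RealInnerProductSpace ContDiff

noncomputable section

namespace Pool.Agent.H.MP_4eb066_an

/-- Euclidean space `ℝ^N`. -/
abbrev Sp (N : ℕ) : Type := EuclideanSpace ℝ (Fin N)

/-- The constant `c(N,s) = π^{N/2-2s} Γ(s) / Γ((N-2s)/2)`. -/
def rieszConst (N : ℕ) (s : ℝ) : ℝ :=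
  Real.pi ^ ((N : ℝ) / 2 - 2 * s) * Real.Gamma s / Real.Gamma (((N : ℝ) - 2 * s) / 2)

/-- The Riesz kernel `K_s(x) = c(N,s)⁻¹ |x|^{-(N-2s)}`. -/
def rieszKernel (N : ℕ) (s : ℝ) (x : Sp N) : ℝ :=
  (rieszConst N s)⁻¹ * ‖x‖ ^ (-((N : ℝ) - 2 * s))

/-- The Riesz potential `K_s[v] = K_s * v`. -/
def rieszPotential (N : ℕ) (s : ℝ) (v : Sp N → ℝ) (x : Sp N) : ℝ :=
  ∫ y, rieszKernel N s (x - y) * v y

/-- `G` is the distributional gradient of `p` on `ℝ^N`, both being locally integrable. -/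
def IsWeakGradient {N : ℕ} (p : Sp N → ℝ) (G : Sp N → Sp N) : Prop :=
  LocallyIntegrable p ∧ LocallyIntegrable G ∧
    ∀ ψ : Sp N → ℝ, ContDiff ℝ ∞ ψ → HasCompactSupport ψ → ∀ v : Sp N,
      ∫ x, p x * fderiv ℝ ψ x v = - ∫ x, ⟪G x, v⟫ * ψ x

/-- The space-time cylinder `Q_T = (0,T) × ℝ^N`. -/
def cyl (N : ℕ) (T : ℝ) : Set (ℝ × Sp N) := Ioo 0 T ×ˢ univ

/-- Test functions: `φ` is `C¹` on `[0,T) × ℝ^N`, `φ(·,t)` is compactly supported for every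
`t ∈ (0,T)`, and `φ` vanishes near `t = T`. -/
structure IsTestFunction (N : ℕ) (T : ℝ) (φ : ℝ → Sp N → ℝ) : Prop where
  contDiff : ContDiffOn ℝ 1 (fun p : ℝ × Sp N => φ p.1 p.2) (Ico 0 T ×ˢ univ)
  compact : ∀ t ∈ Ioo 0 T, HasCompactSupport (φ t)
  vanish : ∃ T' < T, ∀ t, T' < t → t < T → ∀ x, φ t x = 0

/-- `u ≥ 0` is a weak solution on `Q_T` of `u_t = ∇·(u^{m-1} ∇K_s[u])` with initial datum `u₀`:
(i) `u ∈ L¹(Q_T)`; (ii) `G(t,·) = ∇K_s[u(t,·)]` in the sense of distributions for a.e. `t`, and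
`G ∈ L¹((0,T) × K)` for every compact `K`; (iii) `u^{m-1} G ∈ L¹(Q_T)`; (iv) for every test
function the two space-time integrands are integrable and the weak identity holds. -/
structure IsWeakSolution (N : ℕ) (s m T : ℝ) (u₀ : Sp N → ℝ) (u : ℝ → Sp N → ℝ) : Prop where
  nonneg : ∀ t ∈ Ioo 0 T, ∀ x, 0 ≤ u t x
  integrable : IntegrableOn (fun p : ℝ × Sp N => u p.1 p.2) (cyl N T)
  exists_grad : ∃ G : ℝ → Sp N → Sp N,
    (∀ᵐ t ∂(volume.restrict (Ioo 0 T)), IsWeakGradient (rieszPotential N s (u t)) (G t)) ∧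
    (∀ K : Set (Sp N), IsCompact K →
      IntegrableOn (fun p : ℝ × Sp N => G p.1 p.2) (Ioo 0 T ×ˢ K)) ∧
    IntegrableOn (fun p : ℝ × Sp N => (u p.1 p.2) ^ (m - 1) • G p.1 p.2) (cyl N T) ∧
    ∀ φ : ℝ → Sp N → ℝ, IsTestFunction N T φ →
      IntegrableOn (fun p : ℝ × Sp N => u p.1 p.2 * deriv (fun r => φ r p.2) p.1) (cyl N T) ∧
      IntegrableOn (fun p : ℝ × Sp N =>
        ⟪(u p.1 p.2) ^ (m - 1) • G p.1 p.2, gradient (φ p.1) p.2⟫) (cyl N T) ∧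
      (∫ p in cyl N T, u p.1 p.2 * deriv (fun r => φ r p.2) p.1)
        - (∫ p in cyl N T, ⟪(u p.1 p.2) ^ (m - 1) • G p.1 p.2, gradient (φ p.1) p.2⟫)
        + ∫ x, u₀ x * φ 0 x = 0

/-- Admissible initial data: measurable, nonnegative, bounded, compactly supported and not
a.e. zero. -/
structure IsAdmissibleDatum (N : ℕ) (u₀ : Sp N → ℝ) : Prop where
  measurable : Measurable u₀
  nonneg : ∀ x, 0 ≤ u₀ x
  bounded : ∃ C, ∀ x, u₀ x ≤ C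
  compact : HasCompactSupport u₀
  nonzero : ¬ u₀ =ᵐ[volume] 0

/-- Infinite speed of propagation on `(0,T)`: for every `t ∈ (0,T)` and every `R > 0` the set
`{|x| ≥ R, u(t,x) > 0}` has positive Lebesgue measure. -/
def HasInfiniteSpeed (N : ℕ) (T : ℝ) (u : ℝ → Sp N → ℝ) : Prop :=
  ∀ t ∈ Ioo 0 T, ∀ R > 0, 0 < volume {x : Sp N | R ≤ ‖x‖ ∧ 0 < u t x}

end Pool.Agent.H.MP_4eb066_an
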