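import Pool.Agent.H.MP_4eb066_an.Setup

open MeasureTheory Set Metric Filter Topology
open scoped ENNReal NNReal RealInnerProductSpace

noncomputable section

set_option linter.unusedSectionVars false

namespace Pool.Agent.H.MP_4eb066_an

variable {E : Type*} [NormedAddCommGroup E] [InnerProductSpace ℝ E]
  [MeasurableSpace E] [BorelSpace E] [FiniteDimensional ℝ E] [Nontrivial E]

namespace Setup

variable (S : Setup E)

theorem C_nonneg : 0 ≤ S.C := by
  rw [S.hC]
  have := S.hm0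
  have := S.hW
  apply Real.rpow_nonneg; apply div_nonneg <;> linarith

/-- radial coefficient -/
def w (f : ℝ → ℝ) (r : ℝ) : ℝ := om S.b S.e f r

/-- target profile -/
def g (f : ℝ → ℝ) (r : ℝ) : ℝ := (S.w f r / S.m0) ^ S.q

/-- The class of admissible profiles. -/
structure InK (f : ℝ → ℝ) : Prop where
  meas : Measurable f
  nonneg : ∀ᵐ r ∂(nu E), 0 ≤ f r
  le : ∀ᵐ r ∂(nu E), f r ≤ S.C
  mass : ∀ i : Idx S.n, ∫ r in Ico (al i) (be i), f r ∂(nu E) =
    ∫ r in Ico (al i) (be i), phi r ∂(nu E)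

variable {S}

theorem integrable_of_bdd {f : ℝ → ℝ} (hf : Measurable f) {C : ℝ}
    (h : ∀ᵐ r ∂(nu E), |f r| ≤ C) : Integrable f (nu E) :=
  Integrable.of_bound hf.aestronglyMeasurable C h

theorem integrable_phi : Integrable phi (nu E) := by
  apply integrable_of_bdd continuous_phi.measurable (C := 1)
  filter_upwards [nu_ae_mem E] with r hr
  rw [abs_of_nonneg (phi_nonneg r)]
  exact phi_le_one hr.1.le

theorem InK.abs_le {f : ℝ → ℝ} (hf : S.InK f) : ∀ᵐ r ∂(nu E), |f r| ≤ S.C := by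
  filter_upwards [hf.nonneg, hf.le] with r h1 h2
  rwa [abs_of_nonneg h1]

theorem InK.integrable {f : ℝ → ℝ} (hf : S.InK f) : Integrable f (nu E) :=
  integrable_of_bdd hf.meas hf.abs_le

theorem ball_of_nu {d : ℝ → ℝ} (hd : Measurable d) {C : ℝ} (h : ∀ᵐ r ∂(nu E), |d r| ≤ C) :
    ∀ᵐ y ∂(volume.restrict (ball (0:E) 1)), |d ‖y‖| ≤ C := by
  have hm : MeasurableSet {r : ℝ | |d r| ≤ C} := measurableSet_le hd.norm measurable_const
  exact (ae_nu_iff (E := E) hm).1 h

theorem shell_zero_of_nu {d : ℝ → ℝ} (hd : Measurable d)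
    (h : ∀ i : Idx S.n, ∫ r in Ico (al i) (be i), d r ∂(nu E) = 0) :
    ∀ k, ∀ j < S.n k, ∫ y in shell E (pt S.n k j) (pt S.n k (j+1)), d ‖y‖ = 0 := by
  intro k j hj
  have := h ⟨k, ⟨j, hj⟩⟩
  rw [setIntegral_nu hd (be_le_one S.hn _)] at this
  exact this

/-- linearity of the velocity -/
theorem Vint_sub {b : ℝ} (hb0 : b ≠ 0) (hb : b < Module.finrank ℝ E) {f f' : ℝ → ℝ}
    (hf : Measurable f) (hf' : Measurable f') {C C' : ℝ}
    (h : ∀ᵐ r ∂(nu E), |f r| ≤ C) (h' : ∀ᵐ r ∂(nu E), |f' r| ≤ C') (x : E) :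
    Vint b (ball (0:E) 1) (fun r => f r - f' r) x =
      Vint b (ball (0:E) 1) f x - Vint b (ball (0:E) 1) f' x := by
  unfold Vint
  rw [← integral_sub (integrableOn_Vint hb0 hb Subset.rfl hf (ball_of_nu hf h) x)
    (integrableOn_Vint hb0 hb Subset.rfl hf' (ball_of_nu hf' h') x)]
  congr 1; ext y
  rw [sub_smul]

theorem om_sub {b : ℝ} (hb0 : b ≠ 0) (hb : b < Module.finrank ℝ E) (e : E) {f f' : ℝ → ℝ}
    (hf : Measurable f) (hf' : Measurable f') {C C' : ℝ}
    (h : ∀ᵐ r ∂(nu E), |f r| ≤ C) (h' : ∀ᵐ r ∂(nu E), |f' r| ≤ C') (r : ℝ) :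
    om b e (fun r => f r - f' r) r = om b e f r - om b e f' r := by
  unfold om
  rw [Vint_sub hb0 hb hf hf' h h', inner_sub_left, sub_div]

theorem Vint_congr {b : ℝ} {f f' : ℝ → ℝ} (hf : Measurable f) (hf' : Measurable f')
    (h : f =ᵐ[nu E] f') (x : E) :
    Vint b (ball (0:E) 1) f x = Vint b (ball (0:E) 1) f' x := by
  unfold Vint
  apply integral_congr_ae
  have hm : MeasurableSet {r : ℝ | f r = f' r} := measurableSet_eq_fun hf hf'
  have h2 := (ae_nu_iff (E := E) hm).1 h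
  filter_upwards [h2] with y hy
  rw [hy]

theorem om_congr {b : ℝ} {e : E} {f f' : ℝ → ℝ} (hf : Measurable f) (hf' : Measurable f')
    (h : f =ᵐ[nu E] f') (r : ℝ) : om b e f r = om b e f' r := by
  unfold om; rw [Vint_congr hf hf' h]

theorem InK.w_mem {f : ℝ → ℝ} (hf : S.InK f) {r : ℝ} (hr : r ∈ Ioo (0:ℝ) 1) :
    S.w f r ∈ Icc S.m0 S.W := by
  have hphiM : Measurable phi := continuous_phi.measurable
  have hphiB : ∀ᵐ r ∂(nu E), |phi r| ≤ 1 := by
    filter_upwards [nu_ae_mem E] with r hr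
    rw [abs_of_nonneg (phi_nonneg r)]
    exact phi_le_one hr.1.le
  set d : ℝ → ℝ := fun r => f r - phi r with hd
  have hdM : Measurable d := hf.meas.sub hphiM
  have hdB : ∀ᵐ r ∂(nu E), |d r| ≤ S.C + 1 := by
    filter_upwards [hf.abs_le, hphiB] with r h1 h2
    calc |f r - phi r| ≤ |f r| + |phi r| := abs_sub _ _
      _ ≤ S.C + 1 := add_le_add h1 h2
  have hmass : ∀ i : Idx S.n, ∫ r in Ico (al i) (be i), d r ∂(nu E) = 0 := by
    intro i
    simp only [hd]
    rw [integral_sub hf.integrable.integrableOn integrable_phi.integrableOn, hf.mass i, sub_self]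
  have h1 := (S.sub d hdM (S.C + 1) (ball_of_nu hdM hdB) (shell_zero_of_nu hdM hmass)).1
  have hx : ‖r • S.e‖ = r := by rw [norm_smul, S.he, mul_one, Real.norm_of_nonneg hr.1.le]
  have h2 := h1 (r • S.e) (by rw [mem_closedBall_zero_iff, hx]; exact hr.2.le)
  rw [← om_norm_bound S.b S.he d (r • S.e), hx] at h2
  have h3 : |om S.b S.e d r| ≤ S.η * (S.C + 1) := le_of_mul_le_mul_right h2 hr.1
  have h4 := h3.trans S.hη1
  rw [om_sub S.hb0.ne' S.hb S.e hf.meas hphiM hf.abs_le hphiB] at h4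
  have h5 := S.hphi r hr
  have h4' := _root_.abs_le.1 h4
  constructor
  · change S.m0 ≤ om S.b S.e f r
    linarith [h4'.1, h5.1]
  · change om S.b S.e f r ≤ S.W
    linarith [h4'.2, h5.2]

theorem InK.one_le_g {f : ℝ → ℝ} (hf : S.InK f) {r : ℝ} (hr : r ∈ Ioo (0:ℝ) 1) :
    1 ≤ S.g f r := by
  have h := hf.w_mem hr
  apply Real.one_le_rpow _ S.hq
  rw [one_le_div S.hm0]; exact h.1

theorem InK.g_le {f : ℝ → ℝ} (hf : S.InK f) {r : ℝ} (hr : r ∈ Ioo (0:ℝ) 1) :
    S.g f r ≤ S.C := by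
  have h := hf.w_mem hr
  rw [S.hC]
  have h0 := S.hm0
  apply Real.rpow_le_rpow
  · apply div_nonneg _ S.hm0.le; linarith [h.1]
  · gcongr; exact h.2
  · exact S.hq

theorem measurable_g {f : ℝ → ℝ} (hf : Measurable f) : Measurable (S.g f) := by
  unfold g w
  exact ((measurable_om S.b S.e hf).div_const _).pow_const _

theorem InK.g_abs_le {f : ℝ → ℝ} (hf : S.InK f) : ∀ᵐ r ∂(nu E), |S.g f r| ≤ S.C := by
  filter_upwards [nu_ae_mem E] with r hr
  rw [abs_of_nonneg (zero_le_one.trans (hf.one_le_g hr))]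
  exact hf.g_le hr

theorem InK.integrable_g {f : ℝ → ℝ} (hf : S.InK f) : Integrable (S.g f) (nu E) :=
  integrable_of_bdd (measurable_g hf.meas) hf.g_abs_le

theorem Ico_subset_Ioo (i : Idx S.n) : Ico (al i) (be i) ⊆ Ioo (0:ℝ) 1 := by
  intro r hr
  exact ⟨(al_pos S.hn i).trans_le hr.1, hr.2.trans_le (be_le_one S.hn i)⟩

theorem InK.exists_tau {f : ℝ → ℝ} (hf : S.InK f) (i : Idx S.n) :
    ∃ τ ∈ Icc (al i) (be i), ∫ r in Ico (al i) τ, S.g f r ∂(nu E) =
      ∫ r in Ico (al i) (be i), phi r ∂(nu E) := by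
  apply Pool.Agent.H.MP_4eb066_an.exists_tau hf.integrable_g (al_lt_be S.hn i).le
  · exact integral_nonneg fun r => phi_nonneg r
  · apply setIntegral_mono_on integrable_phi.integrableOn hf.integrable_g.integrableOn
      measurableSet_Ico
    intro r hr
    have hr' := Ico_subset_Ioo (S := S) i hr
    exact (phi_le_one hr'.1.le).trans (hf.one_le_g hr')

variable (S)

open Classical in
/-- the sub-shell end point -/
def tau (f : ℝ → ℝ) (i : Idx S.n) : ℝ :=
  if h : ∃ τ ∈ Icc (al i) (be i), ∫ r in Ico (al i) τ, S.g f r ∂(nu E) =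
      ∫ r in Ico (al i) (be i), phi r ∂(nu E) then h.choose else al i

/-- the support set of the new profile -/
def supp (f : ℝ → ℝ) : Set ℝ := ⋃ i : Idx S.n, Ico (al i) (S.tau f i)

/-- the new profile -/
def T (f : ℝ → ℝ) : ℝ → ℝ := (S.supp f).indicator (S.g f)

variable {S}

theorem InK.tau_mem {f : ℝ → ℝ} (hf : S.InK f) (i : Idx S.n) :
    S.tau f i ∈ Icc (al i) (be i) := by
  unfold tau
  rw [dif_pos (hf.exists_tau i)]
  exact (hf.exists_tau i).choose_spec.1

theorem InK.tau_mass {f : ℝ → ℝ} (hf : S.InK f) (i : Idx S.n) :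
    ∫ r in Ico (al i) (S.tau f i), S.g f r ∂(nu E) =
      ∫ r in Ico (al i) (be i), phi r ∂(nu E) := by
  unfold tau
  rw [dif_pos (hf.exists_tau i)]
  exact (hf.exists_tau i).choose_spec.2

theorem measurableSet_supp (f : ℝ → ℝ) : MeasurableSet (S.supp f) :=
  MeasurableSet.iUnion fun _ => measurableSet_Ico

theorem measurable_T {f : ℝ → ℝ} (hf : Measurable f) : Measurable (S.T f) :=
  (measurable_g hf).indicator (measurableSet_supp f)

theorem InK.T_on_shell {f : ℝ → ℝ} (hf : S.InK f) (i : Idx S.n) {r : ℝ}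
    (hr : r ∈ Ico (al i) (be i)) : S.T f r = (Ico (al i) (S.tau f i)).indicator (S.g f) r := by
  unfold T
  by_cases h : r ∈ Ico (al i) (S.tau f i)
  · rw [indicator_of_mem h, indicator_of_mem]
    exact mem_iUnion.2 ⟨i, h⟩
  · rw [indicator_of_notMem h, indicator_of_notMem]
    intro h2
    obtain ⟨j, hj⟩ := mem_iUnion.1 h2
    rcases eq_or_ne j i with hji | hji
    · subst hji; exact h hj
    · have h3 : r ∈ Ico (al j) (be j) := ⟨hj.1, hj.2.trans_le (hf.tau_mem j).2⟩
      exact (Set.disjoint_left.1 (pairwise_Idx S.hn hji)) h3 hr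

theorem InK.T_inK {f : ℝ → ℝ} (hf : S.InK f) : S.InK (S.T f) where
  meas := measurable_T hf.meas
  nonneg := by
    filter_upwards [nu_ae_mem E] with r hr
    unfold T
    by_cases h : r ∈ S.supp f
    · rw [indicator_of_mem h]; exact zero_le_one.trans (hf.one_le_g hr)
    · rw [indicator_of_notMem h]
  le := by
    filter_upwards [nu_ae_mem E] with r hr
    unfold T
    by_cases h : r ∈ S.supp f
    · rw [indicator_of_mem h]; exact hf.g_le hr
    · rw [indicator_of_notMem h]; exact S.C_nonneg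
  mass := by
    intro i
    rw [setIntegral_congr_fun measurableSet_Ico (fun r hr => hf.T_on_shell i hr),
      setIntegral_indicator measurableSet_Ico,
      inter_eq_right.2 (Ico_subset_Ico_right (hf.tau_mem i).2), hf.tau_mass i]

end Setup

end Pool.Agent.H.MP_4eb066_an
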