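import Pool.Agent.H.MP_4eb066_an.Fix

open MeasureTheory Set Metric Filter Topology
open scoped ENNReal NNReal RealInnerProductSpace

noncomputable section

set_option linter.unusedSectionVars false

namespace Pool.Agent.H.MP_4eb066_an

variable {E : Type*} [NormedAddCommGroup E] [InnerProductSpace ℝ E]
  [MeasurableSpace E] [BorelSpace E] [FiniteDimensional ℝ E] [Nontrivial E]

namespace Setup

variable {S : Setup E}

theorem ae_iUnion : (⋃ i : Idx S.n, Ico (al i) (be i)) =ᵐ[nu E] (univ : Set ℝ) := by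
  rw [iUnion_Idx S.hn]
  have := nu_ae_mem E
  exact eventuallyEq_univ.2 this

/-- `∫ |w f - w f'| ≤ η ∫ |f - f'|`. -/
theorem InK.lintegral_w_sub {f f' : ℝ → ℝ} (hf : S.InK f) (hf' : S.InK f') :
    ∫⁻ r, ‖S.w f r - S.w f' r‖ₑ ∂(nu E) ≤
      ENNReal.ofReal S.η * ∫⁻ r, ‖f r - f' r‖ₑ ∂(nu E) := by
  set d : ℝ → ℝ := fun r => f r - f' r with hd
  have hdM : Measurable d := hf.meas.sub hf'.meas
  have hdB : ∀ᵐ r ∂(nu E), |d r| ≤ S.C + S.C := by
    filter_upwards [hf.abs_le, hf'.abs_le] with r h1 h2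
    calc |f r - f' r| ≤ |f r| + |f' r| := abs_sub _ _
      _ ≤ S.C + S.C := add_le_add h1 h2
  have hmass : ∀ i : Idx S.n, ∫ r in Ico (al i) (be i), d r ∂(nu E) = 0 := by
    intro i
    simp only [hd]
    rw [integral_sub hf.integrable.integrableOn hf'.integrable.integrableOn, hf.mass i,
      hf'.mass i, sub_self]
  have h1 := (S.sub d hdM (S.C + S.C) (ball_of_nu hdM hdB) (shell_zero_of_nu hdM hmass)).2
  rw [← lintegral_om S.he hdM, ← lintegral_nu (g := fun r => ‖d r‖ₑ) hdM.enorm] at h1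
  refine le_trans (le_of_eq ?_) h1
  congr 1; ext r
  rw [om_sub S.hb0.ne' S.hb S.e hf.meas hf'.meas hf.abs_le hf'.abs_le]
  rfl

theorem InK.lintegral_g_sub {f f' : ℝ → ℝ} (hf : S.InK f) (hf' : S.InK f') :
    ∫⁻ r, ‖S.g f r - S.g f' r‖ₑ ∂(nu E) ≤
      ENNReal.ofReal (S.L * S.η) * ∫⁻ r, ‖f r - f' r‖ₑ ∂(nu E) := by
  calc ∫⁻ r, ‖S.g f r - S.g f' r‖ₑ ∂(nu E)
      ≤ ∫⁻ r, ENNReal.ofReal S.L * ‖S.w f r - S.w f' r‖ₑ ∂(nu E) := by
        apply lintegral_mono_ae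
        filter_upwards [nu_ae_mem E] with r hr
        have h := S.hL _ (hf.w_mem hr) _ (hf'.w_mem hr)
        rw [← ofReal_norm, ← ofReal_norm, ← ENNReal.ofReal_mul S.hL0, Real.norm_eq_abs,
          Real.norm_eq_abs]
        exact ENNReal.ofReal_le_ofReal h
    _ = ENNReal.ofReal S.L * ∫⁻ r, ‖S.w f r - S.w f' r‖ₑ ∂(nu E) := by
        rw [lintegral_const_mul]
        exact ((measurable_om S.b S.e hf.meas).sub (measurable_om S.b S.e hf'.meas)).enorm
    _ ≤ ENNReal.ofReal S.L * (ENNReal.ofReal S.η * ∫⁻ r, ‖f r - f' r‖ₑ ∂(nu E)) := by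
        gcongr; exact hf.lintegral_w_sub hf'
    _ = _ := by rw [← mul_assoc, ← ENNReal.ofReal_mul S.hL0]

theorem InK.lintegral_T_sub_shell {f f' : ℝ → ℝ} (hf : S.InK f) (hf' : S.InK f')
    (i : Idx S.n) :
    ∫⁻ r in Ico (al i) (be i), ‖S.T f r - S.T f' r‖ₑ ∂(nu E) ≤
      2 * ∫⁻ r in Ico (al i) (be i), ‖S.g f r - S.g f' r‖ₑ ∂(nu E) := by
  have hpos : ∀ {f : ℝ → ℝ}, S.InK f → ∀ r ∈ Ico (al i) (be i), 0 ≤ S.g f r := fun hf r hr =>
    zero_le_one.trans (hf.one_le_g (Ico_subset_Ioo i hr))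
  have key := shell_compare hf.integrable_g hf'.integrable_g (hf.tau_mem i) (hf'.tau_mem i)
    (hpos hf) (hpos hf') (hf.tau_mass i) (hf'.tau_mass i)
  have e1 : ∫⁻ r in Ico (al i) (be i), ‖S.T f r - S.T f' r‖ₑ ∂(nu E) =
      ENNReal.ofReal (∫ r in Ico (al i) (be i), |(Ico (al i) (S.tau f i)).indicator (S.g f) r -
        (Ico (al i) (S.tau f' i)).indicator (S.g f') r| ∂(nu E)) := by
    have hint : Integrable (fun r => (Ico (al i) (S.tau f i)).indicator (S.g f) r -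
        (Ico (al i) (S.tau f' i)).indicator (S.g f') r)
        ((nu E).restrict (Ico (al i) (be i))) :=
      ((hf.integrable_g.indicator measurableSet_Ico).sub
        (hf'.integrable_g.indicator measurableSet_Ico)).restrict
    have := ofReal_integral_norm_eq_lintegral_enorm hint
    simp only [Real.norm_eq_abs] at this
    rw [this]
    apply setLIntegral_congr_fun measurableSet_Ico
    intro r hr
    simp only
    rw [hf.T_on_shell i hr, hf'.T_on_shell i hr]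
  have e2 : ∫⁻ r in Ico (al i) (be i), ‖S.g f r - S.g f' r‖ₑ ∂(nu E) =
      ENNReal.ofReal (∫ r in Ico (al i) (be i), |S.g f r - S.g f' r| ∂(nu E)) := by
    have hint : Integrable (fun r => S.g f r - S.g f' r)
        ((nu E).restrict (Ico (al i) (be i))) := (hf.integrable_g.sub hf'.integrable_g).restrict
    have := ofReal_integral_norm_eq_lintegral_enorm hint
    simp only [Real.norm_eq_abs] at this
    rw [this]
  rw [e1, e2]
  have : (2:ℝ≥0∞) = ENNReal.ofReal 2 := by simp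
  rw [this, ← ENNReal.ofReal_mul (by norm_num)]
  exact ENNReal.ofReal_le_ofReal key

theorem InK.lintegral_T_sub {f f' : ℝ → ℝ} (hf : S.InK f) (hf' : S.InK f') :
    ∫⁻ r, ‖S.T f r - S.T f' r‖ₑ ∂(nu E) ≤
      ENNReal.ofReal (1 / 2) * ∫⁻ r, ‖f r - f' r‖ₑ ∂(nu E) := by
  have hdec : ∀ F : ℝ → ℝ≥0∞, ∫⁻ r, F r ∂(nu E) =
      ∑' i : Idx S.n, ∫⁻ r in Ico (al i) (be i), F r ∂(nu E) := by
    intro F
    rw [← lintegral_iUnion (fun i => measurableSet_Ico) (pairwise_Idx S.hn),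
      setLIntegral_congr (ae_iUnion (S := S)), setLIntegral_univ]
  rw [hdec]
  calc ∑' i : Idx S.n, ∫⁻ r in Ico (al i) (be i), ‖S.T f r - S.T f' r‖ₑ ∂(nu E)
      ≤ ∑' i : Idx S.n, 2 * ∫⁻ r in Ico (al i) (be i), ‖S.g f r - S.g f' r‖ₑ ∂(nu E) :=
        ENNReal.tsum_le_tsum fun i => hf.lintegral_T_sub_shell hf' i
    _ = 2 * ∫⁻ r, ‖S.g f r - S.g f' r‖ₑ ∂(nu E) := by
        rw [ENNReal.tsum_mul_left, ← hdec]
    _ ≤ 2 * (ENNReal.ofReal (S.L * S.η) * ∫⁻ r, ‖f r - f' r‖ₑ ∂(nu E)) := by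
        gcongr; exact hf.lintegral_g_sub hf'
    _ = ENNReal.ofReal (2 * (S.L * S.η)) * ∫⁻ r, ‖f r - f' r‖ₑ ∂(nu E) := by
        rw [← mul_assoc, ENNReal.ofReal_mul (by norm_num : (0:ℝ) ≤ 2)]
        simp
    _ ≤ _ := by
        gcongr; exact S.hLη

/-! ### The fixed point in `L¹` -/

/-- the closed class in `L¹`. -/
def KL (S : Setup E) : Set (Lp ℝ 1 (nu E)) :=
  {f | (0 ≤ f) ∧ (f ≤ Lp.const 1 (nu E) S.C) ∧
    ∀ i : Idx S.n, ∫ r in Ico (al i) (be i), f r ∂(nu E) =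
      ∫ r in Ico (al i) (be i), phi r ∂(nu E)}

theorem isClosed_KL : IsClosed (KL S) := by
  have e : KL S = (Ici (0 : Lp ℝ 1 (nu E)) ∩ Iic (Lp.const 1 (nu E) S.C)) ∩
      ⋂ i : Idx S.n, {a : Lp ℝ 1 (nu E) | ∫ r in Ico (al i) (be i), a r ∂(nu E) =
      ∫ r in Ico (al i) (be i), phi r ∂(nu E)} := by
    ext a
    simp only [KL, mem_setOf_eq, mem_inter_iff, mem_Ici, mem_Iic, mem_iInter]
    tauto
  rw [e]
  apply IsClosed.inter (IsClosed.inter isClosed_Ici isClosed_Iic)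
  apply isClosed_iInter
  intro i
  exact isClosed_eq (continuous_setIntegral _) continuous_const

theorem mem_KL_iff {f : Lp ℝ 1 (nu E)} : f ∈ KL S ↔ S.InK (f : ℝ → ℝ) := by
  constructor
  · rintro ⟨h1, h2, h3⟩
    refine ⟨(Lp.stronglyMeasurable f).measurable, ?_, ?_, h3⟩
    · exact (Lp.coeFn_nonneg f).2 h1
    · have := (Lp.coeFn_le _ _).2 h2
      filter_upwards [this, Lp.coeFn_const (p := 1) (μ := nu E) S.C] with r h4 h5
      rw [h5] at h4; exact h4
  · intro h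
    refine ⟨(Lp.coeFn_nonneg f).1 h.nonneg, ?_, h.mass⟩
    apply (Lp.coeFn_le _ _).1
    filter_upwards [h.le, Lp.coeFn_const (p := 1) (μ := nu E) S.C] with r h4 h5
    rw [h5]; exact h4

theorem InK.congr {f f' : ℝ → ℝ} (hf : S.InK f) (hm : Measurable f') (h : f =ᵐ[nu E] f') :
    S.InK f' where
  meas := hm
  nonneg := by filter_upwards [hf.nonneg, h] with r h1 h2; rwa [← h2]
  le := by filter_upwards [hf.le, h] with r h1 h2; rwa [← h2]
  mass := by
    intro i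
    rw [← hf.mass i]
    exact integral_congr_ae (ae_restrict_of_ae h.symm)

theorem InK.memLp {f : ℝ → ℝ} (hf : S.InK f) : MemLp f 1 (nu E) :=
  memLp_one_iff_integrable.2 hf.integrable

open Classical in
/-- the map on `L¹`. -/
def TL (S : Setup E) (f : Lp ℝ 1 (nu E)) : Lp ℝ 1 (nu E) :=
  if h : f ∈ KL S then (((mem_KL_iff.1 h).T_inK).memLp).toLp _ else f

theorem TL_coe {f : Lp ℝ 1 (nu E)} (h : f ∈ KL S) : (TL S f : ℝ → ℝ) =ᵐ[nu E] S.T f := by
  unfold TL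
  rw [dif_pos h]
  exact MemLp.coeFn_toLp _

theorem TL_mem {f : Lp ℝ 1 (nu E)} (h : f ∈ KL S) : TL S f ∈ KL S := by
  apply mem_KL_iff.2
  exact ((mem_KL_iff.1 h).T_inK).congr (Lp.stronglyMeasurable _).measurable (TL_coe h).symm

theorem TL_lip {f f' : Lp ℝ 1 (nu E)} (h : f ∈ KL S) (h' : f' ∈ KL S) :
    edist (TL S f) (TL S f') ≤ ENNReal.ofReal (1 / 2) * edist f f' := by
  rw [Lp.edist_def, Lp.edist_def, eLpNorm_one_eq_lintegral_enorm, eLpNorm_one_eq_lintegral_enorm]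
  have e : ∫⁻ r, ‖(⇑(TL S f) - ⇑(TL S f')) r‖ₑ ∂(nu E) =
      ∫⁻ r, ‖S.T f r - S.T f' r‖ₑ ∂(nu E) := by
    apply lintegral_congr_ae
    filter_upwards [TL_coe h, TL_coe h'] with r h1 h2
    rw [Pi.sub_apply, h1, h2]
  rw [e]
  exact (mem_KL_iff.1 h).lintegral_T_sub (mem_KL_iff.1 h')

theorem phi_inK : S.InK phi where
  meas := continuous_phi.measurable
  nonneg := Eventually.of_forall phi_nonneg
  le := by
    have h1 : 1 ≤ S.C := by
      rw [S.hC]
      apply Real.one_le_rpow _ S.hq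
      rw [one_le_div S.hm0]; exact S.hW
    filter_upwards [nu_ae_mem E] with r hr
    exact (phi_le_one hr.1.le).trans h1
  mass := fun i => rfl

theorem exists_fixed (S : Setup E) : ∃ f : Lp ℝ 1 (nu E), f ∈ KL S ∧ TL S f = f := by
  have hc : IsComplete (KL S) := isClosed_KL.isComplete
  have hmaps : MapsTo (TL S) (KL S) (KL S) := fun f hf => TL_mem hf
  have hcontr : ContractingWith (1/2 : ℝ≥0) (hmaps.restrict (TL S) (KL S) (KL S)) := by
    constructor
    · rw [← NNReal.coe_lt_coe]; norm_num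
    · rintro ⟨f, hf⟩ ⟨f', hf'⟩
      have := TL_lip hf hf'
      have e : ENNReal.ofReal (1/2) = ((1/2 : ℝ≥0) : ℝ≥0∞) := by
        rw [ENNReal.ofReal]
        congr 1
        rw [← NNReal.coe_inj]
        simp
      rw [e] at this
      exact this
  have hx : (phi_inK (S := S)).memLp.toLp phi ∈ KL S := by
    apply mem_KL_iff.2
    exact (phi_inK (S := S)).congr (Lp.stronglyMeasurable _).measurable
      (MemLp.coeFn_toLp _).symm
  obtain ⟨y, hy, hfix, _⟩ := ContractingWith.exists_fixedPoint' hc hmaps hcontr hx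
    (edist_ne_top _ _)
  exact ⟨y, hy, hfix⟩

end Setup

end Pool.Agent.H.MP_4eb066_an
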