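import Pool.Agent.H.MP_4eb066_an.Annulus2

open MeasureTheory Set Metric Filter Topology
open scoped ENNReal NNReal

noncomputable section

namespace Pool.Agent.H.MP_4eb066_an

variable {E : Type*} [NormedAddCommGroup E] [InnerProductSpace ℝ E]
  [MeasurableSpace E] [BorelSpace E] [FiniteDimensional ℝ E] [Nontrivial E]

theorem measurable_Vint (b : ℝ) (A : Set E) {d : ℝ → ℝ} (hd : Measurable d) :
    Measurable (Vint b A d) := by
  have h : StronglyMeasurable (fun p : E × E => d ‖p.2‖ • kerG b (p.1 - p.2)) := by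
    apply Measurable.stronglyMeasurable
    exact (hd.comp (measurable_norm.comp measurable_snd)).smul
      ((measurable_kerG b).comp (measurable_fst.sub measurable_snd))
  exact (h.integral_prod_right (ν := volume.restrict A)).measurable

omit [MeasurableSpace E] [BorelSpace E] [FiniteDimensional ℝ E] [InnerProductSpace ℝ E]
  [Nontrivial E] in
/-- dyadic annuli fill the punctured ball -/
theorem iUnion_dyadic_shell : ⋃ k : ℕ, shell E ((1/2:ℝ)^(k+1)) ((1/2:ℝ)^k) = ball (0:E) 1 \ {0} := by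
  ext y
  simp only [mem_iUnion, shell, mem_setOf_eq, mem_Ico, mem_diff, mem_ball_zero_iff,
    mem_singleton_iff]
  constructor
  · rintro ⟨k, h1, h2⟩
    refine ⟨lt_of_lt_of_le h2 (pow_le_one₀ (by norm_num) (by norm_num)), ?_⟩
    rintro rfl
    have : (0:ℝ) < (1/2:ℝ)^(k+1) := by positivity
    rw [norm_zero] at h1
    linarith
  · rintro ⟨h1, h2⟩
    have hy : 0 < ‖y‖ := norm_pos_iff.2 h2
    obtain ⟨n, hn1, hn2⟩ := exists_nat_pow_near_of_lt_one hy h1.le (y := (1/2:ℝ)) (by norm_num)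
      (by norm_num)
    rcases eq_or_lt_of_le hn2 with h | h
    · cases n with
      | zero => simp at h; linarith
      | succ m => exact ⟨m, by rw [h], by
          rw [h]; exact pow_lt_pow_right_of_lt_one₀ (by norm_num) (by norm_num) (by omega)⟩
    · exact ⟨n, hn1.le, h⟩

omit [MeasurableSpace E] [BorelSpace E] [FiniteDimensional ℝ E] [InnerProductSpace ℝ E]
  [Nontrivial E] in
theorem dyadic_shell_pairwise : Pairwise (Function.onFun Disjoint
    (fun k : ℕ => shell E ((1/2:ℝ)^(k+1)) ((1/2:ℝ)^k))) := by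
  have key : ∀ i j : ℕ, i < j → Disjoint (shell E ((1/2:ℝ)^(i+1)) ((1/2:ℝ)^i))
      (shell E ((1/2:ℝ)^(j+1)) ((1/2:ℝ)^j)) := by
    intro i j hij
    rw [Set.disjoint_left]
    rintro y ⟨h1, _⟩ ⟨_, h2⟩
    have : (1/2:ℝ)^j ≤ (1/2:ℝ)^(i+1) := pow_le_pow_of_le_one (by norm_num) (by norm_num) hij
    linarith
  intro i j hij
  rcases lt_or_gt_of_ne hij with h | h
  · exact key i j h
  · exact (key j i h).symm

/-- The dyadic-annulus subdivision makes the velocity of a radial function with zero shell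
masses uniformly small. -/
theorem exists_subdivision {b : ℝ} (hb0 : 0 < b) (hb : b < Module.finrank ℝ E) {η : ℝ}
    (hη : 0 < η) :
    ∃ n : ℕ → ℕ, (∀ k, 0 < n k) ∧ ∀ d : ℝ → ℝ, Measurable d → ∀ C : ℝ,
      (∀ᵐ y ∂(volume.restrict (ball (0:E) 1)), |d ‖y‖| ≤ C) →
      (∀ k, ∀ j < n k, ∫ y in shell E ((1/2:ℝ)^(k+1) + ((1/2:ℝ)^k - (1/2:ℝ)^(k+1)) * (j / n k))
        ((1/2:ℝ)^(k+1) + ((1/2:ℝ)^k - (1/2:ℝ)^(k+1)) * ((j + 1 : ℕ) / n k)), d ‖y‖ = 0) →
      (∀ x ∈ closedBall (0:E) 1, ‖Vint b (ball (0:E) 1) d x‖ ≤ η * C * ‖x‖) ∧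
      (∫⁻ x in ball (0:E) 1, ‖x‖ₑ⁻¹ * ‖Vint b (ball (0:E) 1) d x‖ₑ ≤
        ENNReal.ofReal η * ∫⁻ y in ball (0:E) 1, ‖d ‖y‖‖ₑ) := by
  have hex : ∀ k : ℕ, ∃ n : ℕ, 0 < n ∧ ∀ d : ℝ → ℝ, Measurable d → ∀ C : ℝ,
      (∀ᵐ y ∂(volume.restrict (ball (0:E) 1)), |d ‖y‖| ≤ C) →
      (∀ j < n, ∫ y in shell E ((1/2:ℝ)^(k+1) + ((1/2:ℝ)^k - (1/2:ℝ)^(k+1)) * (j / n))
        ((1/2:ℝ)^(k+1) + ((1/2:ℝ)^k - (1/2:ℝ)^(k+1)) * ((j + 1 : ℕ) / n)), d ‖y‖ = 0) →
      (∀ x ∈ closedBall (0:E) 1,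
        ‖Vint b (shell E ((1/2:ℝ)^(k+1)) ((1/2:ℝ)^k)) d x‖ ≤ (η * (1/2)^(k+1)) * C * ‖x‖) ∧
      (∫⁻ x in ball (0:E) 1, ‖x‖ₑ⁻¹ * ‖Vint b (shell E ((1/2:ℝ)^(k+1)) ((1/2:ℝ)^k)) d x‖ₑ ≤
        ENNReal.ofReal (η * (1/2)^(k+1)) * ∫⁻ y in shell E ((1/2:ℝ)^(k+1)) ((1/2:ℝ)^k),
          ‖d ‖y‖‖ₑ) := by
    intro k
    exact annulus_estimate (E := E) hb0 hb (by positivity)
      (pow_le_pow_of_le_one (by norm_num) (by norm_num) (Nat.le_succ k))
      (pow_le_one₀ (by norm_num) (by norm_num)) (by positivity)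
  choose n hn hn2 using hex
  refine ⟨n, hn, ?_⟩
  intro d hd C hC hmass
  have hk := fun k => hn2 k d hd C hC (hmass k)
  set S : ℕ → Set E := fun k => shell E ((1/2:ℝ)^(k+1)) ((1/2:ℝ)^k) with hS
  have hSm : ∀ k, MeasurableSet (S k) := fun k => measurableSet_shell _ _
  have hSd : Pairwise (Function.onFun Disjoint S) := dyadic_shell_pairwise
  have hSU : ⋃ k, S k = ball (0:E) 1 \ {0} := iUnion_dyadic_shell
  have hae : (⋃ k, S k : Set E) =ᵐ[volume] ball (0:E) 1 := by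
    rw [hSU]
    exact sdiff_null_ae_eq_self (measure_singleton _)
  have hsum : ∀ x : E, HasSum (fun k => Vint b (S k) d x) (Vint b (ball (0:E) 1) d x) := by
    intro x
    have h1 : IntegrableOn (fun y => d ‖y‖ • kerG b (x - y)) (⋃ k, S k) := by
      rw [hSU]
      exact integrableOn_Vint hb0.ne' hb sdiff_subset hd hC x
    have h2 := hasSum_integral_iUnion hSm hSd h1
    rw [setIntegral_congr_set hae] at h2
    exact h2
  have hgeo : HasSum (fun k : ℕ => (1/2:ℝ)^(k+1)) 1 := by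
    have h := (hasSum_geometric_two).mul_left (1/2:ℝ)
    have e : (fun k : ℕ => (1/2:ℝ)^(k+1)) = fun k : ℕ => (1/2:ℝ) * (1/2)^k := by
      ext k; rw [pow_succ]; ring
    rw [e]
    have e2 : (1/2:ℝ) * 2 = 1 := by norm_num
    rw [e2] at h
    exact h
  constructor
  · intro x hx
    rw [← (hsum x).tsum_eq]
    have hg : HasSum (fun k : ℕ => (η * (1/2)^(k+1)) * C * ‖x‖) (η * C * ‖x‖) := by
      have h := (hgeo.mul_left (η * C * ‖x‖))
      have e : (fun k : ℕ => (η * (1/2)^(k+1)) * C * ‖x‖) =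
          fun k : ℕ => η * C * ‖x‖ * (1/2:ℝ)^(k+1) := by
        ext k; ring
      rw [e]
      rw [mul_one] at h
      exact h
    exact tsum_of_norm_bounded hg (fun k => (hk k).1 x hx)
  · have hle : ∀ x ∈ ball (0:E) 1, ‖x‖ₑ⁻¹ * ‖Vint b (ball (0:E) 1) d x‖ₑ ≤
        ∑' k, ‖x‖ₑ⁻¹ * ‖Vint b (S k) d x‖ₑ := by
      intro x _
      rw [ENNReal.tsum_mul_left]
      gcongr
      rw [← (hsum x).tsum_eq]
      exact enorm_tsum_le_tsum_enorm
    calc ∫⁻ x in ball (0:E) 1, ‖x‖ₑ⁻¹ * ‖Vint b (ball (0:E) 1) d x‖ₑ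
        ≤ ∫⁻ x in ball (0:E) 1, ∑' k, ‖x‖ₑ⁻¹ * ‖Vint b (S k) d x‖ₑ :=
          setLIntegral_mono' measurableSet_ball hle
      _ = ∑' k, ∫⁻ x in ball (0:E) 1, ‖x‖ₑ⁻¹ * ‖Vint b (S k) d x‖ₑ := by
          apply lintegral_tsum
          intro k
          exact (measurable_enorm.inv.mul (measurable_Vint b _ hd).enorm).aemeasurable
      _ ≤ ∑' k, ENNReal.ofReal η * ∫⁻ y in S k, ‖d ‖y‖‖ₑ := by
          apply ENNReal.tsum_le_tsum
          intro k
          refine (hk k).2.trans ?_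
          gcongr
          have : (1/2:ℝ)^(k+1) ≤ 1 := pow_le_one₀ (by norm_num) (by norm_num)
          nlinarith
      _ = ENNReal.ofReal η * ∫⁻ y in ⋃ k, S k, ‖d ‖y‖‖ₑ := by
          rw [ENNReal.tsum_mul_left, lintegral_iUnion hSm hSd]
      _ = ENNReal.ofReal η * ∫⁻ y in ball (0:E) 1, ‖d ‖y‖‖ₑ := by
          rw [setLIntegral_congr hae]

end Pool.Agent.H.MP_4eb066_an
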