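import Mathlib

/-! Kernel facts for the nonlocal-pressure porous medium equation. -/

open MeasureTheory Set Metric Filter Topology
open scoped ENNReal NNReal

noncomputable section

namespace Pool.Agent.H.MP_4eb066_an

variable {E : Type*} [NormedAddCommGroup E] [InnerProductSpace ℝ E]

/-- The vector kernel `z ↦ |z|^{-(b+1)} z`, of size `|z|^{-b}`. -/
def kerG (b : ℝ) (z : E) : E := (‖z‖ ^ (-(b + 1))) • z

theorem kerG_zero (b : ℝ) : kerG b (0 : E) = 0 := by simp [kerG]

theorem norm_kerG {b : ℝ} (hb : b ≠ 0) (z : E) : ‖kerG b z‖ = ‖z‖ ^ (-b) := by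
  rcases eq_or_ne z 0 with rfl | hz
  · simp [kerG, Real.zero_rpow (neg_ne_zero.2 hb)]
  · have h : 0 < ‖z‖ := norm_pos_iff.2 hz
    rw [kerG, norm_smul, Real.norm_of_nonneg (Real.rpow_nonneg h.le _)]
    nth_rewrite 2 [← Real.rpow_one ‖z‖]
    rw [← Real.rpow_add h]
    congr 1
    ring

theorem kerG_neg (b : ℝ) (z : E) : kerG b (-z) = -kerG b z := by
  simp [kerG]

theorem kerG_isom (b : ℝ) (R : E ≃ₗᵢ[ℝ] E) (z : E) : kerG b (R z) = R (kerG b z) := by
  simp [kerG]

theorem kerG_smul (b : ℝ) {t : ℝ} (ht : 0 < t) (z : E) :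
    kerG b (t • z) = t ^ (-b) • kerG b z := by
  rw [kerG, kerG, norm_smul, Real.norm_of_nonneg ht.le, Real.mul_rpow ht.le (norm_nonneg _),
    smul_smul, smul_smul]
  congr 1
  have : t ^ (-b) = t ^ (-(b+1)) * t := by
    nth_rewrite 3 [← Real.rpow_one t]
    rw [← Real.rpow_add ht]
    congr 1; ring
  rw [this]; ring

variable [MeasurableSpace E] [BorelSpace E]

theorem measurable_kerG [SecondCountableTopology E] (b : ℝ) : Measurable (kerG b : E → E) := by
  unfold kerG
  exact (measurable_norm.pow_const _).smul measurable_id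

variable [FiniteDimensional ℝ E]

theorem integrableOn_norm_rpow_ball [Nontrivial E] {b : ℝ} (hb : b < Module.finrank ℝ E) (r : ℝ) :
    IntegrableOn (fun z : E => ‖z‖ ^ (-b)) (ball (0 : E) r) := by
  have h := (integrableOn_fun_norm_addHaar (volume : Measure E) (f := fun t : ℝ => t ^ (-b))
    (r := r)).2
  apply h
  rcases le_or_gt r 0 with hr | hr
  · simp [Ioo_eq_empty (not_lt.2 hr)]
  have hd : 0 < Module.finrank ℝ E := Module.finrank_pos
  have h2 : IntegrableOn (fun y : ℝ => y ^ (((Module.finrank ℝ E - 1 : ℕ) : ℝ) + (-b))) (Ioo 0 r) := by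
    rw [intervalIntegral.integrableOn_Ioo_rpow_iff hr]
    have : ((Module.finrank ℝ E - 1 : ℕ) : ℝ) = (Module.finrank ℝ E : ℝ) - 1 := by
      rw [Nat.cast_sub hd]; simp
    rw [this]; linarith
  refine h2.congr_fun ?_ measurableSet_Ioo
  intro y hy
  have hy0 : 0 < y := hy.1
  simp only [smul_eq_mul]
  rw [Real.rpow_add hy0, Real.rpow_natCast]

theorem integrableOn_kerG [Nontrivial E] {b : ℝ} (hb0 : b ≠ 0) (hb : b < Module.finrank ℝ E)
    (r : ℝ) : IntegrableOn (kerG b : E → E) (ball (0 : E) r) := by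
  have h := integrableOn_norm_rpow_ball (E := E) hb r
  refine h.mono' (measurable_kerG b).aestronglyMeasurable ?_
  exact Eventually.of_forall fun z => (norm_kerG hb0 z).le

end Pool.Agent.H.MP_4eb066_an
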