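import Pool.Agent.H.MP_4eb066_an.WeakForm

open MeasureTheory Set Metric Filter Topology
open scoped ENNReal NNReal RealInnerProductSpace ContDiff

noncomputable section

set_option linter.unusedSectionVars false

namespace Pool.Agent.H.MP_4eb066_an

theorem rieszConst_pos {N : ℕ} {s : ℝ} (hN : 2 ≤ N) (hs : s ∈ Ioo (1/2:ℝ) 1) :
    0 < rieszConst N s := by
  unfold rieszConst
  have hN' : (2:ℝ) ≤ N := by exact_mod_cast hN
  have h1 : 0 < s := by linarith [hs.1]
  have h2 : 0 < ((N:ℝ) - 2 * s) / 2 := by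
    have := hs.2; linarith
  have := Real.Gamma_pos_of_pos h1
  have := Real.Gamma_pos_of_pos h2
  positivity

/-- The main construction: a global bounded weak solution with compact support for all times. -/
theorem main (N : ℕ) (hN : 2 ≤ N) (m : ℝ) (hm : m ∈ Ioo (1:ℝ) 2) (s : ℝ)
    (hs : s ∈ Ioo (1/2:ℝ) 1) :
    ∃ (u₀ : Sp N → ℝ) (u : ℝ → Sp N → ℝ),
      IsAdmissibleDatum N u₀ ∧ u 0 = u₀ ∧
      (∀ T, 0 < T → IsWeakSolution N s m T u₀ u) ∧
      (∀ T, 0 ≤ T → ∃ R, 0 < R ∧ ∀ t ∈ Icc 0 T, ∀ x, R ≤ ‖x‖ → u t x = 0) ∧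
      (∀ t, 0 ≤ t → ∫ x, u t x = ∫ x, u₀ x) ∧
      (∀ t, 0 ≤ t → eLpNorm (u t) ⊤ volume ≤ eLpNorm u₀ ⊤ volume) ∧
      (∃ C, ∀ t, 0 ≤ t → ∀ x, 0 ≤ u t x ∧ u t x ≤ C) := by
  have hN' : (2:ℝ) ≤ N := by exact_mod_cast hN
  have hne : Nonempty (Fin N) := ⟨⟨0, by omega⟩⟩
  have hnt : Nontrivial (Sp N) := inferInstance
  have hdim : Module.finrank ℝ (Sp N) = N := finrank_euclideanSpace_fin
  obtain ⟨hs1, hs2⟩ := hs
  obtain ⟨hm1, hm2⟩ := hm
  set a : ℝ := (N:ℝ) - 2 * s with ha
  have ha0 : 0 < a := by rw [ha]; linarith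
  have ha1 : a + 1 < (Module.finrank ℝ (Sp N) : ℝ) := by rw [hdim, ha]; linarith
  obtain ⟨m0, C, F, hm0, hFm, hF0, hFC, hFs, hFpos, hprof⟩ :=
    exists_profile (E := Sp N) (b := a + 1) (m := m) (by linarith) ha1 hm1 hm2
  set c := rieszConst N s with hc
  have hc0 : 0 < c := rieszConst_pos hN ⟨hs1, hs2⟩
  set κ : ℝ := c⁻¹ * a with hκ
  have hκ0 : 0 < κ := by positivity
  set p : ℝ := (N:ℝ) * (m - 1) + (a + 1) + 1 - N with hp
  have hp0 : 0 < p := by
    rw [hp, ha]
    have : 0 < (N:ℝ) * (m - 1) := by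
      apply mul_pos <;> linarith
    linarith
  let P : Prof (Sp N) :=
    { F := F, C := C, p := p, k := κ * m0, meas := hFm, nonneg := hF0, le := hFC, supp := hFs,
      hp := hp0, hk := by positivity }
  have hu0 : ∀ x, P.u 0 x = F ‖x‖ := P.u_zero
  refine ⟨P.u 0, P.u, ?_, rfl, ?_, ?_, ?_, ?_,
    ⟨C, fun t ht x => ⟨P.u_nonneg ht x, P.u_le ht x⟩⟩⟩
  · -- admissible datum
    refine ⟨P.measurable_u_t 0, fun x => P.u_nonneg le_rfl x, ⟨C, fun x => P.u_le le_rfl x⟩, ?_, ?_⟩
    · apply HasCompactSupport.intro (isCompact_closedBall (0 : Sp N) 1)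
      intro x hx
      rw [hu0]
      apply hFs
      simp only [mem_closedBall, dist_zero_right, not_le] at hx
      exact hx.le
    · intro h
      have h1 : ∫ y in ball (0 : Sp N) 1, F ‖y‖ = 0 := by
        have h2 : ∀ᵐ y ∂(volume.restrict (ball (0 : Sp N) 1)), F ‖y‖ = 0 := by
          apply ae_restrict_of_ae
          filter_upwards [h] with y hy
          rw [← hu0]; exact hy
        rw [integral_congr_ae h2]; simp
      exact hFpos.ne' h1
  · -- weak solution
    intro T hT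
    -- the flux field
    set V : ℝ → Sp N → Sp N := fun t x => ∫ y, P.u t y • kerG (a + 1) (x - y) with hV
    have hVeq : ∀ t, 0 ≤ t → ∀ x, V t x =
        ((Lf P.p (P.p * P.k) t)⁻¹) ^ (a + 1) •
          Vint (a + 1) (ball (0 : Sp N) 1) F ((Lf P.p (P.p * P.k) t)⁻¹ • x) := by
      intro t ht x
      exact V_dil hFs (inv_pos.2 (P.L_pos ht)) x
    set G : ℝ → Sp N → Sp N := fun t x => -(κ • V t x) with hG
    -- flux identity
    have hflux : ∀ t, 0 ≤ t → ∀ x, (P.u t x) ^ (m - 1) • G t x =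
        -((P.k / tau1 (P.p * P.k) t * P.u t x) • x) := by
      intro t ht x
      have hl := inv_pos.2 (P.L_pos ht)
      have h1 := flux_dil (E := Sp N) (b := a + 1) (m := m) (m0 := m0) (p := p) hF0 hFs hprof
        (by rw [hdim]) hl x
      have h2 : (Lf P.p (P.p * P.k) t)⁻¹ ^ p = (tau1 (P.p * P.k) t)⁻¹ := by
        have hpos := tau1_pos P.hγ ht
        have e : Lf P.p (P.p * P.k) t = tau1 (P.p * P.k) t ^ (1 / p) := rfl
        rw [e, Real.inv_rpow (Real.rpow_nonneg hpos.le _), ← Real.rpow_mul hpos.le,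
          one_div_mul_cancel hp0.ne', Real.rpow_one]
      rw [h2] at h1
      have h3 : (P.u t x) ^ (m - 1) • V t x =
          (m0 * (tau1 (P.p * P.k) t)⁻¹ * P.u t x) • x := h1
      simp only [hG]
      rw [smul_neg, smul_comm, h3, smul_smul]
      congr 2
      have : P.k = κ * m0 := rfl
      rw [this]; ring
    have hVm : Measurable (fun q : ℝ × Sp N => ((Lf P.p (P.p * P.k) q.1)⁻¹) ^ (a + 1) •
          Vint (a + 1) (ball (0 : Sp N) 1) F ((Lf P.p (P.p * P.k) q.1)⁻¹ • q.2)) := by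
      have h1 : Measurable (fun q : ℝ × Sp N => (Lf P.p (P.p * P.k) q.1)⁻¹) :=
        ((measurable_Lf P.p (P.p * P.k)).comp measurable_fst).inv
      exact (h1.pow_const _).smul ((measurable_Vint (a + 1) _ hFm).comp (h1.smul measurable_snd))
    have hslab : MeasurableSet (Ioo (0:ℝ) T ×ˢ (univ : Set (Sp N))) :=
      measurableSet_Ioo.prod MeasurableSet.univ
    have hGae : AEStronglyMeasurable (fun q : ℝ × Sp N => G q.1 q.2)
        ((volume : Measure (ℝ × Sp N)).restrict (Ioo 0 T ×ˢ univ)) := by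
      have h1 : AEStronglyMeasurable (fun q : ℝ × Sp N => -(κ •
          (((Lf P.p (P.p * P.k) q.1)⁻¹) ^ (a + 1) •
          Vint (a + 1) (ball (0 : Sp N) 1) F ((Lf P.p (P.p * P.k) q.1)⁻¹ • q.2))))
          ((volume : Measure (ℝ × Sp N)).restrict (Ioo 0 T ×ˢ univ)) :=
        ((hVm.const_smul κ).neg).aestronglyMeasurable
      refine h1.congr ?_
      filter_upwards [ae_restrict_mem hslab] with q hq
      simp only [hG]
      rw [hVeq q.1 hq.1.1.le]
    refine ⟨fun t ht x => P.u_nonneg ht.1.le x, P.integrable_u T, G, ?_, ?_, ?_, ?_⟩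
    · -- distributional gradient
      filter_upwards [ae_restrict_mem measurableSet_Ioo] with t ht
      have hut := P.measurable_u_t t
      have hub : ∀ y, |P.u t y| ≤ C := fun y => P.u_abs_le ht.1.le y
      have hus : ∀ y, Lf P.p (P.p * P.k) t ≤ ‖y‖ → P.u t y = 0 := fun y hy =>
        P.u_supp ht.1.le hy
      have hpot : rieszPotential N s (P.u t) = fun x => c⁻¹ * ∫ y, ‖x - y‖ ^ (-a) * P.u t y := by
        ext x
        unfold rieszPotential rieszKernel
        rw [← integral_const_mul]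
        congr 1; ext y
        rw [← hc, ← ha]; ring
      refine ⟨?_, ?_, ?_⟩
      · rw [hpot]
        have h1 := locallyIntegrable_conv (E := Sp N) (F := ℝ) (k := fun z => ‖z‖ ^ (-a))
          (fun r => integrableOn_norm_rpow_ball (by linarith) r) hut hub hus
        have h2 := h1.smul c⁻¹
        have e : (fun x => c⁻¹ * ∫ y, ‖x - y‖ ^ (-a) * P.u t y) =
            c⁻¹ • fun x => ∫ y, P.u t y • ‖x - y‖ ^ (-a) := by
          ext x
          simp only [Pi.smul_apply, smul_eq_mul]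
          congr 2; ext y; ring
        rw [e]; exact h2
      · have h1 := locallyIntegrable_conv (E := Sp N) (F := Sp N) (k := kerG (a + 1))
          (fun r => integrableOn_kerG (by linarith) ha1 r) hut hub hus
        have h2 := (h1.smul κ).neg
        exact h2
      · intro ψ hψ hψc v
        have h1 := conv_weak (E := Sp N) ha0 ha1 hut hub hus hψ hψc v
        rw [hpot]
        have e1 : ∫ x, (c⁻¹ * ∫ y, ‖x - y‖ ^ (-a) * P.u t y) * fderiv ℝ ψ x v =
            c⁻¹ * ∫ x, (∫ y, ‖x - y‖ ^ (-a) * P.u t y) * fderiv ℝ ψ x v := by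
          rw [← integral_const_mul]; congr 1; ext x; ring
        rw [e1, h1, ← integral_neg, ← mul_assoc, ← hκ, ← integral_const_mul]
        congr 1; ext x
        simp only [hG, hV, inner_neg_left, inner_smul_left]
        simp; ring
    · -- local integrability of the gradient
      intro K hK
      obtain ⟨r, hr⟩ := hK.isBounded.exists_norm_le
      obtain ⟨M, hM⟩ := Vint_bdd (E := Sp N) (b := a + 1) (by linarith) ha1 hF0 hFC r
      have hKm : MeasurableSet (Ioo (0:ℝ) T ×ˢ K) := measurableSet_Ioo.prod hK.measurableSet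
      have hfin : (volume : Measure (ℝ × Sp N)) (Ioo 0 T ×ˢ K) < ⊤ := by
        rw [Measure.volume_eq_prod, Measure.prod_prod]
        exact ENNReal.mul_lt_top (by rw [Real.volume_Ioo]; exact ENNReal.ofReal_lt_top)
          hK.measure_lt_top
      apply IntegrableOn.of_bound hfin (hGae.mono_set (prod_mono_right (subset_univ _))) (κ * M)
      filter_upwards [ae_restrict_mem hKm] with q hq
      have hq0 : 0 ≤ q.1 := hq.1.1.le
      simp only [hG]
      rw [hVeq q.1 hq0, norm_neg, norm_smul, norm_smul, Real.norm_of_nonneg hκ0.le]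
      have hL := P.L_pos hq0
      have hL1 := P.one_le_L hq0
      have hinv : (Lf P.p (P.p * P.k) q.1)⁻¹ ≤ 1 := inv_le_one_of_one_le₀ hL1
      have hinv0 : 0 ≤ (Lf P.p (P.p * P.k) q.1)⁻¹ := inv_nonneg.2 hL.le
      have h1 : ‖Vint (a + 1) (ball (0 : Sp N) 1) F ((Lf P.p (P.p * P.k) q.1)⁻¹ • q.2)‖ ≤ M := by
        apply hM
        rw [norm_smul, Real.norm_of_nonneg hinv0]
        calc _ ≤ 1 * ‖q.2‖ := by gcongr
          _ = ‖q.2‖ := one_mul _
          _ ≤ r := hr _ hq.2
      have h2 : ‖(Lf P.p (P.p * P.k) q.1)⁻¹ ^ (a + 1)‖ ≤ 1 := by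
        rw [Real.norm_of_nonneg (Real.rpow_nonneg hinv0 _)]
        exact Real.rpow_le_one hinv0 hinv (by linarith)
      have hM0 : 0 ≤ M := (norm_nonneg _).trans h1
      calc κ * (‖(Lf P.p (P.p * P.k) q.1)⁻¹ ^ (a + 1)‖ *
            ‖Vint (a + 1) (ball (0 : Sp N) 1) F ((Lf P.p (P.p * P.k) q.1)⁻¹ • q.2)‖)
          ≤ κ * (1 * M) := by gcongr
        _ = κ * M := by ring
    · -- integrability of the flux
      have hR0 : 0 < Lf P.p (P.p * P.k) T := P.L_pos hT.le
      apply integrableOn_slab (R := Lf P.p (P.p * P.k) T)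
        (M := P.k * C * Lf P.p (P.p * P.k) T)
      · have h1 : AEStronglyMeasurable (fun q : ℝ × Sp N => (P.u q.1 q.2) ^ (m - 1))
            ((volume : Measure (ℝ × Sp N)).restrict (Ioo 0 T ×ˢ univ)) :=
          (P.measurable_u.pow_const _).aestronglyMeasurable
        exact h1.smul hGae
      · intro t ht x hx
        simp only
        rw [hflux t ht.1.le, norm_neg, norm_smul, norm_mul,
          Real.norm_of_nonneg (P.tau1_nonneg t ht.1.le), Real.norm_eq_abs]
        have := P.tau1_ge t ht.1.le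
        have := P.u_abs_le ht.1.le x
        have := P.hk
        have := P.C_nonneg
        gcongr
      · intro t ht x hx
        simp only
        rw [hflux t ht.1.le, P.u_supp' ht.1.le ht.2.le hx, mul_zero, zero_smul, neg_zero]
    · -- weak identity
      intro φ hφ
      set Φ : ℝ × Sp N → ℝ := fun q => φ q.1 q.2 with hΦdef
      have hΦ : ContDiffOn ℝ 1 Φ (Ico 0 T ×ˢ univ) := hφ.contDiff
      have hv : ∃ T' < T, ∀ t, T' < t → t < T → ∀ x, Φ (t, x) = 0 := hφ.vanish
      have hA := P.integrable_A hT hΦ hv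
      have hB := P.integrable_B hT hΦ hv
      have htr := P.transport hT hΦ hv
      have eA : ∀ q ∈ cyl N T, P.u q.1 q.2 * deriv (fun r => φ r q.2) q.1 =
          P.u q.1 q.2 * Dw T Φ q (1, 0) := by
        intro q hq
        have := Dw_deriv_t hΦ hq.1 q.2
        rw [← this]
      have eB : ∀ q ∈ cyl N T, ⟪(P.u q.1 q.2) ^ (m - 1) • G q.1 q.2, gradient (φ q.1) q.2⟫ =
          -(P.u q.1 q.2 * Dw T Φ q (0, (P.k / tau1 (P.p * P.k) q.1) • q.2)) := by
        intro q hq
        rw [hflux q.1 hq.1.1.le]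
        have h1 := Dw_fderiv_x hΦ hq.1 q.2 ((P.k / tau1 (P.p * P.k) q.1) • q.2)
        have h2 : Dw T Φ q = Dw T Φ (q.1, q.2) := rfl
        rw [h2, ← h1]
        rw [inner_neg_left, real_inner_comm]
        have h3 : ∀ w : Sp N, ⟪gradient (φ q.1) q.2, w⟫ = fderiv ℝ (φ q.1) q.2 w := by
          intro w
          unfold gradient
          rw [InnerProductSpace.toDual_symm_apply]
        rw [h3]
        have h4 : fderiv ℝ (fun z => Φ (q.1, z)) q.2 = fderiv ℝ (φ q.1) q.2 := rfl
        rw [h4, map_smul, map_smul]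
        simp only [smul_eq_mul]
        ring
      have hcm : MeasurableSet (cyl N T) := measurableSet_Ioo.prod MeasurableSet.univ
      have hA' : IntegrableOn (fun q : ℝ × Sp N => P.u q.1 q.2 *
          deriv (fun r => φ r q.2) q.1) (cyl N T) :=
        (show IntegrableOn _ (cyl N T) from hA).congr_fun (fun q hq => (eA q hq).symm) hcm
      have hB' : IntegrableOn (fun q : ℝ × Sp N =>
          ⟪(P.u q.1 q.2) ^ (m - 1) • G q.1 q.2, gradient (φ q.1) q.2⟫) (cyl N T) :=
        (show IntegrableOn _ (cyl N T) from hB.neg).congr_fun (fun q hq => (eB q hq).symm) hcm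
      refine ⟨hA', hB', ?_⟩
      rw [setIntegral_congr_fun hcm eA, setIntegral_congr_fun hcm eB, integral_neg]
      have e0 : ∫ x, P.u 0 x * φ 0 x = ∫ x : Sp N, P.F ‖x‖ * Φ (0, x) := by
        congr 1; ext x; rw [P.u_zero]
      rw [e0]
      have htr' : (∫ q in cyl N T, P.u q.1 q.2 * Dw T Φ q (1, 0)) +
          (∫ q in cyl N T, P.u q.1 q.2 *
            Dw T Φ q (0, (P.k / tau1 (P.p * P.k) q.1) • q.2)) =
            - ∫ x : Sp N, P.F ‖x‖ * Φ (0, x) := htr
      linarith
  · -- compact support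
    intro T hT
    exact ⟨Lf P.p (P.p * P.k) T, P.L_pos hT, fun t ht x hx => P.u_supp' ht.1 ht.2 hx⟩
  · -- mass
    intro t ht
    have h1 := integral_dil (E := Sp N) F (inv_pos.2 (P.L_pos ht)) (fun _ => (1:ℝ))
    simp only [smul_eq_mul, mul_one] at h1
    have h2 : ∫ x, P.u 0 x = ∫ x : Sp N, F ‖x‖ := by
      congr 1; ext x; exact hu0 x
    rw [h2, ← h1]
    rfl
  · -- sup norm
    intro t ht
    rw [eLpNorm_exponent_top, eLpNorm_exponent_top]
    apply eLpNormEssSup_le_of_ae_enorm_bound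
    have hl := inv_pos.2 (P.L_pos ht)
    have hl1 : (Lf P.p (P.p * P.k) t)⁻¹ ≤ 1 := inv_le_one_of_one_le₀ (P.one_le_L ht)
    set l := (Lf P.p (P.p * P.k) t)⁻¹ with hldef
    have h0 : ∀ᵐ x : Sp N, ‖P.u 0 x‖ₑ ≤ eLpNormEssSup (P.u 0) volume :=
      enorm_ae_le_eLpNormEssSup _ _
    have hq : Measure.QuasiMeasurePreserving (fun x : Sp N => l • x) volume volume := by
      refine ⟨by fun_prop, ?_⟩
      rw [Measure.map_addHaar_smul _ hl.ne']
      exact Measure.smul_absolutelyContinuous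
    have h1 := hq.ae h0
    filter_upwards [h1] with x hx
    have h2 : P.u t x = l ^ (Module.finrank ℝ (Sp N)) * P.u 0 (l • x) := by
      rw [hu0]; rfl
    rw [h2, enorm_mul]
    have h3 : ‖l ^ (Module.finrank ℝ (Sp N))‖ₑ ≤ 1 := by
      rw [← ofReal_norm, Real.norm_of_nonneg (by positivity)]
      exact ENNReal.ofReal_le_one.2 (pow_le_one₀ hl.le hl1)
    calc _ ≤ 1 * ‖P.u 0 (l • x)‖ₑ := by gcongr
      _ = ‖P.u 0 (l • x)‖ₑ := one_mul _
      _ ≤ _ := hx

end Pool.Agent.H.MP_4eb066_an
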