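import Pool.Agent.H.MP_4eb066_an.Base2

open MeasureTheory Set Metric Filter Topology
open scoped ENNReal NNReal RealInnerProductSpace

noncomputable section

set_option linter.unusedSectionVars false

namespace Pool.Agent.H.MP_4eb066_an

section
variable (E : Type*) [NormedAddCommGroup E] [InnerProductSpace ℝ E]
  [MeasurableSpace E] [BorelSpace E] [FiniteDimensional ℝ E] [Nontrivial E]

/-- Distribution of the norm on the unit ball. -/
def nu : Measure ℝ := (volume.restrict (ball (0:E) 1)).map (fun x : E => ‖x‖)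

instance : IsFiniteMeasure (nu E) := by
  have : IsFiniteMeasure (volume.restrict (ball (0:E) 1)) := ⟨by
    rw [Measure.restrict_apply_univ]; exact measure_ball_lt_top⟩
  unfold nu; infer_instance

instance : NullSingletonClass (nu E) := by
  constructor
  intro r
  rw [nu, Measure.map_apply measurable_norm (measurableSet_singleton _)]
  apply le_antisymm _ zero_le
  refine (Measure.restrict_apply_le _ _).trans (le_of_eq ?_)
  have : (fun x : E => ‖x‖) ⁻¹' {r} = sphere (0:E) r := by ext x; simp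
  rw [this]
  exact Measure.addHaar_sphere _ _ _

theorem nu_ae_mem : ∀ᵐ r ∂(nu E), r ∈ Ioo (0:ℝ) 1 := by
  have hmap := ae_map_iff (μ := volume.restrict (ball (0:E) 1)) (f := fun x : E => ‖x‖)
    (p := fun r => r ∈ Ioo (0:ℝ) 1) measurable_norm.aemeasurable measurableSet_Ioo
  rw [nu, hmap]
  have h0 : ∀ᵐ x : E ∂(volume.restrict (ball (0:E) 1)), x ≠ 0 := by
    apply ae_restrict_of_ae
    rw [ae_iff]
    simp
  filter_upwards [h0, ae_restrict_mem measurableSet_ball] with x hx hx1
  exact ⟨norm_pos_iff.2 hx, by simpa using hx1⟩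

variable {E}

theorem lintegral_nu {g : ℝ → ℝ≥0∞} (hg : Measurable g) :
    ∫⁻ r, g r ∂(nu E) = ∫⁻ x in ball (0:E) 1, g ‖x‖ := by
  rw [nu, lintegral_map hg measurable_norm]

theorem integral_nu {g : ℝ → ℝ} (hg : Measurable g) :
    ∫ r, g r ∂(nu E) = ∫ x in ball (0:E) 1, g ‖x‖ := by
  rw [nu, integral_map measurable_norm.aemeasurable hg.aestronglyMeasurable]

theorem setIntegral_nu {g : ℝ → ℝ} (hg : Measurable g) {α β : ℝ} (hβ : β ≤ 1) :
    ∫ r in Ico α β, g r ∂(nu E) = ∫ x in shell E α β, g ‖x‖ := by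
  rw [nu, setIntegral_map measurableSet_Ico hg.aestronglyMeasurable measurable_norm.aemeasurable,
    Measure.restrict_restrict (measurable_norm measurableSet_Ico)]
  have : (fun x : E => ‖x‖) ⁻¹' Ico α β ∩ ball 0 1 = shell E α β := by
    apply inter_eq_left.2
    intro x hx
    have : ‖x‖ < β := hx.2
    rw [mem_ball_zero_iff]; linarith
  rw [this]

theorem ae_nu_iff {p : ℝ → Prop} (hp : MeasurableSet {r | p r}) :
    (∀ᵐ r ∂(nu E), p r) ↔ ∀ᵐ x ∂(volume.restrict (ball (0:E) 1)), p ‖x‖ := by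
  rw [nu, ae_map_iff measurable_norm.aemeasurable hp]

/-- bound for `om` in `L¹`. -/
theorem lintegral_om {b : ℝ} {e : E} (he : ‖e‖ = 1) {d : ℝ → ℝ} (hd : Measurable d) :
    ∫⁻ r, ‖om b e d r‖ₑ ∂(nu E) = ∫⁻ x in ball (0:E) 1, ‖x‖ₑ⁻¹ * ‖Vint b (ball (0:E) 1) d x‖ₑ := by
  rw [lintegral_nu (measurable_om b e hd).enorm]
  have h0 : ∀ᵐ x : E ∂(volume.restrict (ball (0:E) 1)), x ≠ 0 := by
    apply ae_restrict_of_ae
    rw [ae_iff]
    simp
  apply lintegral_congr_ae
  filter_upwards [h0] with x hx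
  rw [Vint_eq_om b he d x, enorm_smul, mul_comm (‖om b e d ‖x‖‖ₑ), ← mul_assoc,
    ENNReal.inv_mul_cancel (by simpa using hx) enorm_ne_top, one_mul]

end

end Pool.Agent.H.MP_4eb066_an
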