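import Mathlib

open Set Filter Topology

noncomputable section

namespace Pool.Agent.H.MP_4eb066_an

/-- subdivision points of the `k`-th dyadic interval -/
def pt (n : ℕ → ℕ) (k j : ℕ) : ℝ :=
  (1/2:ℝ)^(k+1) + ((1/2:ℝ)^k - (1/2:ℝ)^(k+1)) * (j / n k)

theorem dy_lt (k : ℕ) : (1/2:ℝ)^(k+1) < (1/2:ℝ)^k :=
  pow_lt_pow_right_of_lt_one₀ (by norm_num) (by norm_num) (Nat.lt_succ_self k)

theorem dy_pos (k : ℕ) : 0 < (1/2:ℝ)^k := by positivity

theorem dy_le_one (k : ℕ) : (1/2:ℝ)^k ≤ 1 := pow_le_one₀ (by norm_num) (by norm_num)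

variable {n : ℕ → ℕ}

theorem pt_zero (k : ℕ) : pt n k 0 = (1/2:ℝ)^(k+1) := by simp [pt]

theorem pt_last (hn : ∀ k, 0 < n k) (k : ℕ) : pt n k (n k) = (1/2:ℝ)^k := by
  have : (n k : ℝ) ≠ 0 := by exact_mod_cast (hn k).ne'
  simp only [pt]
  rw [div_self this]; ring

theorem pt_lt (hn : ∀ k, 0 < n k) (k : ℕ) {i j : ℕ} (h : i < j) : pt n k i < pt n k j := by
  have h1 : (0:ℝ) < n k := by exact_mod_cast hn k
  have h2 := dy_lt k
  simp only [pt]
  have h3 : (i:ℝ) / n k < j / n k := by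
    gcongr
  have := mul_lt_mul_of_pos_left h3 (sub_pos.2 h2)
  linarith

theorem pt_mono (hn : ∀ k, 0 < n k) (k : ℕ) : Monotone (pt n k) :=
  (show StrictMono (pt n k) from fun _ _ h => pt_lt hn k h).monotone

/-- index set of the shells -/
abbrev Idx (n : ℕ → ℕ) : Type := Σ k : ℕ, Fin (n k)

/-- left end of a shell -/
def al (i : Idx n) : ℝ := pt n i.1 i.2
/-- right end of a shell -/
def be (i : Idx n) : ℝ := pt n i.1 (i.2 + 1)

theorem al_lt_be (hn : ∀ k, 0 < n k) (i : Idx n) : al i < be i := pt_lt hn _ (Nat.lt_succ_self _)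

theorem al_ge (hn : ∀ k, 0 < n k) (i : Idx n) : (1/2:ℝ)^(i.1+1) ≤ al i := by
  rw [← pt_zero (n := n)]
  exact pt_mono hn _ (Nat.zero_le _)

theorem be_le (hn : ∀ k, 0 < n k) (i : Idx n) : be i ≤ (1/2:ℝ)^(i.1) := by
  rw [← pt_last hn]
  exact pt_mono hn _ i.2.2

theorem al_pos (hn : ∀ k, 0 < n k) (i : Idx n) : 0 < al i := (dy_pos _).trans_le (al_ge hn i)

theorem be_le_one (hn : ∀ k, 0 < n k) (i : Idx n) : be i ≤ 1 := (be_le hn i).trans (dy_le_one _)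

theorem pairwise_Idx (hn : ∀ k, 0 < n k) :
    Pairwise (Function.onFun Disjoint (fun i : Idx n => Ico (al i) (be i))) := by
  have key : ∀ i i' : Idx n, i.1 < i'.1 → Disjoint (Ico (al i) (be i)) (Ico (al i') (be i')) := by
    intro i i' h
    rw [Set.disjoint_left]
    rintro r ⟨h1, _⟩ ⟨_, h2⟩
    have h3 := al_ge hn i
    have h4 := be_le hn i'
    have : (1/2:ℝ)^i'.1 ≤ (1/2:ℝ)^(i.1+1) := pow_le_pow_of_le_one (by norm_num) (by norm_num) h
    linarith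
  rintro ⟨k, j⟩ ⟨k', j'⟩ hne
  rcases lt_trichotomy k k' with h | h | h
  · exact key _ _ h
  · subst h
    have hjj : (j : ℕ) ≠ j' := by
      intro h; apply hne; congr; exact Fin.ext h
    have := (pt_mono hn k).pairwise_disjoint_on_Ico_succ hjj
    exact this
  · exact (key _ _ h).symm

theorem iUnion_Idx (hn : ∀ k, 0 < n k) : ⋃ i : Idx n, Ico (al i) (be i) = Ioo (0:ℝ) 1 := by
  ext r
  simp only [mem_iUnion, mem_Ico, mem_Ioo]
  constructor
  · rintro ⟨i, h1, h2⟩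
    exact ⟨(al_pos hn i).trans_le h1, h2.trans_le (be_le_one hn i)⟩
  · rintro ⟨h1, h2⟩
    obtain ⟨k, hk1, hk2⟩ : ∃ k : ℕ, (1/2:ℝ)^(k+1) ≤ r ∧ r < (1/2:ℝ)^k := by
      obtain ⟨m, hn1, hn2⟩ := exists_nat_pow_near_of_lt_one h1 h2.le (y := (1/2:ℝ)) (by norm_num)
        (by norm_num)
      rcases eq_or_lt_of_le hn2 with h | h
      · cases m with
        | zero => simp at h; linarith
        | succ m => exact ⟨m, by rw [h], by
            rw [h]; exact pow_lt_pow_right_of_lt_one₀ (by norm_num) (by norm_num) (by omega)⟩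
      · exact ⟨m, hn1.le, h⟩
    have hnk : (0:ℝ) < n k := by exact_mod_cast hn k
    set w : ℝ := (1/2:ℝ)^k - (1/2:ℝ)^(k+1) with hw
    have hwpos : 0 < w := sub_pos.2 (dy_lt k)
    set t : ℝ := (r - (1/2:ℝ)^(k+1)) / w * n k with ht
    have ht0 : 0 ≤ t := by
      apply mul_nonneg (div_nonneg (by linarith) hwpos.le) hnk.le
    have ht1 : t < n k := by
      have : (r - (1/2:ℝ)^(k+1)) / w < 1 := by rw [div_lt_one hwpos]; linarith
      calc t < 1 * n k := mul_lt_mul_of_pos_right this hnk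
        _ = n k := one_mul _
    have hj : ⌊t⌋₊ < n k := (Nat.floor_lt ht0).2 ht1
    refine ⟨⟨k, ⟨⌊t⌋₊, hj⟩⟩, ?_, ?_⟩
    · have h3 : (⌊t⌋₊ : ℝ) ≤ t := Nat.floor_le ht0
      simp only [al, pt]
      have h4 : (⌊t⌋₊ : ℝ) / n k ≤ (r - (1/2:ℝ)^(k+1)) / w := by
        rw [div_le_iff₀ hnk]; exact h3
      have h5 := mul_le_mul_of_nonneg_left h4 hwpos.le
      rw [mul_div_cancel₀ _ hwpos.ne'] at h5
      linarith
    · have h3 : t < (⌊t⌋₊ : ℝ) + 1 := Nat.lt_floor_add_one t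
      simp only [be, pt]
      have h4 : (r - (1/2:ℝ)^(k+1)) / w < ((⌊t⌋₊ + 1 : ℕ) : ℝ) / n k := by
        rw [lt_div_iff₀ hnk]; push_cast; exact h3
      have h5 := mul_lt_mul_of_pos_left h4 hwpos
      rw [mul_div_cancel₀ _ hwpos.ne'] at h5
      linarith

end Pool.Agent.H.MP_4eb066_an
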