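import Pool.Agent.H.MP_4eb066_an.Fix2

open MeasureTheory Set Metric Filter Topology
open scoped ENNReal NNReal RealInnerProductSpace

noncomputable section

set_option linter.unusedSectionVars false

namespace Pool.Agent.H.MP_4eb066_an

variable {E : Type*} [NormedAddCommGroup E] [InnerProductSpace ℝ E]
  [MeasurableSpace E] [BorelSpace E] [FiniteDimensional ℝ E] [Nontrivial E]

open Setup in
/-- The self-similar profile. -/
theorem exists_profile {b m : ℝ} (hb0 : 0 < b) (hb : b < Module.finrank ℝ E) (hm1 : 1 < m)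
    (hm2 : m < 2) :
    ∃ (m0 C : ℝ) (F : ℝ → ℝ), 0 < m0 ∧ Measurable F ∧ (∀ r, 0 ≤ F r) ∧ (∀ r, F r ≤ C) ∧
      (∀ r, 1 ≤ r → F r = 0) ∧ (0 < ∫ y in ball (0:E) 1, F ‖y‖) ∧
      ∀ x : E, (F ‖x‖) ^ (m - 1) • Vint b (ball (0:E) 1) F x = (m0 * F ‖x‖) • x := by
  obtain ⟨S, hSb, hSq⟩ := exists_setup (E := E) hb0 hb (q := 1 / (2 - m))
    (by apply div_nonneg zero_le_one; linarith)
  obtain ⟨f, hf, hfix⟩ := exists_fixed S
  have hfK : S.InK f := mem_KL_iff.1 hf
  have hTf : (f : ℝ → ℝ) =ᵐ[nu E] S.T f := by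
    have := TL_coe hf
    rwa [hfix] at this
  set F : ℝ → ℝ := S.T f with hF
  have hFK : S.InK F := hfK.T_inK
  have hsupp : S.supp f ⊆ Ioo (0:ℝ) 1 := by
    rw [← iUnion_Idx S.hn]
    apply iUnion_mono
    intro i
    exact Ico_subset_Ico_right (hfK.tau_mem i).2
  have hval : ∀ r, F r = 0 ∨ (r ∈ Ioo (0:ℝ) 1 ∧ F r = S.g f r) := by
    intro r
    by_cases h : r ∈ S.supp f
    · right
      exact ⟨hsupp h, by rw [hF]; exact indicator_of_mem h _⟩
    · left
      rw [hF]; exact indicator_of_notMem h _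
  refine ⟨S.m0, S.C, F, S.hm0, hFK.meas, ?_, ?_, ?_, ?_, ?_⟩
  · intro r
    rcases hval r with h | ⟨h1, h2⟩
    · rw [h]
    · rw [h2]; exact zero_le_one.trans (hfK.one_le_g h1)
  · intro r
    rcases hval r with h | ⟨h1, h2⟩
    · rw [h]; exact S.C_nonneg
    · rw [h2]; exact hfK.g_le h1
  · intro r hr
    rcases hval r with h | ⟨h1, _⟩
    · exact h
    · exact absurd h1.2 (not_lt.2 hr)
  · rw [← integral_nu (E := E) hFK.meas]
    have hdec : ∀ g : ℝ → ℝ, Integrable g (nu E) →
        HasSum (fun i : Idx S.n => ∫ r in Ico (al i) (be i), g r ∂(nu E)) (∫ r, g r ∂(nu E)) := by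
      intro g hg
      have := hasSum_integral_iUnion (μ := nu E) (f := g)
        (fun i : Idx S.n => (measurableSet_Ico : MeasurableSet (Ico (al i) (be i))))
        (pairwise_Idx S.hn) hg.integrableOn
      rwa [setIntegral_congr_set (ae_iUnion (S := S)), setIntegral_univ] at this
    have h1 := hdec F hFK.integrable
    have h2 := hdec phi integrable_phi
    have h3 : (fun i : Idx S.n => ∫ r in Ico (al i) (be i), F r ∂(nu E)) =
        fun i : Idx S.n => ∫ r in Ico (al i) (be i), phi r ∂(nu E) := by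
      ext i; exact hFK.mass i
    rw [h3] at h1
    rw [h1.unique h2, integral_nu continuous_phi.measurable]
    exact integral_phi_pos
  · intro x
    rcases hval ‖x‖ with h | ⟨h1, h2⟩
    · rw [h, Real.zero_rpow (by linarith)]; simp
    · have hw : om b S.e F ‖x‖ = S.w f ‖x‖ := by
        rw [← hSb]
        exact om_congr hFK.meas hfK.meas hTf.symm _
      rw [Vint_eq_om b S.he F x, hw, smul_smul]
      congr 1
      have hwm := hfK.w_mem h1
      set W := S.w f ‖x‖ with hW
      have hW0 : 0 < W := S.hm0.trans_le hwm.1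
      have hFx : F ‖x‖ = (W / S.m0) ^ S.q := h2
      have hpos : 0 < W / S.m0 := div_pos hW0 S.hm0
      have hFpos : 0 < F ‖x‖ := by rw [hFx]; exact Real.rpow_pos_of_pos hpos _
      have h3 : F ‖x‖ ^ (2 - m) = W / S.m0 := by
        rw [hFx, ← Real.rpow_mul hpos.le, hSq]
        rw [div_mul_cancel₀ _ (by linarith), Real.rpow_one]
      have h4 : W = S.m0 * F ‖x‖ ^ (2 - m) := by
        rw [h3, mul_div_cancel₀ _ S.hm0.ne']
      rw [h4]
      calc F ‖x‖ ^ (m - 1) * (S.m0 * F ‖x‖ ^ (2 - m))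
          = S.m0 * (F ‖x‖ ^ (m - 1) * F ‖x‖ ^ (2 - m)) := by ring
        _ = S.m0 * F ‖x‖ := by
          rw [← Real.rpow_add hFpos]
          have : m - 1 + (2 - m) = 1 := by ring
          rw [this, Real.rpow_one]

end Pool.Agent.H.MP_4eb066_an
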