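import Pool.Agent.H.MP_4eb066_an.Global

open MeasureTheory Set Metric Filter Topology
open scoped ENNReal NNReal RealInnerProductSpace

noncomputable section

namespace Pool.Agent.H.MP_4eb066_an

variable {E : Type*} [NormedAddCommGroup E] [InnerProductSpace ℝ E]
  [MeasurableSpace E] [BorelSpace E] [FiniteDimensional ℝ E]

theorem Vint_isom (b : ℝ) (d : ℝ → ℝ) (R : E ≃ₗᵢ[ℝ] E) (x : E) :
    Vint b (ball (0:E) 1) d (R x) = R (Vint b (ball (0:E) 1) d x) := by
  have hmp : MeasurePreserving R (volume : Measure E) volume := R.measurePreserving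
  have hpre : R ⁻¹' (ball (0:E) 1) = ball (0:E) 1 := by
    ext y; simp
  have h := hmp.setIntegral_preimage_emb R.toHomeomorph.measurableEmbedding
    (fun y => d ‖y‖ • kerG b (R x - y)) (ball (0:E) 1)
  rw [hpre] at h
  unfold Vint
  rw [← h]
  have h2 : ∀ y, d ‖R y‖ • kerG b (R x - R y) = R (d ‖y‖ • kerG b (x - y)) := by
    intro y
    rw [← map_sub, kerG_isom, R.norm_map, map_smul]
  simp_rw [h2]
  exact R.toContinuousLinearEquiv.integral_comp_comm _

theorem Vint_parallel (b : ℝ) (d : ℝ → ℝ) (x : E) :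
    Vint b (ball (0:E) 1) d x ∈ (Submodule.span ℝ {x}) := by
  rw [← Submodule.reflection_eq_self_iff]
  rw [← Vint_isom]
  congr 1
  rw [Submodule.reflection_eq_self_iff]
  exact Submodule.mem_span_singleton_self x

theorem exists_isom {x y : E} (h : ‖x‖ = ‖y‖) : ∃ R : E ≃ₗᵢ[ℝ] E, R x = y :=
  ⟨Submodule.reflection (Submodule.span ℝ {x - y})ᗮ, Submodule.reflection_sub h⟩

/-- Radial coefficient of the velocity: `V(x) = om(|x|) x`. -/
def om (b : ℝ) (e : E) (d : ℝ → ℝ) (r : ℝ) : ℝ := ⟪Vint b (ball (0:E) 1) d (r • e), e⟫ / r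

theorem Vint_eq_om (b : ℝ) {e : E} (he : ‖e‖ = 1) (d : ℝ → ℝ) (x : E) :
    Vint b (ball (0:E) 1) d x = om b e d ‖x‖ • x := by
  obtain ⟨t, ht⟩ := Submodule.mem_span_singleton.1 (Vint_parallel b d x)
  rcases eq_or_ne x 0 with rfl | hx
  · rw [← ht]; simp
  have hx0 : 0 < ‖x‖ := norm_pos_iff.2 hx
  have hn : ‖x‖ = ‖‖x‖ • e‖ := by simp [norm_smul, he]
  obtain ⟨R, hR⟩ := exists_isom hn
  have h1 : ⟪Vint b (ball (0:E) 1) d (‖x‖ • e), ‖x‖ • e⟫ = ⟪Vint b (ball (0:E) 1) d x, x⟫ := by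
    rw [← hR, Vint_isom, R.inner_map_map]
  rw [inner_smul_right, ← ht, inner_smul_left, real_inner_self_eq_norm_sq] at h1
  have h2 : om b e d ‖x‖ = t := by
    unfold om
    rw [div_eq_iff hx0.ne']
    have h3 : ‖x‖ * ⟪Vint b (ball (0:E) 1) d (‖x‖ • e), e⟫ = ‖x‖ * (t * ‖x‖) := by
      rw [h1]; simp; ring
    exact mul_left_cancel₀ hx0.ne' h3
  rw [← ht, h2]

theorem om_norm_bound (b : ℝ) {e : E} (he : ‖e‖ = 1) (d : ℝ → ℝ) (x : E) :
    |om b e d ‖x‖| * ‖x‖ = ‖Vint b (ball (0:E) 1) d x‖ := by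
  rw [Vint_eq_om b he d x, norm_smul, Real.norm_eq_abs]

theorem measurable_om [Nontrivial E] (b : ℝ) (e : E) {d : ℝ → ℝ} (hd : Measurable d) :
    Measurable (om b e d) := by
  unfold om
  have h1 : Measurable (fun r : ℝ => Vint b (ball (0:E) 1) d (r • e)) :=
    (measurable_Vint b _ hd).comp (by fun_prop)
  exact (h1.inner_const (c := e)).div measurable_id

end Pool.Agent.H.MP_4eb066_an
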