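import Pool.Agent.H.MP_4eb066_an.Conv

open MeasureTheory Set Metric Filter Topology
open scoped ENNReal NNReal RealInnerProductSpace ContDiff

noncomputable section

set_option linter.unusedSectionVars false

namespace Pool.Agent.H.MP_4eb066_an

variable {E : Type*} [NormedAddCommGroup E] [InnerProductSpace ℝ E]
  [MeasurableSpace E] [BorelSpace E] [FiniteDimensional ℝ E] [Nontrivial E]

/-- dilated profile of unit mass ratio: `l^N F(|l x|)` -/
def dil (E : Type*) [NormedAddCommGroup E] [InnerProductSpace ℝ E] (F : ℝ → ℝ) (l : ℝ) (x : E) :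
    ℝ := l ^ (Module.finrank ℝ E) * F ‖l • x‖

theorem Vint_eq_full {b : ℝ} {F : ℝ → ℝ} (hF : ∀ r, 1 ≤ r → F r = 0) (x : E) :
    Vint b (ball (0:E) 1) F x = ∫ y, F ‖y‖ • kerG b (x - y) := by
  unfold Vint
  apply setIntegral_eq_integral_of_forall_compl_eq_zero
  intro y hy
  have : 1 ≤ ‖y‖ := by simpa using hy
  rw [hF _ this, zero_smul]

theorem integral_dil {G : Type*} [NormedAddCommGroup G] [NormedSpace ℝ G] (F : ℝ → ℝ) {l : ℝ}
    (hl : 0 < l) (g : E → G) :
    ∫ x : E, dil E F l x • g x = ∫ y : E, F ‖y‖ • g (l⁻¹ • y) := by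
  have h := Measure.integral_comp_smul (volume : Measure E)
    (fun y : E => F ‖y‖ • g (l⁻¹ • y)) l
  have e : ∀ x : E, l⁻¹ • l • x = x := fun x => by rw [smul_smul, inv_mul_cancel₀ hl.ne', one_smul]
  simp only [e] at h
  have hpos : 0 < l ^ Module.finrank ℝ E := by positivity
  rw [abs_of_pos (inv_pos.2 hpos)] at h
  have h2 : ∫ y : E, F ‖y‖ • g (l⁻¹ • y) =
      l ^ Module.finrank ℝ E • ∫ x : E, F ‖l • x‖ • g x := by
    rw [h, smul_smul, mul_inv_cancel₀ hpos.ne', one_smul]
  rw [h2, ← integral_smul]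
  congr 1; ext x
  simp only [dil, smul_smul]

theorem V_dil {b : ℝ} {F : ℝ → ℝ} (hF : ∀ r, 1 ≤ r → F r = 0) {l : ℝ} (hl : 0 < l) (x : E) :
    ∫ y, dil E F l y • kerG b (x - y) = l ^ b • Vint b (ball (0:E) 1) F (l • x) := by
  rw [integral_dil F hl (fun y => kerG b (x - y)), Vint_eq_full hF, ← integral_smul]
  congr 1; ext y
  have e : x - l⁻¹ • y = l⁻¹ • (l • x - y) := by
    rw [smul_sub, smul_smul, inv_mul_cancel₀ hl.ne', one_smul]
  rw [e, kerG_smul b (inv_pos.2 hl), smul_smul, smul_smul, Real.inv_rpow hl.le,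
    Real.rpow_neg hl.le, inv_inv, mul_comm]

theorem flux_dil {b m m0 p : ℝ} {F : ℝ → ℝ} (hF0 : ∀ r, 0 ≤ F r) (hF : ∀ r, 1 ≤ r → F r = 0)
    (hprof : ∀ x : E, (F ‖x‖) ^ (m - 1) • Vint b (ball (0:E) 1) F x = (m0 * F ‖x‖) • x)
    (hp : p = Module.finrank ℝ E * (m - 1) + b + 1 - Module.finrank ℝ E) {l : ℝ} (hl : 0 < l)
    (x : E) :
    (dil E F l x) ^ (m - 1) • ∫ y, dil E F l y • kerG b (x - y) =
      (m0 * l ^ p * dil E F l x) • x := by
  rw [V_dil hF hl]
  have h := hprof (l • x)
  set N : ℝ := (Module.finrank ℝ E : ℝ) with hN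
  have e1 : (dil E F l x) ^ (m - 1) = l ^ (N * (m - 1)) * (F ‖l • x‖) ^ (m - 1) := by
    unfold dil
    rw [Real.mul_rpow (by positivity) (hF0 _), ← Real.rpow_natCast, ← Real.rpow_mul hl.le]
  rw [e1]
  calc (l ^ (N * (m - 1)) * F ‖l • x‖ ^ (m - 1)) • l ^ b • Vint b (ball 0 1) F (l • x)
      = (l ^ (N * (m - 1)) * l ^ b) • (F ‖l • x‖ ^ (m - 1) • Vint b (ball 0 1) F (l • x)) := by
        simp only [smul_smul]; congr 1; ring
    _ = (l ^ (N * (m - 1)) * l ^ b) • ((m0 * F ‖l • x‖) • (l • x)) := by rw [h]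
    _ = (m0 * l ^ p * dil E F l x) • x := by
        simp only [smul_smul]
        congr 1
        have e2 : dil E F l x = l ^ N * F ‖l • x‖ := by
          rw [dil, hN, Real.rpow_natCast]
        rw [e2]
        have e3 : l ^ p * l ^ N = l ^ (N * (m - 1)) * l ^ b * l := by
          nth_rewrite 5 [← Real.rpow_one l]
          rw [← Real.rpow_add hl, ← Real.rpow_add hl, ← Real.rpow_add hl]
          congr 1; rw [hp]; ring
        calc l ^ (N * (m - 1)) * l ^ b * (m0 * F ‖l • x‖ * l)
            = m0 * F ‖l • x‖ * (l ^ (N * (m - 1)) * l ^ b * l) := by ring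
          _ = m0 * F ‖l • x‖ * (l ^ p * l ^ N) := by rw [e3]
          _ = m0 * l ^ p * (l ^ N * F ‖l • x‖) := by ring

theorem Vint_bdd {b : ℝ} (hb0 : 0 < b) (hb : b < Module.finrank ℝ E) {F : ℝ → ℝ}
    {C : ℝ} (hF0 : ∀ r, 0 ≤ F r) (hFC : ∀ r, F r ≤ C) (r : ℝ) :
    ∃ M : ℝ, ∀ x : E, ‖x‖ ≤ r → ‖Vint b (ball (0:E) 1) F x‖ ≤ M := by
  refine ⟨C * ∫ z in ball (0:E) (r + 1), ‖kerG b z‖, ?_⟩
  intro x hx
  have hC : 0 ≤ C := (hF0 0).trans (hFC 0)
  unfold Vint
  have hI := integrableOn_kerG_sub (E := E) hb0.ne' hb x (Subset.refl (ball (0:E) 1))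
  calc ‖∫ y in ball (0:E) 1, F ‖y‖ • kerG b (x - y)‖
      ≤ ∫ y in ball (0:E) 1, C * ‖kerG b (x - y)‖ := by
        apply norm_integral_le_of_norm_le (hI.norm.const_mul C)
        refine Eventually.of_forall fun y => ?_
        rw [norm_smul, Real.norm_of_nonneg (hF0 _)]
        exact mul_le_mul_of_nonneg_right (hFC _) (norm_nonneg _)
    _ = C * ∫ y in ball (0:E) 1, ‖kerG b (x - y)‖ := integral_const_mul _ _
    _ ≤ C * ∫ z in ball (0:E) (r + 1), ‖kerG b z‖ := by
        apply mul_le_mul_of_nonneg_left _ hC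
        have h1 : ∫ y in ball (0:E) 1, ‖kerG b (x - y)‖ ≤
            ∫ y, (ball (0:E) (r + 1)).indicator (fun z => ‖kerG b z‖) (x - y) := by
          rw [← integral_indicator measurableSet_ball]
          apply integral_mono
          · exact (integrable_indicator_iff measurableSet_ball).2 hI.norm
          · have : Integrable ((ball (0:E) (r + 1)).indicator (fun z => ‖kerG b z‖)) :=
              (integrable_indicator_iff measurableSet_ball).2 (integrableOn_kerG hb0.ne' hb _).norm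
            exact this.comp_sub_left x
          · intro y
            by_cases hy : y ∈ ball (0:E) 1
            · have hmem : x - y ∈ ball (0:E) (r + 1) := by
                rw [mem_ball_zero_iff] at hy ⊢
                calc ‖x - y‖ ≤ ‖x‖ + ‖y‖ := norm_sub_le _ _
                  _ < r + 1 := by linarith
              rw [indicator_of_mem hy]
              change _ ≤ (ball (0:E) (r + 1)).indicator (fun z => ‖kerG b z‖) (x - y)
              rw [indicator_of_mem hmem]
            · rw [indicator_of_notMem hy]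
              exact indicator_nonneg (fun _ _ => norm_nonneg _) _
        refine h1.trans (le_of_eq ?_)
        rw [integral_sub_left_eq_self
          (fun z : E => (ball (0:E) (r + 1)).indicator (fun z => ‖kerG b z‖) z),
          integral_indicator measurableSet_ball]

end Pool.Agent.H.MP_4eb066_an
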