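import Mathlib

open MeasureTheory Set Metric Filter Topology
open scoped ENNReal NNReal

noncomputable section

namespace Pool.Agent.H.MP_4eb066_an

variable {μ : Measure ℝ} [NullSingletonClass μ] {g g' : ℝ → ℝ} {α β m : ℝ}

theorem exists_tau (hg : Integrable g μ) (hαβ : α ≤ β) (hm0 : 0 ≤ m)
    (hm : m ≤ ∫ r in Ico α β, g r ∂μ) : ∃ τ ∈ Icc α β, ∫ r in Ico α τ, g r ∂μ = m := by
  have hc : Continuous (fun τ => ∫ x in α..τ, g x ∂μ) := hg.continuous_primitive α
  have e : ∀ τ, α ≤ τ → ∫ x in α..τ, g x ∂μ = ∫ r in Ico α τ, g r ∂μ := by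
    intro τ hτ
    rw [intervalIntegral.integral_of_le hτ, integral_Ico_eq_integral_Ioc]
  have h1 : m ∈ Icc (∫ x in α..α, g x ∂μ) (∫ x in α..β, g x ∂μ) := by
    rw [intervalIntegral.integral_same, e β hαβ]
    exact ⟨hm0, hm⟩
  obtain ⟨τ, hτ, hτ2⟩ := intermediate_value_Icc hαβ hc.continuousOn h1
  exact ⟨τ, hτ, by rw [← e τ hτ.1]; exact hτ2⟩

omit [NullSingletonClass μ] in
theorem shell_compare_aux (hg : Integrable g μ) (hg' : Integrable g' μ)
    {τ τ' : ℝ} (hτ : τ ∈ Icc α β) (hτ' : τ' ∈ Icc α β) (hle : τ ≤ τ')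
    (hpos : ∀ r ∈ Ico α β, 0 ≤ g' r)
    (hm : ∫ r in Ico α τ, g r ∂μ = m) (hm' : ∫ r in Ico α τ', g' r ∂μ = m) :
    ∫ r in Ico α β, |(Ico α τ).indicator g r - (Ico α τ').indicator g' r| ∂μ
      ≤ 2 * ∫ r in Ico α β, |g r - g' r| ∂μ := by
  have hs1 : Ico α τ ⊆ Ico α β := Ico_subset_Ico_right hτ.2
  have hs2 : Ico τ τ' ⊆ Ico α β := Ico_subset_Ico hτ.1 hτ'.2
  have hsub := hg.sub hg'
  -- pointwise bound
  have hpt : ∀ r ∈ Ico α β, |(Ico α τ).indicator g r - (Ico α τ').indicator g' r| ≤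
      (Ico α τ).indicator (fun r => |g r - g' r|) r + (Ico τ τ').indicator g' r := by
    intro r hr
    rcases lt_or_ge r τ with h1 | h1
    · have m1 : r ∈ Ico α τ := ⟨hr.1, h1⟩
      have m2 : r ∈ Ico α τ' := ⟨hr.1, lt_of_lt_of_le h1 hle⟩
      have m3 : r ∉ Ico τ τ' := fun h => absurd h.1 (not_le.2 h1)
      rw [indicator_of_mem m1, indicator_of_mem m2, indicator_of_mem m1, indicator_of_notMem m3,
        add_zero]
    · have m1 : r ∉ Ico α τ := fun h => absurd h.2 (not_lt.2 h1)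
      rcases lt_or_ge r τ' with h2 | h2
      · have m2 : r ∈ Ico α τ' := ⟨hr.1, h2⟩
        have m3 : r ∈ Ico τ τ' := ⟨h1, h2⟩
        rw [indicator_of_notMem m1, indicator_of_mem m2, indicator_of_notMem m1,
          indicator_of_mem m3, zero_sub, abs_neg, zero_add, abs_of_nonneg (hpos r hr)]
      · have m2 : r ∉ Ico α τ' := fun h => absurd h.2 (not_lt.2 h2)
        have m3 : r ∉ Ico τ τ' := fun h => absurd h.2 (not_lt.2 h2)
        rw [indicator_of_notMem m1, indicator_of_notMem m2, indicator_of_notMem m1,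
          indicator_of_notMem m3]
        simp
  have i1 : Integrable ((Ico α τ).indicator (fun r => |g r - g' r|)) μ :=
    hsub.abs.indicator measurableSet_Ico
  have i2 : Integrable ((Ico τ τ').indicator g') μ := hg'.indicator measurableSet_Ico
  have i3 : Integrable (fun r => |(Ico α τ).indicator g r - (Ico α τ').indicator g' r|) μ :=
    ((hg.indicator measurableSet_Ico).sub (hg'.indicator measurableSet_Ico)).abs
  have step1 : ∫ r in Ico α β, |(Ico α τ).indicator g r - (Ico α τ').indicator g' r| ∂μ ≤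
      (∫ r in Ico α τ, |g r - g' r| ∂μ) + ∫ r in Ico τ τ', g' r ∂μ := by
    calc _ ≤ ∫ r in Ico α β, ((Ico α τ).indicator (fun r => |g r - g' r|) r +
          (Ico τ τ').indicator g' r) ∂μ :=
          setIntegral_mono_on i3.integrableOn (i1.add i2).integrableOn measurableSet_Ico hpt
      _ = _ := by
          rw [integral_add i1.integrableOn i2.integrableOn, setIntegral_indicator measurableSet_Ico,
            setIntegral_indicator measurableSet_Ico, inter_eq_right.2 hs1, inter_eq_right.2 hs2]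
  have step2 : ∫ r in Ico τ τ', g' r ∂μ = ∫ r in Ico α τ, (g r - g' r) ∂μ := by
    rw [integral_sub hg.integrableOn hg'.integrableOn, hm, ← hm']
    have : Ico α τ' = Ico α τ ∪ Ico τ τ' := (Ico_union_Ico_eq_Ico hτ.1 hle).symm
    rw [this, setIntegral_union _ measurableSet_Ico hg'.integrableOn hg'.integrableOn]
    · ring
    · rw [Set.disjoint_left]
      rintro r h1 h2
      exact absurd h1.2 (not_lt.2 h2.1)
  have step3 : ∫ r in Ico α τ, (g r - g' r) ∂μ ≤ ∫ r in Ico α τ, |g r - g' r| ∂μ :=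
    integral_mono hsub.integrableOn hsub.abs.integrableOn (fun r => le_abs_self _)
  have step4 : ∫ r in Ico α τ, |g r - g' r| ∂μ ≤ ∫ r in Ico α β, |g r - g' r| ∂μ :=
    setIntegral_mono_set hsub.abs.integrableOn (Eventually.of_forall fun _ => abs_nonneg _)
      (HasSubset.Subset.eventuallyLE hs1)
  rw [step2] at step1
  linarith

omit [NullSingletonClass μ] in
theorem shell_compare (hg : Integrable g μ) (hg' : Integrable g' μ)
    {τ τ' : ℝ} (hτ : τ ∈ Icc α β) (hτ' : τ' ∈ Icc α β)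
    (hpos : ∀ r ∈ Ico α β, 0 ≤ g r) (hpos' : ∀ r ∈ Ico α β, 0 ≤ g' r)
    (hm : ∫ r in Ico α τ, g r ∂μ = m) (hm' : ∫ r in Ico α τ', g' r ∂μ = m) :
    ∫ r in Ico α β, |(Ico α τ).indicator g r - (Ico α τ').indicator g' r| ∂μ
      ≤ 2 * ∫ r in Ico α β, |g r - g' r| ∂μ := by
  rcases le_total τ τ' with h | h
  · exact shell_compare_aux hg hg' hτ hτ' h hpos' hm hm'
  · have := shell_compare_aux hg' hg hτ' hτ h hpos hm' hm
    simpa only [abs_sub_comm] using this

end Pool.Agent.H.MP_4eb066_an
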