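import Pool.Agent.H.MP_4eb066_an.Nu
import Pool.Agent.H.MP_4eb066_an.Tau
import Pool.Agent.H.MP_4eb066_an.Part

open MeasureTheory Set Metric Filter Topology
open scoped ENNReal NNReal RealInnerProductSpace

noncomputable section

set_option linter.unusedSectionVars false

namespace Pool.Agent.H.MP_4eb066_an

variable {E : Type*} [NormedAddCommGroup E] [InnerProductSpace ℝ E]
  [MeasurableSpace E] [BorelSpace E] [FiniteDimensional ℝ E] [Nontrivial E]

/-- All constants of the fixed-point construction. -/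
structure Setup (E : Type*) [NormedAddCommGroup E] [InnerProductSpace ℝ E]
    [MeasurableSpace E] [BorelSpace E] [FiniteDimensional ℝ E] [Nontrivial E] where
  b : ℝ
  q : ℝ
  e : E
  m0 : ℝ
  W : ℝ
  C : ℝ
  η : ℝ
  L : ℝ
  n : ℕ → ℕ
  he : ‖e‖ = 1
  hb0 : 0 < b
  hb : b < Module.finrank ℝ E
  hq : 0 ≤ q
  hm0 : 0 < m0
  hW : m0 ≤ W
  hC : C = (W / m0) ^ q
  hη : 0 < η
  hη1 : η * (C + 1) ≤ m0
  hL0 : 0 ≤ L
  hL : ∀ t ∈ Icc m0 W, ∀ t' ∈ Icc m0 W, |(t / m0) ^ q - (t' / m0) ^ q| ≤ L * |t - t'|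
  hLη : 2 * (L * η) ≤ 1 / 2
  hn : ∀ k, 0 < n k
  hphi : ∀ r ∈ Ioo (0:ℝ) 1, 2 * m0 ≤ om b e phi r ∧ om b e phi r ≤ W - m0
  sub : ∀ d : ℝ → ℝ, Measurable d → ∀ C : ℝ,
      (∀ᵐ y ∂(volume.restrict (ball (0:E) 1)), |d ‖y‖| ≤ C) →
      (∀ k, ∀ j < n k, ∫ y in shell E (pt n k j) (pt n k (j+1)), d ‖y‖ = 0) →
      (∀ x ∈ closedBall (0:E) 1, ‖Vint b (ball (0:E) 1) d x‖ ≤ η * C * ‖x‖) ∧
      (∫⁻ x in ball (0:E) 1, ‖x‖ₑ⁻¹ * ‖Vint b (ball (0:E) 1) d x‖ₑ ≤
        ENNReal.ofReal η * ∫⁻ y in ball (0:E) 1, ‖d ‖y‖‖ₑ)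

theorem exists_setup {b q : ℝ} (hb0 : 0 < b) (hb : b < Module.finrank ℝ E) (hq : 0 ≤ q) :
    ∃ S : Setup E, S.b = b ∧ S.q = q := by
  obtain ⟨e, he⟩ : ∃ e : E, ‖e‖ = 1 := exists_norm_eq E zero_le_one
  obtain ⟨C2, hC20, hC2⟩ := Vint_phi_upper (E := E) hb0 hb
  obtain ⟨c0, hc0, hc0'⟩ := Vint_phi_lower (E := E) hb0 hb
  have hlow : ∀ r ∈ Ioo (0:ℝ) 1, c0 ≤ om b e phi r := by
    intro r hr
    have hx : ‖r • e‖ = r := by rw [norm_smul, he, mul_one, Real.norm_of_nonneg hr.1.le]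
    have h1 := hc0' (r • e) (by rw [mem_closedBall_zero_iff, hx]; exact hr.2.le)
    rw [Vint_eq_om b he phi (r • e), inner_smul_left, real_inner_self_eq_norm_sq, hx] at h1
    have h2 : 0 < r ^ 2 := by have := hr.1; positivity
    exact le_of_mul_le_mul_right (by simpa using h1) h2
  have hup : ∀ r ∈ Ioo (0:ℝ) 1, om b e phi r ≤ C2 := by
    intro r hr
    have hx : ‖r • e‖ = r := by rw [norm_smul, he, mul_one, Real.norm_of_nonneg hr.1.le]
    have h1 := hC2 (r • e) (by rw [mem_closedBall_zero_iff, hx]; exact hr.2.le)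
    rw [← om_norm_bound b he phi (r • e), hx] at h1
    have := le_of_mul_le_mul_right h1 hr.1
    exact (le_abs_self _).trans this
  set m0 : ℝ := c0 / 2 with hm0
  have hm0p : 0 < m0 := by positivity
  set W : ℝ := C2 + m0 with hW
  have hWm : m0 ≤ W := by linarith
  set C : ℝ := (W / m0) ^ q with hC
  have hC0 : 0 ≤ C := by
    rw [hC]; apply Real.rpow_nonneg; apply div_nonneg <;> linarith
  obtain ⟨K, hK⟩ : ∃ K : ℝ≥0, LipschitzOnWith K (fun t : ℝ => (t / m0) ^ q) (Icc m0 W) := by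
    apply ContDiffOn.exists_lipschitzOnWith (n := 1) _ (by norm_num) (convex_Icc _ _)
      isCompact_Icc
    intro t ht
    apply ContDiffAt.contDiffWithinAt
    have ht0 : t / m0 ≠ 0 := by
      have : 0 < t := hm0p.trans_le ht.1
      positivity
    exact (contDiffAt_id.div_const m0).rpow_const_of_ne ht0
  set L : ℝ := (K : ℝ) with hLdef
  have hL0 : 0 ≤ L := K.2
  set η : ℝ := min (m0 / (C + 1)) (1 / (4 * (L + 1))) with hη
  have hη0 : 0 < η := by
    rw [hη]; apply lt_min <;> positivity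
  obtain ⟨n, hn, hsub⟩ := exists_subdivision (E := E) hb0 hb hη0
  refine ⟨{ b := b, q := q, e := e, m0 := m0, W := W, C := C, η := η, L := L, n := n,
            he := he, hb0 := hb0, hb := hb, hq := hq, hm0 := hm0p, hW := hWm, hC := rfl,
            hη := hη0, hη1 := ?_, hL0 := hL0, hL := ?_, hLη := ?_, hn := hn, hphi := ?_,
            sub := ?_ }, rfl, rfl⟩
  · have h1 : η ≤ m0 / (C + 1) := min_le_left _ _
    rwa [le_div_iff₀ (by positivity)] at h1
  · intro t ht t' ht'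
    have := hK.dist_le_mul t ht t' ht'
    rwa [Real.dist_eq, Real.dist_eq] at this
  · have h1 : η ≤ 1 / (4 * (L + 1)) := min_le_right _ _
    rw [le_div_iff₀ (by positivity)] at h1
    nlinarith
  · intro r hr
    exact ⟨by have := hlow r hr; linarith, by have := hup r hr; linarith⟩
  · intro d hd C' hC' hmass
    exact hsub d hd C' hC' hmass

end Pool.Agent.H.MP_4eb066_an
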