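import Pool.Agent.H.MP_4eb066_an.Cutoff

/-! Radial functions with zero mass in a thin shell. -/

open MeasureTheory Set Metric Filter Topology
open scoped ENNReal NNReal

noncomputable section

namespace Pool.Agent.H.MP_4eb066_an

variable {E : Type*} [NormedAddCommGroup E] [InnerProductSpace ℝ E]
  [MeasurableSpace E] [BorelSpace E] [FiniteDimensional ℝ E] [Nontrivial E]
variable {F : Type*} [NormedAddCommGroup F] [NormedSpace ℝ F]

theorem integral_radial_direction (d : ℝ → ℝ) (H : E → F) :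
    ∫ y : E, d ‖y‖ • H (‖y‖⁻¹ • y) =
      (∫ r : Ioi (0:ℝ), d r ∂(Measure.volumeIoiPow (Module.finrank ℝ E - 1))) •
        (∫ w : sphere (0:E) 1, H w ∂((volume : Measure E).toSphere)) := by
  calc
    ∫ y : E, d ‖y‖ • H (‖y‖⁻¹ • y) = ∫ x : ({(0)}ᶜ : Set E), d ‖x.1‖ • H (‖x.1‖⁻¹ • x.1)
        ∂((volume : Measure E).comap (↑)) := by
      rw [integral_subtype_comap (measurableSet_singleton _).compl
        fun x : E ↦ d ‖x‖ • H (‖x‖⁻¹ • x), restrict_compl_singleton]
    _ = ∫ z, d z.2 • H z.1 ∂((volume : Measure E).toSphere.prod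
          (.volumeIoiPow (Module.finrank ℝ E - 1))) := by
      simpa using (volume : Measure E).measurePreserving_homeomorphUnitSphereProd.integral_comp
        (Homeomorph.measurableEmbedding _) (fun z => d z.2 • H z.1)
    _ = ∫ z, d z.1 • H z.2 ∂((Measure.volumeIoiPow (Module.finrank ℝ E - 1)).prod
          (volume : Measure E).toSphere) := by
      rw [← integral_prod_swap]
      rfl
    _ = _ := by
      rw [integral_prod_smul (fun r : Ioi (0:ℝ) => d r) (fun w : sphere (0:E) 1 => H w)]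

theorem integral_radial_direction_eq_zero {d : ℝ → ℝ} (h0 : ∫ y : E, d ‖y‖ = 0) (H : E → F) :
    ∫ y : E, d ‖y‖ • H (‖y‖⁻¹ • y) = 0 := by
  have h1 := integral_radial_direction (E := E) (F := ℝ) d (fun _ => 1)
  simp only [smul_eq_mul, mul_one, integral_const] at h1
  rw [h0] at h1
  have h2 : ((volume : Measure E).toSphere).real univ ≠ 0 := by
    rw [Measure.toSphere_real_apply_univ]
    have hd : (Module.finrank ℝ E : ℝ) ≠ 0 := by
      exact_mod_cast (Module.finrank_pos (R := ℝ) (M := E)).ne'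
    have hb : (volume : Measure E).real (ball 0 1) ≠ 0 := by
      rw [measureReal_def]
      exact (ENNReal.toReal_pos (measure_ball_pos _ _ one_pos).ne' measure_ball_lt_top.ne).ne'
    exact mul_ne_zero hd hb
  have h3 : (∫ r : Ioi (0:ℝ), d r ∂(Measure.volumeIoiPow (Module.finrank ℝ E - 1))) = 0 := by
    rcases mul_eq_zero.1 h1.symm with h | h
    · exact h
    · exact absurd h h2
  rw [integral_radial_direction, h3, zero_smul]

/-- The spherical shell `a ≤ |y| < c`. -/
def shell (E : Type*) [NormedAddCommGroup E] (a c : ℝ) : Set E := {y | ‖y‖ ∈ Ico a c}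

theorem measurableSet_shell (a c : ℝ) : MeasurableSet (shell E a c) :=
  measurable_norm measurableSet_Ico

theorem integral_shell (a c : ℝ) (g : ℝ → ℝ) (Ψ : E → F) :
    ∫ y in shell E a c, g ‖y‖ • Ψ y = ∫ y : E, ((Ico a c).indicator g ‖y‖) • Ψ y := by
  rw [← integral_indicator (measurableSet_shell a c)]
  congr 1
  ext y
  by_cases hy : ‖y‖ ∈ Ico a c
  · rw [indicator_of_mem (show y ∈ shell E a c from hy), indicator_of_mem hy]
  · rw [indicator_of_notMem (show y ∉ shell E a c from hy), indicator_of_notMem hy, zero_smul]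

theorem shell_bound {a c : ℝ} (ha : 0 < a) (hac : a ≤ c) (hc1 : c ≤ 1) {d : ℝ → ℝ}
    (hd : IntegrableOn (fun y : E => d ‖y‖) (shell E a c))
    (h0 : ∫ y in shell E a c, d ‖y‖ = 0) {Ψ : E → F} (hΨ : Continuous Ψ) {L : ℝ}
    (hL : ∀ y ∈ closedBall (0 : E) 1, ∀ y' ∈ closedBall (0 : E) 1, ‖Ψ y - Ψ y'‖ ≤ L * ‖y - y'‖)
    (hL0 : 0 ≤ L) :
    ‖∫ y in shell E a c, d ‖y‖ • Ψ y‖ ≤ L * (c - a) * ∫ y in shell E a c, |d ‖y‖| := by
  -- the projected function
  set P : E → E := fun y => a • (‖y‖⁻¹ • y) with hP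
  have hPm : Measurable P := by
    apply Measurable.const_smul
    exact (measurable_norm.inv).smul measurable_id
  have hmem : ∀ y ∈ shell E a c, y ∈ closedBall (0:E) 1 := by
    intro y hy
    have : ‖y‖ < c := hy.2
    simp; linarith
  have hPnorm : ∀ y ∈ shell E a c, ‖P y‖ = a := by
    intro y hy
    have hy0 : 0 < ‖y‖ := lt_of_lt_of_le ha hy.1
    simp [hP, norm_smul, abs_of_pos ha, hy0.ne']
  have hPdist : ∀ y ∈ shell E a c, ‖y - P y‖ ≤ c - a := by
    intro y hy
    have hy0 : 0 < ‖y‖ := lt_of_lt_of_le ha hy.1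
    have e : y - P y = (1 - a * ‖y‖⁻¹) • y := by
      simp only [hP]; rw [smul_smul, sub_smul, one_smul]
    have h1 : 0 ≤ 1 - a * ‖y‖⁻¹ := by
      rw [sub_nonneg, ← div_eq_mul_inv, div_le_one hy0]; exact hy.1
    rw [e, norm_smul, Real.norm_of_nonneg h1, sub_mul, one_mul, mul_assoc,
      inv_mul_cancel₀ hy0.ne', mul_one]
    linarith [hy.2.le]
  have hzero : ∫ y in shell E a c, d ‖y‖ • Ψ (P y) = 0 := by
    rw [integral_shell]
    apply integral_radial_direction_eq_zero (d := (Ico a c).indicator d) (E := E)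
      (H := fun w => Ψ (a • w))
    have := integral_shell (E := E) a c d (fun _ => (1:ℝ))
    simp only [smul_eq_mul, mul_one] at this
    rw [← this]; exact h0
  have hbd : ∀ (Q : E → E), Measurable Q → (∀ y ∈ shell E a c, Q y ∈ closedBall (0:E) 1) →
      IntegrableOn (fun y : E => d ‖y‖ • Ψ (Q y)) (shell E a c) := by
    intro Q hQ hQm
    obtain ⟨K, hK⟩ := (isCompact_closedBall (0 : E) 1).exists_bound_of_continuousOn hΨ.continuousOn
    have h1 : Integrable (fun y : E => d ‖y‖ * K) (volume.restrict (shell E a c)) := hd.mul_const K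
    refine h1.mono (hd.aestronglyMeasurable.smul
      (hΨ.comp_aestronglyMeasurable hQ.aestronglyMeasurable)) ?_
    filter_upwards [ae_restrict_mem (measurableSet_shell a c)] with y hy
    rw [norm_smul, norm_mul]
    gcongr
    exact (hK _ (hQm y hy)).trans (le_abs_self K)
  have hI1 : IntegrableOn (fun y : E => d ‖y‖ • Ψ y) (shell E a c) := hbd id measurable_id hmem
  have hI2 := hbd P hPm (fun y hy => by
    rw [mem_closedBall_zero_iff, hPnorm y hy]; linarith)
  have e : ∫ y in shell E a c, d ‖y‖ • Ψ y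
      = ∫ y in shell E a c, d ‖y‖ • (Ψ y - Ψ (P y)) := by
    have : ∫ y in shell E a c, d ‖y‖ • (Ψ y - Ψ (P y)) =
        (∫ y in shell E a c, d ‖y‖ • Ψ y) - ∫ y in shell E a c, d ‖y‖ • Ψ (P y) := by
      rw [← integral_sub hI1 hI2]
      simp [smul_sub]
    rw [this, hzero, sub_zero]
  rw [e]
  calc ‖∫ y in shell E a c, d ‖y‖ • (Ψ y - Ψ (P y))‖
      ≤ ∫ y in shell E a c, ‖d ‖y‖ • (Ψ y - Ψ (P y))‖ := norm_integral_le_integral_norm _
    _ ≤ ∫ y in shell E a c, L * (c - a) * |d ‖y‖| := by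
        apply setIntegral_mono_on
        · have : IntegrableOn (fun y : E => ‖d ‖y‖ • Ψ y - d ‖y‖ • Ψ (P y)‖) (shell E a c) :=
            (hI1.sub hI2).norm
          simpa only [smul_sub] using this
        · exact (hd.norm.const_mul _)
        · exact measurableSet_shell a c
        · intro y hy
          rw [norm_smul, Real.norm_eq_abs, mul_comm]
          gcongr
          calc ‖Ψ y - Ψ (P y)‖ ≤ L * ‖y - P y‖ := hL _ (hmem y hy) _ (by
                rw [mem_closedBall_zero_iff, hPnorm y hy]; linarith)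
            _ ≤ L * (c - a) := by gcongr; exact hPdist y hy
    _ = L * (c - a) * ∫ y in shell E a c, |d ‖y‖| := by
        rw [integral_const_mul]

end Pool.Agent.H.MP_4eb066_an
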