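import Pool.Agent.H.MP_4eb066_an.Scaling

open MeasureTheory Set Metric Filter Topology
open scoped ENNReal NNReal RealInnerProductSpace ContDiff

noncomputable section

set_option linter.unusedSectionVars false

namespace Pool.Agent.H.MP_4eb066_an

variable {E : Type*} [NormedAddCommGroup E] [InnerProductSpace ℝ E]
  [MeasurableSpace E] [BorelSpace E] [FiniteDimensional ℝ E] [Nontrivial E]

/-- time factor -/
def tau1 (γ t : ℝ) : ℝ := 1 + γ * t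

/-- dilation factor -/
def Lf (p γ t : ℝ) : ℝ := (tau1 γ t) ^ (1 / p)

theorem tau1_pos {γ t : ℝ} (hγ : 0 ≤ γ) (ht : 0 ≤ t) : 0 < tau1 γ t := by
  unfold tau1; positivity

theorem one_le_tau1 {γ t : ℝ} (hγ : 0 ≤ γ) (ht : 0 ≤ t) : 1 ≤ tau1 γ t := by
  unfold tau1; have := mul_nonneg hγ ht; linarith

theorem Lf_pos {p γ t : ℝ} (hγ : 0 ≤ γ) (ht : 0 ≤ t) : 0 < Lf p γ t :=
  Real.rpow_pos_of_pos (tau1_pos hγ ht) _

theorem one_le_Lf {p γ t : ℝ} (hp : 0 < p) (hγ : 0 ≤ γ) (ht : 0 ≤ t) : 1 ≤ Lf p γ t :=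
  Real.one_le_rpow (one_le_tau1 hγ ht) (by positivity)

theorem Lf_mono {p γ t t' : ℝ} (hp : 0 < p) (hγ : 0 ≤ γ) (ht : 0 ≤ t) (h : t ≤ t') :
    Lf p γ t ≤ Lf p γ t' := by
  unfold Lf
  apply Real.rpow_le_rpow (tau1_pos hγ ht).le
  · unfold tau1; have := mul_le_mul_of_nonneg_left h hγ; linarith
  · positivity

theorem hasDerivAt_Lf {p k t : ℝ} (hp : 0 < p) (hk : 0 ≤ k) (ht : 0 ≤ t) :
    HasDerivAt (fun t => Lf p (p * k) t) (k / tau1 (p * k) t * Lf p (p * k) t) t := by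
  have hpos : 0 < tau1 (p * k) t := tau1_pos (by positivity) ht
  have h1 : HasDerivAt (fun t => tau1 (p * k) t) (p * k) t := by
    unfold tau1
    simpa using ((hasDerivAt_id t).const_mul (p * k)).const_add 1
  have h2 := h1.rpow_const (p := 1 / p) (Or.inl hpos.ne')
  refine h2.congr_deriv ?_
  unfold Lf
  rw [Real.rpow_sub hpos, Real.rpow_one]
  field_simp

theorem continuous_tau1 (γ : ℝ) : Continuous (tau1 γ) := by unfold tau1; fun_prop

theorem continuousOn_Lf (p : ℝ) {γ : ℝ} (hγ : 0 ≤ γ) : ContinuousOn (Lf p γ) (Ici 0) := by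
  unfold Lf
  apply ContinuousOn.rpow_const (continuous_tau1 γ).continuousOn
  intro t ht
  left
  exact (tau1_pos hγ ht).ne'

theorem measurable_Lf (p γ : ℝ) : Measurable (Lf p γ) :=
  (continuous_tau1 γ).measurable.pow_const _

section
variable {T : ℝ} {Φ : ℝ × E → ℝ}

/-- space-time derivative within the slab -/
def Dw (T : ℝ) (Φ : ℝ × E → ℝ) (p : ℝ × E) : ℝ × E →L[ℝ] ℝ :=
  fderivWithin ℝ Φ (Ico 0 T ×ˢ univ) p

theorem slab_unique : UniqueDiffOn ℝ (Ico (0:ℝ) T ×ˢ (univ : Set E)) :=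
  (uniqueDiffOn_Ico 0 T).prod uniqueDiffOn_univ

theorem slab_nhds {t : ℝ} (ht : t ∈ Ioo 0 T) (x : E) :
    Ico (0:ℝ) T ×ˢ (univ : Set E) ∈ 𝓝 (t, x) := by
  rw [nhds_prod_eq]
  exact prod_mem_prod (mem_of_superset (Ioo_mem_nhds ht.1 ht.2) Ioo_subset_Ico_self) univ_mem

theorem Dw_continuousOn (hΦ : ContDiffOn ℝ 1 Φ (Ico 0 T ×ˢ univ)) :
    ContinuousOn (Dw T Φ) (Ico 0 T ×ˢ univ) :=
  hΦ.continuousOn_fderivWithin slab_unique le_rfl

theorem Dw_hasFDerivAt (hΦ : ContDiffOn ℝ 1 Φ (Ico 0 T ×ˢ univ)) {t : ℝ} (ht : t ∈ Ioo 0 T)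
    (x : E) : HasFDerivAt Φ (Dw T Φ (t, x)) (t, x) := by
  have h1 : DifferentiableWithinAt ℝ Φ (Ico 0 T ×ˢ univ) (t, x) :=
    (hΦ.differentiableOn (by norm_num)) (t, x) ⟨⟨ht.1.le, ht.2⟩, mem_univ _⟩
  exact h1.hasFDerivWithinAt.hasFDerivAt (slab_nhds ht x)

theorem Dw_deriv_t (hΦ : ContDiffOn ℝ 1 Φ (Ico 0 T ×ˢ univ)) {t : ℝ} (ht : t ∈ Ioo 0 T)
    (x : E) : deriv (fun r => Φ (r, x)) t = Dw T Φ (t, x) (1, 0) := by
  have h1 : HasDerivAt (fun r : ℝ => (r, x)) ((1 : ℝ), (0 : E)) t :=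
    (hasDerivAt_id t).prodMk (hasDerivAt_const t x)
  exact ((Dw_hasFDerivAt hΦ ht x).comp_hasDerivAt t h1).deriv

theorem Dw_fderiv_x (hΦ : ContDiffOn ℝ 1 Φ (Ico 0 T ×ˢ univ)) {t : ℝ} (ht : t ∈ Ioo 0 T)
    (x v : E) : fderiv ℝ (fun z => Φ (t, z)) x v = Dw T Φ (t, x) (0, v) := by
  have h1 : HasFDerivAt (fun z : E => (t, z)) ((0 : E →L[ℝ] ℝ).prod (ContinuousLinearMap.id ℝ E)) x :=
    (hasFDerivAt_const t x).prodMk (hasFDerivAt_id x)
  have h2 := (Dw_hasFDerivAt hΦ ht x).comp x h1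
  have h3 : fderiv ℝ (fun z => Φ (t, z)) x =
      (Dw T Φ (t, x)).comp ((0 : E →L[ℝ] ℝ).prod (ContinuousLinearMap.id ℝ E)) := h2.fderiv
  rw [h3]; simp

theorem Dw_bound (hT : 0 < T) (hΦ : ContDiffOn ℝ 1 Φ (Ico 0 T ×ˢ univ))
    (hv : ∃ T' < T, ∀ t, T' < t → t < T → ∀ x, Φ (t, x) = 0) (R R2 : ℝ) :
    ∃ M : ℝ, ∀ t ∈ Ioo 0 T, ∀ x : E, ‖x‖ ≤ R → ∀ w : ℝ × E, ‖w‖ ≤ R2 →
      |Dw T Φ (t, x) w| ≤ M := by
  obtain ⟨T', hT', hz⟩ := hv
  set T2 := max T' 0 with hT2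
  have hT2T : T2 < T := max_lt hT' hT
  have hK : IsCompact ((Icc (0:ℝ) T2 ×ˢ closedBall (0:E) R) ×ˢ closedBall (0 : ℝ × E) R2) :=
    (isCompact_Icc.prod (isCompact_closedBall _ _)).prod (isCompact_closedBall _ _)
  have hsub : Icc (0:ℝ) T2 ×ˢ closedBall (0:E) R ⊆ Ico 0 T ×ˢ univ :=
    prod_mono (fun t ht => ⟨ht.1, ht.2.trans_lt hT2T⟩) (subset_univ _)
  have hc : ContinuousOn (fun p : (ℝ × E) × (ℝ × E) => Dw T Φ p.1 p.2)
      ((Icc (0:ℝ) T2 ×ˢ closedBall (0:E) R) ×ˢ closedBall (0 : ℝ × E) R2) := by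
    apply ContinuousOn.clm_apply
    · exact (Dw_continuousOn hΦ).comp continuousOn_fst (fun p hp => hsub hp.1)
    · exact continuousOn_snd
  obtain ⟨M, hM⟩ := hK.exists_bound_of_continuousOn hc
  refine ⟨max M 0, ?_⟩
  intro t ht x hx w hw
  rcases le_or_gt t T2 with h | h
  · have := hM ((t, x), w) ⟨⟨⟨ht.1.le, h⟩, by simpa using hx⟩, by simpa using hw⟩
    exact this.trans (le_max_left _ _)
  · have h0 : Φ =ᶠ[𝓝 (t, x)] fun _ => 0 := by
      have hopen : Ioo T2 T ×ˢ (univ : Set E) ∈ 𝓝 (t, x) := by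
        rw [nhds_prod_eq]
        exact prod_mem_prod (Ioo_mem_nhds h ht.2) univ_mem
      filter_upwards [hopen] with p hp
      exact hz p.1 ((le_max_left _ _).trans_lt hp.1.1) hp.1.2 p.2
    have h1 : HasFDerivAt Φ (0 : ℝ × E →L[ℝ] ℝ) (t, x) :=
      (hasFDerivAt_const (0:ℝ) (t, x)).congr_of_eventuallyEq h0
    have h2 := (Dw_hasFDerivAt hΦ ht x).unique h1
    rw [h2]; simp

/-- derivative along the characteristic -/
theorem char_hasDerivAt {p k : ℝ} (hp : 0 < p) (hk : 0 ≤ k)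
    (hΦ : ContDiffOn ℝ 1 Φ (Ico 0 T ×ˢ univ)) (y : E) {t : ℝ} (ht : t ∈ Ioo 0 T) :
    HasDerivAt (fun t => Φ (t, Lf p (p * k) t • y))
      (Dw T Φ (t, Lf p (p * k) t • y) (1, (k / tau1 (p * k) t) • (Lf p (p * k) t • y))) t := by
  have h1 : HasDerivAt (fun t : ℝ => (t, Lf p (p * k) t • y))
      ((1 : ℝ), (k / tau1 (p * k) t) • (Lf p (p * k) t • y)) t := by
    apply (hasDerivAt_id t).prodMk
    have := (hasDerivAt_Lf hp hk ht.1.le).smul_const y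
    rwa [← smul_smul] at this
  exact (Dw_hasFDerivAt hΦ ht _).comp_hasDerivAt t h1

/-- integral along the characteristic -/
theorem char_integral {p k : ℝ} (hp : 0 < p) (hk : 0 ≤ k) (hT : 0 < T)
    (hΦ : ContDiffOn ℝ 1 Φ (Ico 0 T ×ˢ univ))
    (hv : ∃ T' < T, ∀ t, T' < t → t < T → ∀ x, Φ (t, x) = 0) (y : E) :
    ∫ t in Ioo 0 T, Dw T Φ (t, Lf p (p * k) t • y)
      (1, (k / tau1 (p * k) t) • (Lf p (p * k) t • y)) = - Φ (0, y) := by
  obtain ⟨T', hT', hz⟩ := hv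
  set T2 := (max T' 0 + T) / 2 with hT2
  have hm : max T' 0 < T := max_lt hT' hT
  have h1 : max T' 0 < T2 := by rw [hT2]; linarith
  have h2 : T2 < T := by rw [hT2]; linarith
  have h0 : 0 < T2 := (le_max_right T' 0).trans_lt h1
  have hγ : 0 ≤ p * k := by positivity
  set f' : ℝ → ℝ := fun t => Dw T Φ (t, Lf p (p * k) t • y)
      (1, (k / tau1 (p * k) t) • (Lf p (p * k) t • y)) with hf'
  have hLc : ContinuousOn (fun t => Lf p (p * k) t) (Icc 0 T2) :=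
    (continuousOn_Lf p hγ).mono Icc_subset_Ici_self
  have hcurve : ContinuousOn (fun t : ℝ => (t, Lf p (p * k) t • y)) (Icc 0 T2) :=
    continuousOn_id.prodMk (hLc.smul continuousOn_const)
  have hmaps : MapsTo (fun t : ℝ => (t, Lf p (p * k) t • y)) (Icc 0 T2)
      (Ico (0:ℝ) T ×ˢ (univ : Set E)) := fun t ht => ⟨⟨ht.1, ht.2.trans_lt h2⟩, mem_univ _⟩
  have hfc : ContinuousOn f' (Icc 0 T2) := by
    apply ContinuousOn.clm_apply
    · exact (Dw_continuousOn hΦ).comp hcurve hmaps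
    · apply continuousOn_const.prodMk
      apply ContinuousOn.smul _ (hLc.smul continuousOn_const)
      apply continuousOn_const.div (continuous_tau1 _).continuousOn
      intro t ht
      exact (tau1_pos hγ ht.1).ne'
  have hzero : ∀ t ∈ Ioo (max T' 0) T, f' t = 0 := by
    intro t ht
    have ht' : t ∈ Ioo 0 T := ⟨(le_max_right T' 0).trans_lt ht.1, ht.2⟩
    have hΦ0 : (fun t => Φ (t, Lf p (p * k) t • y)) =ᶠ[𝓝 t] fun _ => 0 := by
      filter_upwards [Ioo_mem_nhds ht.1 ht.2] with r hr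
      exact hz r ((le_max_left _ _).trans_lt hr.1) hr.2 _
    have h3 := char_hasDerivAt hp hk hΦ y ht'
    have h4 : HasDerivAt (fun t => Φ (t, Lf p (p * k) t • y)) 0 t :=
      (hasDerivAt_const t (0:ℝ)).congr_of_eventuallyEq hΦ0
    exact h3.unique h4
  have e1 : ∫ t in Ioo 0 T, f' t = ∫ t in (0:ℝ)..T2, f' t := by
    rw [intervalIntegral.integral_of_le h0.le, integral_Ioc_eq_integral_Ioo]
    apply setIntegral_eq_of_subset_of_forall_sdiff_eq_zero measurableSet_Ioo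
    · exact Ioo_subset_Ioo_right h2.le
    · intro t ht
      apply hzero
      refine ⟨?_, ht.1.2⟩
      by_contra hcon
      exact ht.2 ⟨ht.1.1, (not_lt.1 hcon).trans_lt h1⟩
  have e2 : ∫ t in (0:ℝ)..T2, f' t =
      Φ (T2, Lf p (p * k) T2 • y) - Φ (0, Lf p (p * k) 0 • y) :=
    intervalIntegral.integral_eq_sub_of_hasDerivAt_of_le
      (f := fun t => Φ (t, Lf p (p * k) t • y)) (f' := f') h0.le
      (hΦ.continuousOn.comp hcurve hmaps)
      (fun t ht => char_hasDerivAt hp hk hΦ y ⟨ht.1, ht.2.trans h2⟩)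
      (hfc.intervalIntegrable_of_Icc h0.le)
  rw [e1, e2, hz T2 ((le_max_left _ _).trans_lt h1) h2]
  have : Lf p (p * k) 0 = 1 := by simp [Lf, tau1]
  rw [this, one_smul, zero_sub]

end

end Pool.Agent.H.MP_4eb066_an
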