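import Pool.Agent.H.MP_4eb066_an.Transport
import Pool.Agent.H.MP_4eb066_an.Defs

open MeasureTheory Set Metric Filter Topology
open scoped ENNReal NNReal RealInnerProductSpace ContDiff

noncomputable section

set_option linter.unusedSectionVars false

namespace Pool.Agent.H.MP_4eb066_an

variable {E : Type*} [NormedAddCommGroup E] [InnerProductSpace ℝ E]
  [MeasurableSpace E] [BorelSpace E] [FiniteDimensional ℝ E] [Nontrivial E]

/-- bounded measurable functions with bounded support are integrable on slabs -/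
theorem integrableOn_slab {G : Type*} [NormedAddCommGroup G] {T R M : ℝ} {f : ℝ × E → G}
    (hf : AEStronglyMeasurable f ((volume : Measure (ℝ × E)).restrict (Ioo 0 T ×ˢ univ)))
    (hb : ∀ t ∈ Ioo 0 T, ∀ x : E, ‖x‖ ≤ R → ‖f (t, x)‖ ≤ M)
    (hz : ∀ t ∈ Ioo 0 T, ∀ x : E, R ≤ ‖x‖ → f (t, x) = 0) :
    IntegrableOn f (Ioo 0 T ×ˢ univ) := by
  have hfin : (volume : Measure (ℝ × E)) (Ioo 0 T ×ˢ ball (0:E) R) < ⊤ := by
    rw [Measure.volume_eq_prod, Measure.prod_prod]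
    exact ENNReal.mul_lt_top (by rw [Real.volume_Ioo]; exact ENNReal.ofReal_lt_top)
      measure_ball_lt_top
  have hsub : Ioo (0:ℝ) T ×ˢ ball (0:E) R ⊆ Ioo 0 T ×ˢ univ := prod_mono_right (subset_univ _)
  have hm : MeasurableSet (Ioo (0:ℝ) T ×ˢ ball (0:E) R) := measurableSet_Ioo.prod measurableSet_ball
  have h1 : IntegrableOn f (Ioo 0 T ×ˢ ball (0:E) R) := by
    apply IntegrableOn.of_bound hfin (hf.mono_set hsub) M
    filter_upwards [ae_restrict_mem hm] with p hp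
    have hx : ‖p.2‖ < R := by simpa using hp.2
    exact hb p.1 hp.1 p.2 hx.le
  apply h1.of_forall_sdiff_eq_zero (measurableSet_Ioo.prod MeasurableSet.univ)
  rintro ⟨t, x⟩ hp
  apply hz t hp.1.1 x
  by_contra hcon
  exact hp.2 ⟨hp.1.1, by simpa using hcon⟩

/-- data of the self-similar construction -/
structure Prof (E : Type*) [NormedAddCommGroup E] [InnerProductSpace ℝ E]
    [MeasurableSpace E] [BorelSpace E] [FiniteDimensional ℝ E] [Nontrivial E] where
  F : ℝ → ℝ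
  C : ℝ
  p : ℝ
  k : ℝ
  meas : Measurable F
  nonneg : ∀ r, 0 ≤ F r
  le : ∀ r, F r ≤ C
  supp : ∀ r, 1 ≤ r → F r = 0
  hp : 0 < p
  hk : 0 ≤ k

namespace Prof

variable (P : Prof E)

theorem C_nonneg : 0 ≤ P.C := (P.nonneg 0).trans (P.le 0)

/-- the self-similar evolution -/
def u (t : ℝ) (x : E) : ℝ := dil E P.F (Lf P.p (P.p * P.k) t)⁻¹ x

theorem hγ : 0 ≤ P.p * P.k := mul_nonneg P.hp.le P.hk

theorem L_pos {t : ℝ} (ht : 0 ≤ t) : 0 < Lf P.p (P.p * P.k) t := Lf_pos P.hγ ht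

theorem one_le_L {t : ℝ} (ht : 0 ≤ t) : 1 ≤ Lf P.p (P.p * P.k) t := one_le_Lf P.hp P.hγ ht

theorem u_nonneg {t : ℝ} (ht : 0 ≤ t) (x : E) : 0 ≤ P.u t x := by
  have := P.L_pos ht
  unfold u dil
  exact mul_nonneg (by positivity) (P.nonneg _)

theorem u_le {t : ℝ} (ht : 0 ≤ t) (x : E) : P.u t x ≤ P.C := by
  have h1 := P.L_pos ht
  have h2 := P.one_le_L ht
  unfold u dil
  have h3 : (Lf P.p (P.p * P.k) t)⁻¹ ^ Module.finrank ℝ E ≤ 1 :=
    pow_le_one₀ (inv_nonneg.2 h1.le) (inv_le_one_of_one_le₀ h2)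
  calc _ ≤ 1 * P.C := mul_le_mul h3 (P.le _) (P.nonneg _) zero_le_one
    _ = P.C := one_mul _

theorem u_abs_le {t : ℝ} (ht : 0 ≤ t) (x : E) : |P.u t x| ≤ P.C := by
  rw [abs_of_nonneg (P.u_nonneg ht x)]; exact P.u_le ht x

theorem u_supp {t : ℝ} (ht : 0 ≤ t) {x : E} (hx : Lf P.p (P.p * P.k) t ≤ ‖x‖) :
    P.u t x = 0 := by
  have h1 := P.L_pos ht
  unfold u dil
  rw [P.supp, mul_zero]
  rw [norm_smul, Real.norm_of_nonneg (inv_nonneg.2 h1.le), inv_mul_eq_div, one_le_div h1]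
  exact hx

theorem u_supp' {t T : ℝ} (ht : 0 ≤ t) (htT : t ≤ T) {x : E}
    (hx : Lf P.p (P.p * P.k) T ≤ ‖x‖) : P.u t x = 0 :=
  P.u_supp ht ((Lf_mono P.hp P.hγ ht htT).trans hx)

theorem measurable_u : Measurable (fun q : ℝ × E => P.u q.1 q.2) := by
  unfold u dil
  have h1 : Measurable (fun q : ℝ × E => (Lf P.p (P.p * P.k) q.1)⁻¹) :=
    ((measurable_Lf P.p (P.p * P.k)).comp measurable_fst).inv
  exact (h1.pow_const _).mul (P.meas.comp (h1.smul measurable_snd).norm)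

theorem measurable_u_t (t : ℝ) : Measurable (P.u t) :=
  P.measurable_u.comp (measurable_const.prodMk measurable_id)

theorem u_zero (x : E) : P.u 0 x = P.F ‖x‖ := by
  have : Lf P.p (P.p * P.k) 0 = 1 := by simp [Lf, tau1]
  unfold u dil
  rw [this]; simp

theorem integrable_u (T : ℝ) :
    IntegrableOn (fun q : ℝ × E => P.u q.1 q.2) (Ioo 0 T ×ˢ univ) := by
  apply integrableOn_slab (R := Lf P.p (P.p * P.k) T) (M := P.C) P.measurable_u.aestronglyMeasurable
  · intro t ht x _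
    exact P.u_abs_le ht.1.le x
  · intro t ht x hx
    exact P.u_supp' ht.1.le ht.2.le hx

section weak

variable {T : ℝ} {Φ : ℝ × E → ℝ}

theorem meas_slab (hΦ : ContDiffOn ℝ 1 Φ (Ico 0 T ×ˢ univ)) {w : ℝ × E → ℝ × E}
    (hw : ContinuousOn w (Ioo 0 T ×ˢ univ)) :
    AEStronglyMeasurable (fun q : ℝ × E => Dw T Φ q (w q))
      ((volume : Measure (ℝ × E)).restrict (Ioo 0 T ×ˢ univ)) := by
  apply ContinuousOn.aestronglyMeasurable _ (measurableSet_Ioo.prod MeasurableSet.univ)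
  apply ContinuousOn.clm_apply _ hw
  exact (Dw_continuousOn hΦ).mono (prod_mono_left Ioo_subset_Ico_self)

theorem integrable_A (hT : 0 < T) (hΦ : ContDiffOn ℝ 1 Φ (Ico 0 T ×ˢ univ))
    (hv : ∃ T' < T, ∀ t, T' < t → t < T → ∀ x, Φ (t, x) = 0) :
    IntegrableOn (fun q : ℝ × E => P.u q.1 q.2 * Dw T Φ q (1, 0)) (Ioo 0 T ×ˢ univ) := by
  obtain ⟨M, hM⟩ := Dw_bound hT hΦ hv (Lf P.p (P.p * P.k) T) 1
  apply integrableOn_slab (R := Lf P.p (P.p * P.k) T) (M := P.C * M)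
  · exact P.measurable_u.aestronglyMeasurable.mul (meas_slab hΦ continuousOn_const)
  · intro t ht x hx
    simp only [norm_mul, Real.norm_eq_abs]
    exact mul_le_mul (P.u_abs_le ht.1.le x) (hM t ht x hx _ (by simp)) (abs_nonneg _) P.C_nonneg
  · intro t ht x hx
    simp only [P.u_supp' ht.1.le ht.2.le hx, zero_mul]

theorem tau1_ge (t : ℝ) (ht : 0 ≤ t) : P.k / tau1 (P.p * P.k) t ≤ P.k :=
  div_le_self P.hk (one_le_tau1 P.hγ ht)

theorem tau1_nonneg (t : ℝ) (ht : 0 ≤ t) : 0 ≤ P.k / tau1 (P.p * P.k) t :=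
  div_nonneg P.hk (tau1_pos P.hγ ht).le

theorem continuousOn_ktau : ContinuousOn (fun q : ℝ × E => P.k / tau1 (P.p * P.k) q.1)
    (Ioo 0 T ×ˢ univ) := by
  apply continuousOn_const.div
  · exact ((continuous_tau1 _).comp continuous_fst).continuousOn
  · intro q hq
    exact (tau1_pos P.hγ hq.1.1.le).ne'

theorem integrable_B (hT : 0 < T) (hΦ : ContDiffOn ℝ 1 Φ (Ico 0 T ×ˢ univ))
    (hv : ∃ T' < T, ∀ t, T' < t → t < T → ∀ x, Φ (t, x) = 0) :
    IntegrableOn (fun q : ℝ × E => P.u q.1 q.2 *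
      Dw T Φ q (0, (P.k / tau1 (P.p * P.k) q.1) • q.2)) (Ioo 0 T ×ˢ univ) := by
  set R := Lf P.p (P.p * P.k) T with hR
  have hR0 : 0 < R := P.L_pos hT.le
  obtain ⟨M, hM⟩ := Dw_bound hT hΦ hv R (P.k * R)
  apply integrableOn_slab (R := R) (M := P.C * M)
  · apply P.measurable_u.aestronglyMeasurable.mul
    apply meas_slab hΦ
    apply continuousOn_const.prodMk
    exact P.continuousOn_ktau.smul continuousOn_snd
  · intro t ht x hx
    simp only [norm_mul, Real.norm_eq_abs]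
    apply mul_le_mul (P.u_abs_le ht.1.le x) (hM t ht x hx _ _) (abs_nonneg _) P.C_nonneg
    rw [Prod.norm_mk, norm_zero]
    apply max_le (by have := P.hk; positivity)
    rw [norm_smul, Real.norm_of_nonneg (P.tau1_nonneg t ht.1.le)]
    exact mul_le_mul (P.tau1_ge t ht.1.le) hx (norm_nonneg _) P.hk
  · intro t ht x hx
    simp only [P.u_supp' ht.1.le ht.2.le hx, zero_mul]

/-- the transport identity behind the weak formulation -/
theorem transport (hT : 0 < T) (hΦ : ContDiffOn ℝ 1 Φ (Ico 0 T ×ˢ univ))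
    (hv : ∃ T' < T, ∀ t, T' < t → t < T → ∀ x, Φ (t, x) = 0) :
    (∫ q in Ioo 0 T ×ˢ univ, P.u q.1 q.2 * Dw T Φ q (1, 0)) +
      (∫ q in Ioo 0 T ×ˢ univ, P.u q.1 q.2 *
        Dw T Φ q (0, (P.k / tau1 (P.p * P.k) q.1) • q.2)) = - ∫ x : E, P.F ‖x‖ * Φ (0, x) := by
  have hA := P.integrable_A hT hΦ hv
  have hB := P.integrable_B hT hΦ hv
  rw [← integral_add hA hB]
  have e0 : ∀ q : ℝ × E, P.u q.1 q.2 * Dw T Φ q (1, 0) +
      P.u q.1 q.2 * Dw T Φ q (0, (P.k / tau1 (P.p * P.k) q.1) • q.2) =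
      P.u q.1 q.2 * Dw T Φ q (1, (P.k / tau1 (P.p * P.k) q.1) • q.2) := by
    intro q
    rw [← mul_add, ← map_add]
    congr 2
    simp
  have hAB : IntegrableOn (fun q : ℝ × E => P.u q.1 q.2 *
      Dw T Φ q (1, (P.k / tau1 (P.p * P.k) q.1) • q.2)) (Ioo 0 T ×ˢ univ) := by
    have := hA.add hB
    refine this.congr_fun_ae (Eventually.of_forall fun q => ?_)
    exact e0 q
  simp_rw [e0]
  have hprod : (volume : Measure (ℝ × E)).restrict (Ioo 0 T ×ˢ univ) =
      ((volume : Measure ℝ).restrict (Ioo 0 T)).prod (volume : Measure E) := by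
    rw [Measure.volume_eq_prod, ← Measure.prod_restrict, Measure.restrict_univ]
  have hAB' : Integrable (fun q : ℝ × E => P.u q.1 q.2 *
      Dw T Φ q (1, (P.k / tau1 (P.p * P.k) q.1) • q.2))
      (((volume : Measure ℝ).restrict (Ioo 0 T)).prod (volume : Measure E)) := by
    rw [← hprod]; exact hAB
  rw [hprod, integral_prod _ hAB']
  -- change of variables in space
  have e1 : ∫ t in Ioo 0 T, ∫ x : E, P.u t x *
      Dw T Φ (t, x) (1, (P.k / tau1 (P.p * P.k) t) • x) =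
      ∫ t in Ioo 0 T, ∫ y : E, P.F ‖y‖ * Dw T Φ (t, Lf P.p (P.p * P.k) t • y)
        (1, (P.k / tau1 (P.p * P.k) t) • (Lf P.p (P.p * P.k) t • y)) := by
    apply setIntegral_congr_fun measurableSet_Ioo
    intro t ht
    have hl : 0 < (Lf P.p (P.p * P.k) t)⁻¹ := inv_pos.2 (P.L_pos ht.1.le)
    have := integral_dil (E := E) P.F hl
      (fun x => Dw T Φ (t, x) (1, (P.k / tau1 (P.p * P.k) t) • x))
    simp only [smul_eq_mul, inv_inv] at this
    exact this
  rw [e1]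
  -- integrability for the swap
  set R := Lf P.p (P.p * P.k) T with hR
  have hR0 : 0 < R := P.L_pos hT.le
  obtain ⟨M, hM⟩ := Dw_bound hT hΦ hv R (max 1 (P.k * R))
  have hLc : ContinuousOn (fun q : ℝ × E => Lf P.p (P.p * P.k) q.1) (Ioo 0 T ×ˢ univ) :=
    (continuousOn_Lf P.p P.hγ).comp continuousOn_fst (fun q hq => hq.1.1.le)
  have hmap : MapsTo (fun q : ℝ × E => (q.1, Lf P.p (P.p * P.k) q.1 • q.2))
      (Ioo 0 T ×ˢ univ) (Ico 0 T ×ˢ univ) := fun q hq => ⟨⟨hq.1.1.le, hq.1.2⟩, mem_univ _⟩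
  have hcont : ContinuousOn (fun q : ℝ × E => Dw T Φ (q.1, Lf P.p (P.p * P.k) q.1 • q.2)
        (1, (P.k / tau1 (P.p * P.k) q.1) • (Lf P.p (P.p * P.k) q.1 • q.2)))
        (Ioo 0 T ×ˢ univ) := by
    apply ContinuousOn.clm_apply
    · exact (Dw_continuousOn hΦ).comp
        (continuousOn_fst.prodMk (hLc.smul continuousOn_snd)) hmap
    · apply continuousOn_const.prodMk
      exact P.continuousOn_ktau.smul (hLc.smul continuousOn_snd)
  have hFm : Measurable (fun q : ℝ × E => P.F ‖q.2‖) := P.meas.comp measurable_snd.norm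
  have hI : IntegrableOn (fun q : ℝ × E => P.F ‖q.2‖ *
      Dw T Φ (q.1, Lf P.p (P.p * P.k) q.1 • q.2)
        (1, (P.k / tau1 (P.p * P.k) q.1) • (Lf P.p (P.p * P.k) q.1 • q.2)))
        (Ioo 0 T ×ˢ univ) := by
    apply integrableOn_slab (R := 1) (M := P.C * M)
    · exact hFm.aestronglyMeasurable.mul
        (hcont.aestronglyMeasurable (measurableSet_Ioo.prod MeasurableSet.univ))
    · intro t ht x hx
      have hLt : 0 < Lf P.p (P.p * P.k) t := P.L_pos ht.1.le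
      have hLx : ‖Lf P.p (P.p * P.k) t • x‖ ≤ R := by
        rw [norm_smul, Real.norm_of_nonneg hLt.le]
        calc Lf P.p (P.p * P.k) t * ‖x‖ ≤ R * 1 := by
              apply mul_le_mul (Lf_mono P.hp P.hγ ht.1.le ht.2.le) hx (norm_nonneg _) hR0.le
          _ = R := mul_one _
      simp only [norm_mul, Real.norm_eq_abs]
      apply mul_le_mul _ (hM t ht _ hLx _ _) (abs_nonneg _) P.C_nonneg
      · rw [abs_of_nonneg (P.nonneg _)]; exact P.le _
      · rw [Prod.norm_mk]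
        apply max_le_max (by simp)
        rw [norm_smul, Real.norm_of_nonneg (P.tau1_nonneg t ht.1.le)]
        exact mul_le_mul (P.tau1_ge t ht.1.le) hLx (norm_nonneg _) P.hk
    · intro t ht x hx
      simp only [P.supp _ hx, zero_mul]
  have hI' : Integrable (fun q : ℝ × E => P.F ‖q.2‖ *
      Dw T Φ (q.1, Lf P.p (P.p * P.k) q.1 • q.2)
        (1, (P.k / tau1 (P.p * P.k) q.1) • (Lf P.p (P.p * P.k) q.1 • q.2)))
      (((volume : Measure ℝ).restrict (Ioo 0 T)).prod (volume : Measure E)) := by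
    rw [← hprod]; exact hI
  rw [integral_integral_swap hI', ← integral_neg]
  congr 1; ext y
  rw [integral_const_mul, char_integral P.hp P.hk hT hΦ hv y]
  ring

end weak

end Prof

end Pool.Agent.H.MP_4eb066_an
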