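import Pool.Agent.H.MP_4eb066_an.Profile

open MeasureTheory Set Metric Filter Topology
open scoped ENNReal NNReal RealInnerProductSpace ContDiff

noncomputable section

set_option linter.unusedSectionVars false

namespace Pool.Agent.H.MP_4eb066_an

variable {E : Type*} [NormedAddCommGroup E] [InnerProductSpace ℝ E]
  [MeasurableSpace E] [BorelSpace E] [FiniteDimensional ℝ E] [Nontrivial E]

/-- regularised power of the norm -/
def regK (a ε : ℝ) (z : E) : ℝ := (‖z‖ ^ 2 + ε ^ 2) ^ (-a / 2)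

theorem regK_hasFDerivAt (a : ℝ) {ε : ℝ} (hε : 0 < ε) (z : E) :
    HasFDerivAt (regK a ε : E → ℝ)
      ((-a * (‖z‖ ^ 2 + ε ^ 2) ^ (-a / 2 - 1)) • (innerSL ℝ z)) z := by
  have hpos : 0 < ‖z‖ ^ 2 + ε ^ 2 := by positivity
  have h1 : HasFDerivAt (fun z : E => ‖z‖ ^ 2 + ε ^ 2) (2 • (innerSL ℝ z)) z :=
    (hasStrictFDerivAt_norm_sq z).hasFDerivAt.add_const _
  have h2 := (Real.hasDerivAt_rpow_const (x := ‖z‖ ^ 2 + ε ^ 2) (p := -a / 2)
    (Or.inl hpos.ne')).comp_hasFDerivAt z h1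
  refine h2.congr_fderiv ?_
  ext v
  simp
  ring

theorem regK_contDiff (a : ℝ) {ε : ℝ} (hε : 0 < ε) : ContDiff ℝ ∞ (regK a ε : E → ℝ) := by
  unfold regK
  apply ContDiff.rpow_const_of_ne
  · exact (contDiff_norm_sq ℝ).add contDiff_const
  · intro z; positivity

theorem regK_ibp (a : ℝ) {ε : ℝ} (hε : 0 < ε) {ψ : E → ℝ} (hψ : ContDiff ℝ ∞ ψ)
    (hc : HasCompactSupport ψ) (v : E) :
    ∫ z : E, regK a ε z * fderiv ℝ ψ z v =
      a * ∫ z : E, ((‖z‖ ^ 2 + ε ^ 2) ^ (-a / 2 - 1) * ⟪z, v⟫) * ψ z := by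
  have hK := regK_contDiff (E := E) a hε
  have hKd : Differentiable ℝ (regK a ε : E → ℝ) := hK.differentiable (by simp)
  have hψd : Differentiable ℝ ψ := hψ.differentiable (by simp)
  have hKf : ∀ z v, fderiv ℝ (regK a ε : E → ℝ) z v =
      -a * (‖z‖ ^ 2 + ε ^ 2) ^ (-a / 2 - 1) * ⟪z, v⟫ := by
    intro z v
    rw [(regK_hasFDerivAt a hε z).fderiv]
    simp
  have hfψc : Continuous (fun z => fderiv ℝ ψ z v) :=
    (hψ.continuous_fderiv (by simp)).clm_apply continuous_const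
  have hfKc : Continuous (fun z => fderiv ℝ (regK a ε : E → ℝ) z v) :=
    (hK.continuous_fderiv (by simp)).clm_apply continuous_const
  have i1 : Integrable (fun z => fderiv ℝ (regK a ε : E → ℝ) z v * ψ z) :=
    (hfKc.mul hψ.continuous).integrable_of_hasCompactSupport hc.mul_left
  have i2 : Integrable (fun z => (regK a ε : E → ℝ) z * fderiv ℝ ψ z v) := by
    apply (hK.continuous.mul hfψc).integrable_of_hasCompactSupport
    apply HasCompactSupport.mul_left
    exact hc.fderiv_apply (𝕜 := ℝ) v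
  have i3 : Integrable (fun z => (regK a ε : E → ℝ) z * ψ z) :=
    (hK.continuous.mul hψ.continuous).integrable_of_hasCompactSupport hc.mul_left
  have h := integral_mul_fderiv_eq_neg_fderiv_mul_of_integrable i1 i2 i3
    (fun x _ => hKd x) (fun x _ => hψd x)
  rw [h, ← integral_neg, ← integral_const_mul]
  congr 1; ext z
  rw [hKf]; ring

/-- The kernel `|z|^{-a}` has distributional gradient `-a |z|^{-a-2} z`. -/
theorem kernel_weak {a : ℝ} (ha : 0 < a) (ha1 : a + 1 < Module.finrank ℝ E) {ψ : E → ℝ}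
    (hψ : ContDiff ℝ ∞ ψ) (hc : HasCompactSupport ψ) (v : E) :
    ∫ z : E, ‖z‖ ^ (-a) * fderiv ℝ ψ z v = a * ∫ z : E, ⟪kerG (a + 1) z, v⟫ * ψ z := by
  have hfψc : Continuous (fun z => fderiv ℝ ψ z v) :=
    (hψ.continuous_fderiv (by simp)).clm_apply continuous_const
  have hcf : HasCompactSupport (fun z => fderiv ℝ ψ z v) := hc.fderiv_apply (𝕜 := ℝ) v
  -- a common ball containing the supports
  obtain ⟨R, hR⟩ : ∃ R : ℝ, ∀ z : E, R ≤ ‖z‖ → ψ z = 0 ∧ fderiv ℝ ψ z v = 0 := by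
    obtain ⟨R1, hR1⟩ := hc.isBounded.exists_norm_le
    obtain ⟨R2, hR2⟩ := hcf.isBounded.exists_norm_le
    refine ⟨max R1 R2 + 1, ?_⟩
    intro z hz
    constructor
    · apply image_eq_zero_of_notMem_tsupport
      intro h
      have := hR1 z h
      have := le_max_left R1 R2
      linarith
    · refine image_eq_zero_of_notMem_tsupport (f := fun z => fderiv ℝ ψ z v) ?_
      intro h
      have := hR2 z h
      have := le_max_right R1 R2
      linarith
  obtain ⟨M1, hM1⟩ := hfψc.bounded_above_of_compact_support hcf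
  obtain ⟨M2, hM2⟩ := hψ.continuous.bounded_above_of_compact_support hc
  have hε : ∀ n : ℕ, (0:ℝ) < 1 / ((n:ℝ) + 1) := fun n => by positivity
  have hε0 : Tendsto (fun n : ℕ => (1:ℝ) / (n + 1)) atTop (𝓝 0) :=
    tendsto_one_div_add_atTop_nhds_zero_nat
  have hae : ∀ᵐ z : E, z ≠ 0 := by
    rw [ae_iff]; simp
  -- pointwise facts
  have hdom : ∀ (p : ℝ), 0 ≤ p → ∀ (z : E), z ≠ 0 → ∀ n : ℕ,
      (‖z‖ ^ 2 + (1 / ((n:ℝ) + 1)) ^ 2) ^ (-p / 2) ≤ ‖z‖ ^ (-p) := by
    intro p hp z hz n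
    have hz0 : 0 < ‖z‖ := norm_pos_iff.2 hz
    have e : ‖z‖ ^ (-p) = (‖z‖ ^ 2) ^ (-p / 2) := by
      rw [← Real.rpow_natCast, ← Real.rpow_mul hz0.le]
      congr 1; push_cast; ring
    rw [e]
    apply Real.rpow_le_rpow_of_nonpos (by positivity)
    · have := sq_nonneg (1 / ((n:ℝ) + 1)); linarith
    · linarith
  have hlim : ∀ (p : ℝ) (z : E), z ≠ 0 →
      Tendsto (fun n : ℕ => (‖z‖ ^ 2 + (1 / ((n:ℝ) + 1)) ^ 2) ^ (-p / 2)) atTop
        (𝓝 (‖z‖ ^ (-p))) := by
    intro p z hz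
    have hz0 : 0 < ‖z‖ := norm_pos_iff.2 hz
    have e : ‖z‖ ^ (-p) = (‖z‖ ^ 2 + 0 ^ 2) ^ (-p / 2) := by
      rw [zero_pow two_ne_zero, add_zero, ← Real.rpow_natCast, ← Real.rpow_mul hz0.le]
      congr 1; push_cast; ring
    rw [e]
    apply Tendsto.rpow_const
    · exact (tendsto_const_nhds.add (hε0.pow 2))
    · left; rw [zero_pow two_ne_zero, add_zero]; positivity
  -- left side
  have hL : Tendsto (fun n : ℕ => ∫ z : E, regK a (1 / ((n:ℝ) + 1)) z * fderiv ℝ ψ z v) atTop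
      (𝓝 (∫ z : E, ‖z‖ ^ (-a) * fderiv ℝ ψ z v)) := by
    have hbI : Integrable ((ball (0:E) R).indicator (fun z => M1 * ‖z‖ ^ (-a))) := by
      rw [integrable_indicator_iff measurableSet_ball]
      exact (integrableOn_norm_rpow_ball (by linarith) R).const_mul M1
    apply tendsto_integral_of_dominated_convergence _ _ hbI
    · intro n
      filter_upwards [hae] with z hz
      by_cases hzR : R ≤ ‖z‖
      · rw [(hR z hzR).2, mul_zero, norm_zero]
        apply indicator_nonneg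
        intro y _
        apply mul_nonneg ((norm_nonneg _).trans (hM1 0)) (Real.rpow_nonneg (norm_nonneg _) _)
      · rw [indicator_of_mem (by simpa using hzR), norm_mul, mul_comm]
        have h1 := hdom a ha.le z hz n
        have h0 : 0 ≤ regK a (1 / ((n:ℝ) + 1)) z := Real.rpow_nonneg (by positivity) _
        rw [Real.norm_of_nonneg h0]
        exact mul_le_mul (hM1 z) h1 h0 ((norm_nonneg _).trans (hM1 0))
    · filter_upwards [hae] with z hz
      exact (hlim a z hz).mul_const _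
    · intro n
      exact ((regK_contDiff (E := E) a (hε n)).continuous.mul hfψc).aestronglyMeasurable
  have hRt : Tendsto (fun n : ℕ => a * ∫ z : E,
      ((‖z‖ ^ 2 + (1 / ((n:ℝ) + 1)) ^ 2) ^ (-a / 2 - 1) * ⟪z, v⟫) * ψ z) atTop
      (𝓝 (a * ∫ z : E, ⟪kerG (a + 1) z, v⟫ * ψ z)) := by
    apply Tendsto.const_mul
    have hbI : Integrable ((ball (0:E) R).indicator (fun z => M2 * ‖v‖ * ‖z‖ ^ (-(a+1)))) := by
      rw [integrable_indicator_iff measurableSet_ball]
      exact (integrableOn_norm_rpow_ball (by linarith) R).const_mul _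
    apply tendsto_integral_of_dominated_convergence _ _ hbI
    · intro n
      filter_upwards [hae] with z hz
      by_cases hzR : R ≤ ‖z‖
      · rw [(hR z hzR).1, mul_zero, norm_zero]
        apply indicator_nonneg
        intro y _
        have := (norm_nonneg _).trans (hM2 0)
        positivity
      · have hz0 : 0 < ‖z‖ := norm_pos_iff.2 hz
        rw [indicator_of_mem (by simpa using hzR), norm_mul, norm_mul, mul_comm]
        have h1 := hdom (a + 2) (by linarith) z hz n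
        have e1 : -(a + 2) / 2 = -a / 2 - 1 := by ring
        rw [e1] at h1
        have h0 : 0 ≤ (‖z‖ ^ 2 + (1 / ((n:ℝ) + 1)) ^ 2) ^ (-a / 2 - 1) :=
          Real.rpow_nonneg (by positivity) _
        rw [Real.norm_of_nonneg h0]
        have e2 : ‖z‖ ^ (-(a + 2)) * ‖z‖ = ‖z‖ ^ (-(a+1)) := by
          nth_rewrite 2 [← Real.rpow_one ‖z‖]
          rw [← Real.rpow_add hz0]; congr 1; ring
        calc ‖ψ z‖ * ((‖z‖ ^ 2 + (1 / ((n:ℝ) + 1)) ^ 2) ^ (-a / 2 - 1) * ‖⟪z, v⟫‖)
            ≤ M2 * (‖z‖ ^ (-(a + 2)) * (‖z‖ * ‖v‖)) := by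
              have hM20 := (norm_nonneg _).trans (hM2 0)
              apply mul_le_mul (hM2 z) _ (by positivity) hM20
              apply mul_le_mul h1 (norm_inner_le_norm _ _) (norm_nonneg _) (by positivity)
          _ = M2 * ‖v‖ * ‖z‖ ^ (-(a+1)) := by rw [← e2]; ring
    · filter_upwards [hae] with z hz
      have h1 := hlim (a + 2) z hz
      have e1 : -(a + 2) / 2 = -a / 2 - 1 := by ring
      rw [e1] at h1
      have h2 := (h1.mul_const (⟪z, v⟫)).mul_const (ψ z)
      have e3 : ⟪kerG (a + 1) z, v⟫ = ‖z‖ ^ (-(a + 2)) * ⟪z, v⟫ := by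
        rw [kerG, inner_smul_left]
        simp
        left; congr 1; ring
      rw [e3]
      exact h2
    · intro n
      apply Continuous.aestronglyMeasurable
      apply Continuous.mul _ hψ.continuous
      apply Continuous.mul _ (by fun_prop)
      apply Continuous.rpow_const (by fun_prop)
      intro z; left
      have := hε n
      positivity
  have heq : (fun n : ℕ => ∫ z : E, regK a (1 / ((n:ℝ) + 1)) z * fderiv ℝ ψ z v) =
      fun n : ℕ => a * ∫ z : E,
      ((‖z‖ ^ 2 + (1 / ((n:ℝ) + 1)) ^ 2) ^ (-a / 2 - 1) * ⟪z, v⟫) * ψ z := by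
    ext n
    exact regK_ibp a (hε n) hψ hc v
  rw [heq] at hL
  exact tendsto_nhds_unique hL hRt

end Pool.Agent.H.MP_4eb066_an
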